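import Pool.Agent.Lib.MP_cad252_al.Z.Noe

/-!
Long alternations vanish, given the Capelli identity for the operators.
-/

set_option linter.unusedSimpArgs false
set_option linter.unusedSectionVars false

namespace Pool.Agent.Lib.MP_cad252_al.Z

open Pool.Agent.Lib.MP_cad252_al.H89 FreeNonUnitalNonAssocAlgebra

universe u v w

section rn

variable {K : Type u} [Field K] [CharZero K] {I : Submodule K (FA K)} (hI : IsTIdeal K I)
  (hS : ∀ f ∈ S0 K, f ∈ I) (hL : Lin I)

/-- Renaming of letters in the quotient. -/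
noncomputable def rnl (hI : IsTIdeal K I) (s : ℕ → ℕ) : Qt hI →ₗ[K] Qt hI :=
  Submodule.liftQ I ((pj hI).comp
    ((lift K (fun j => of K (s j)) : FA K →ₙₐ[K] FA K) : FA K →ₗ[K] FA K)) (by
      intro f hf
      rw [LinearMap.mem_ker]
      exact (pj_eq_zero hI).2 (hI.subst _ f hf))

/-- Renaming of letters in the quotient, as a homomorphism. -/
noncomputable def rn (hI : IsTIdeal K I) (s : ℕ → ℕ) : Qt hI →ₙₐ[K] Qt hI where
  toFun := rnl hI s
  map_smul' := map_smul (rnl hI s)
  map_zero' := map_zero (rnl hI s)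
  map_add' := map_add (rnl hI s)
  map_mul' := by
    intro x y
    obtain ⟨f, rfl⟩ := pj_surjective hI x
    obtain ⟨g, rfl⟩ := pj_surjective hI y
    change pj hI (lift K (fun j => of K (s j)) (f * g)) = _
    rw [map_mul, pj_mul]; rfl

theorem rn_pj (s : ℕ → ℕ) (f : FA K) :
    rn hI s (pj hI f) = pj hI (lift K (fun j => of K (s j)) f) := rfl

theorem rn_mm (s : ℕ → ℕ) (m : FreeMagma ℕ) : rn hI s (mm hI m) = mm hI (rename s m) := by
  rw [mm, rn_pj, lift_mon, ev_rename]; rfl

theorem rn_tt (s : ℕ → ℕ) (x y w : Qt hI) :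
    rn hI s (tt hI hS hL x y w) = tt hI hS hL (rn hI s x) (rn hI s y) (rn hI s w) := by
  refine LinearMap.congr_fun (f := (rn hI s : Qt hI →ₗ[K] Qt hI).comp (tt hI hS hL x y))
    (g := (tt hI hS hL (rn hI s x) (rn hI s y)).comp (rn hI s : Qt hI →ₗ[K] Qt hI))
    (Qt_ext hI (fun i => ?_) (fun a b => ?_)) w
  · change rn hI s (tt hI hS hL x y (pj hI (of K i)))
      = tt hI hS hL (rn hI s x) (rn hI s y) (rn hI s (pj hI (of K i)))
    rw [tt_of, map_zero, rn_pj, lift_of_apply, tt_of]
  · change rn hI s (tt hI hS hL x y (a * b))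
      = tt hI hS hL (rn hI s x) (rn hI s y) (rn hI s (a * b))
    rw [tt_mul, map_mul, tt_mul, map_q]

theorem rename_comp (s t : ℕ → ℕ) (m : FreeMagma ℕ) :
    rename s (rename t m) = rename (fun j => s (t j)) m := by
  induction m with
  | ih1 x => rfl
  | ih2 a b ha hb => rw [rename_mul, rename_mul, rename_mul, ha, hb]

theorem rn_rn (s t : ℕ → ℕ) (x : Qt hI) : rn hI s (rn hI t x) = rn hI (fun j => s (t j)) x := by
  obtain ⟨f, rfl⟩ := pj_surjective hI x
  refine LinearMap.congr_fun (lin_ext K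
    (g := (((rn hI s).comp (rn hI t) : Qt hI →ₙₐ[K] Qt hI) : Qt hI →ₗ[K] Qt hI).comp (pj hI))
    (h := ((rn hI (fun j => s (t j)) : Qt hI →ₙₐ[K] Qt hI) : Qt hI →ₗ[K] Qt hI).comp (pj hI))
    ?_) f
  intro m
  change rn hI s (rn hI t (mm hI m)) = rn hI (fun j => s (t j)) (mm hI m)
  rw [rn_mm, rn_mm, rn_mm, rename_comp]

theorem rename_eq_self (s : ℕ → ℕ) (m : FreeMagma ℕ) (h : ∀ i, cnt i m ≠ 0 → s i = i) :
    rename s m = m := by
  induction m with
  | ih1 x => rw [rename_of, h x (by rw [cnt_of, if_pos rfl]; omega)]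
  | ih2 a b ha hb =>
    rw [rename_mul, ha (fun i hi => h i (by rw [cnt_mul]; omega)),
      hb (fun i hi => h i (by rw [cnt_mul]; omega))]

/-- Renaming in a list of pairs. -/
def rnL (s : ℕ → ℕ) (l : List (FreeMagma ℕ × FreeMagma ℕ)) : List (FreeMagma ℕ × FreeMagma ℕ) :=
  l.map fun p => (rename s p.1, rename s p.2)

theorem rn_opv (s : ℕ → ℕ) (l : List (FreeMagma ℕ × FreeMagma ℕ)) (x : Qt hI) :
    rn hI s (opv hI hS hL l x) = opv hI hS hL (rnL s l) (rn hI s x) := by
  induction l with
  | nil => rfl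
  | cons p l ih =>
    have e : rnL s (p :: l) = (rename s p.1, rename s p.2) :: rnL s l := rfl
    rw [e, opv_cons, opv_cons, Module.End.mul_apply, Module.End.mul_apply, rn_tt, ih, rn_mm, rn_mm]

theorem rnL_eq_self (s : ℕ → ℕ) (l : List (FreeMagma ℕ × FreeMagma ℕ))
    (h : ∀ i, conL l i ≠ 0 → s i = i) : rnL s l = l := by
  induction l with
  | nil => rfl
  | cons p l ih =>
    have e : rnL s (p :: l) = (rename s p.1, rename s p.2) :: rnL s l := rfl
    rw [e, ih (fun i hi => h i (by rw [conL_cons]; omega)),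
      rename_eq_self s p.1 (fun i hi => h i (by rw [conL_cons]; omega)),
      rename_eq_self s p.2 (fun i hi => h i (by rw [conL_cons]; omega))]

/-! ### Commutation and rearrangement -/

theorem tt_comm_opv (x y : Qt hI) (l : List (FreeMagma ℕ × FreeMagma ℕ)) :
    (tt hI hS hL x y : Module.End K (Qt hI)) * opv hI hS hL l
      = opv hI hS hL l * (tt hI hS hL x y : Module.End K (Qt hI)) := by
  induction l with
  | nil => simp [opv]
  | cons p l ih =>
    have e : (tt hI hS hL x y : Module.End K (Qt hI)) *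
        (tt hI hS hL (mm hI p.1) (mm hI p.2) : Module.End K (Qt hI))
        = (tt hI hS hL (mm hI p.1) (mm hI p.2) : Module.End K (Qt hI)) *
          (tt hI hS hL x y : Module.End K (Qt hI)) := by
      apply LinearMap.ext
      intro z
      exact tt_comm hI hS hL _ _ _ _ _
    rw [opv_cons, ← mul_assoc, e, mul_assoc, ih, mul_assoc]

theorem opv_comm (l l' : List (FreeMagma ℕ × FreeMagma ℕ)) :
    opv hI hS hL l * opv hI hS hL l' = opv hI hS hL l' * opv hI hS hL l := by
  induction l with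
  | nil => simp [opv]
  | cons p l ih =>
    rw [opv_cons, mul_assoc, ih, ← mul_assoc, tt_comm_opv, mul_assoc]

/-- Moving a letter to the first slot. -/
theorem shift (i : ℕ) (u : FreeMagma ℕ) : ∀ v : FreeMagma ℕ, cnt i u ≠ 0 →
    ∃ (c : K) (v' : FreeMagma ℕ),
      (tt hI hS hL (mm hI u) (mm hI v) : Module.End K (Qt hI))
        = c • (tt hI hS hL (mm hI (FreeMagma.of i)) (mm hI v') : Module.End K (Qt hI)) ∧
      ∀ j, cnt j u + cnt j v = (if i = j then 1 else 0) + cnt j v' := by
  induction u with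
  | ih1 x =>
    intro v h
    have hx : x = i := by
      by_contra hne; exact h (by rw [cnt_of, if_neg hne])
    subst hx
    exact ⟨1, v, by rw [one_smul], fun j => by rw [cnt_of]⟩
  | ih2 a b ha hb =>
    intro v h
    rw [cnt_mul] at h
    by_cases h1 : cnt i a = 0
    · obtain ⟨c, v', e, hc⟩ := hb (a * v) (by omega)
      refine ⟨-c, v', ?_, fun j => ?_⟩
      · have e2 : (tt hI hS hL (mm hI (a * b)) (mm hI v) : Module.End K (Qt hI))
            = -(tt hI hS hL (mm hI b) (mm hI (a * v)) : Module.End K (Qt hI)) := by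
          apply LinearMap.ext
          intro z
          rw [mm_swap hI hS, map_neg, mm_mul, mm_mul]
          change -(tt hI hS hL (mm hI b * mm hI a) (mm hI v) z) = _
          rw [tt_w4]; rfl
        rw [e2, e, neg_smul]
      · have := hc j
        rw [cnt_mul] at this ⊢
        omega
    · obtain ⟨c, v', e, hc⟩ := ha (b * v) h1
      refine ⟨c, v', ?_, fun j => ?_⟩
      · have e2 : (tt hI hS hL (mm hI (a * b)) (mm hI v) : Module.End K (Qt hI))
            = (tt hI hS hL (mm hI a) (mm hI (b * v)) : Module.End K (Qt hI)) := by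
          apply LinearMap.ext
          intro z
          rw [mm_mul, mm_mul, tt_w4]
        rw [e2, e]
      · have := hc j
        rw [cnt_mul] at this ⊢
        omega

/-- Turn a list of letters and words into a list of pairs of words. -/
def act (l : List (ℕ × FreeMagma ℕ)) : List (FreeMagma ℕ × FreeMagma ℕ) :=
  l.map fun p => (FreeMagma.of p.1, p.2)

theorem sum_range_cnt_le (m : FreeMagma ℕ) (k : ℕ) : ∑ i ∈ Finset.range k, cnt i m ≤ m.length :=
  sum_cnt_le m _

/-- Separating the factors which contain one of the letters `< k`. -/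
theorem separate (k : ℕ) (l : List (FreeMagma ℕ × FreeMagma ℕ)) (hl : Short l) :
    ∃ (c : K) (a : List (ℕ × FreeMagma ℕ)) (l' : List (FreeMagma ℕ × FreeMagma ℕ)),
      opv hI hS hL l = c • (opv hI hS hL (act a) * opv hI hS hL l') ∧
      (∀ p ∈ a, p.1 < k) ∧ (∀ i, conL (act a) i + conL l' i = conL l i) ∧
      ∑ i ∈ Finset.range k, conL l i ≤ 12 * a.length := by
  induction l with
  | nil => exact ⟨1, [], [], by simp [act, opv], by simp, fun i => by simp [act, conL],
      by simp [conL]⟩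
  | cons p l ih =>
    obtain ⟨c, a, l', e, ha, hc, hlen⟩ := ih (fun q hq => hl q (by simp [hq]))
    have hp := hl p (by simp)
    have hsum : ∑ i ∈ Finset.range k, conL (p :: l) i
        = ∑ i ∈ Finset.range k, cnt i p.1 + ∑ i ∈ Finset.range k, cnt i p.2
          + ∑ i ∈ Finset.range k, conL l i := by
      simp only [conL_cons, Finset.sum_add_distrib]
    have hs1 := sum_range_cnt_le p.1 k
    have hs2 := sum_range_cnt_le p.2 k
    by_cases h : ∃ i < k, cnt i p.1 + cnt i p.2 ≠ 0
    · obtain ⟨i, hik, hi⟩ := h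
      have key : ∃ (d : K) (v' : FreeMagma ℕ),
          (tt hI hS hL (mm hI p.1) (mm hI p.2) : Module.End K (Qt hI))
            = d • (tt hI hS hL (mm hI (FreeMagma.of i)) (mm hI v') : Module.End K (Qt hI)) ∧
          ∀ j, cnt j p.1 + cnt j p.2 = (if i = j then 1 else 0) + cnt j v' := by
        by_cases h1 : cnt i p.1 = 0
        · obtain ⟨d, v', e1, hc1⟩ := shift hI hS hL i p.2 p.1 (by omega)
          refine ⟨d, v', ?_, fun j => by rw [add_comm]; exact hc1 j⟩
          rw [← e1]
          apply LinearMap.ext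
          intro z
          exact tt_symm hI hS hL _ _ _
        · exact shift hI hS hL i p.1 p.2 h1
      obtain ⟨d, v', e1, hc1⟩ := key
      refine ⟨c * d, (i, v') :: a, l', ?_, ?_, ?_, ?_⟩
      · have e2 : act ((i, v') :: a) = (FreeMagma.of i, v') :: act a := rfl
        rw [opv_cons, e, e1, e2, opv_cons]
        simp only [smul_mul_assoc, mul_smul_comm, smul_smul, mul_assoc]
      · intro q hq
        rcases List.mem_cons.1 hq with rfl | h
        · exact hik
        · exact ha q h
      · intro j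
        have e2 : act ((i, v') :: a) = (FreeMagma.of i, v') :: act a := rfl
        rw [e2, conL_cons, conL_cons, ← hc j, hc1 j, cnt_of]
        simp only
        omega
      · rw [hsum, List.length_cons]
        omega
    · have h' : ∀ i < k, cnt i p.1 + cnt i p.2 = 0 := by
        intro i hi
        by_contra hne
        exact h ⟨i, hi, hne⟩
      refine ⟨c, a, p :: l', ?_, ha, ?_, ?_⟩
      · rw [opv_cons, e, opv_cons, mul_smul_comm, ← mul_assoc, tt_comm_opv, mul_assoc]
      · intro j
        rw [conL_cons, conL_cons, ← hc j]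
        omega
      · have e3 : ∑ i ∈ Finset.range k, cnt i p.1 + ∑ i ∈ Finset.range k, cnt i p.2 = 0 := by
          rw [← Finset.sum_add_distrib]
          exact Finset.sum_eq_zero fun i hi => h' i (Finset.mem_range.1 hi)
        rw [hsum, e3]
        omega

end rn

section alt

variable {K : Type u} [Field K] [CharZero K] {I : Submodule K (FA K)} (hI : IsTIdeal K I)
  (hS : ∀ f ∈ S0 K, f ∈ I) (hL : Lin I)

/-- The renaming attached to a permutation. -/
def pmf {k : ℕ} (σ : Equiv.Perm (Fin k)) (j : ℕ) : ℕ :=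
  if h : j < k then (σ ⟨j, h⟩ : ℕ) else j

theorem pmf_lt {k : ℕ} (σ : Equiv.Perm (Fin k)) (j : Fin k) : pmf σ (j : ℕ) = σ j := by
  rw [pmf, dif_pos j.2]

theorem pmf_mul {k : ℕ} (σ τ : Equiv.Perm (Fin k)) (j : ℕ) :
    pmf σ (pmf τ j) = pmf (σ * τ) j := by
  by_cases h : j < k
  · have e : pmf τ j = (τ ⟨j, h⟩ : ℕ) := by rw [pmf, dif_pos h]
    have e2 : pmf (σ * τ) j = ((σ * τ) ⟨j, h⟩ : ℕ) := by rw [pmf, dif_pos h]
    rw [e, e2, pmf_lt]; rfl
  · have e : ∀ ρ : Equiv.Perm (Fin k), pmf ρ j = j := fun ρ => by rw [pmf, dif_neg h]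
    rw [e, e, e]

/-- Alternation over the first `k` letters. -/
noncomputable def AL (hI : IsTIdeal K I) (k : ℕ) : Qt hI →ₗ[K] Qt hI :=
  ∑ σ : Equiv.Perm (Fin k), (Equiv.Perm.sign σ : ℤ) •
    ((rn hI (pmf σ) : Qt hI →ₙₐ[K] Qt hI) : Qt hI →ₗ[K] Qt hI)

theorem AL_apply (k : ℕ) (x : Qt hI) : AL hI k x =
    ∑ σ : Equiv.Perm (Fin k), (Equiv.Perm.sign σ : ℤ) • rn hI (pmf σ) x := by
  rw [AL, LinearMap.sum_apply]; rfl

theorem AL_rn {k : ℕ} (τ : Equiv.Perm (Fin k)) (x : Qt hI) :
    AL hI k (rn hI (pmf τ) x) = (Equiv.Perm.sign τ : ℤ) • AL hI k x := by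
  have h : ∀ σ : Equiv.Perm (Fin k), rn hI (pmf σ) (rn hI (pmf τ) x) = rn hI (pmf (σ * τ)) x := by
    intro σ
    rw [rn_rn]
    congr 1
    have : (fun j => pmf σ (pmf τ j)) = pmf (σ * τ) := funext (pmf_mul σ τ)
    rw [this]
  rw [AL_apply, AL_apply, Finset.smul_sum, ← Equiv.sum_comp (Equiv.mulRight τ)
    (fun σ => (Equiv.Perm.sign τ : ℤ) • (Equiv.Perm.sign σ : ℤ) • rn hI (pmf σ) x)]
  refine Finset.sum_congr rfl fun σ _ => ?_
  rw [h, Equiv.coe_mulRight, map_mul, smul_smul]
  congr 1
  push_cast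
  have h2 : (Equiv.Perm.sign τ : ℤ) * (Equiv.Perm.sign τ : ℤ) = 1 := by
    rw [← Units.val_mul, Int.units_mul_self]; rfl
  linear_combination (-(Equiv.Perm.sign σ : ℤ)) * h2

/-- The Capelli identity for the operators. -/
def CapH (hI : IsTIdeal K I) (hS : ∀ f ∈ S0 K, f ∈ I) (hL : Lin I) (n : ℕ) : Prop :=
  ∀ (z v : Fin n → Qt hI) (a b : Qt hI), ∑ σ : Equiv.Perm (Fin n), (Equiv.Perm.sign σ : ℤ) •
    (List.ofFn fun j => (tt hI hS hL (z (σ j)) (v j) : Module.End K (Qt hI))).prod (a * b) = 0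

theorem AL_core {n k : ℕ} (hC : CapH hI hS hL n) (g : Fin n → ℕ × FreeMagma ℕ)
    (l' : List (FreeMagma ℕ × FreeMagma ℕ)) (b : FreeMagma ℕ) (hb : 2 ≤ b.length)
    (hg : ∀ j, (g j).1 < k)
    (hc : ∀ i < k, conL (act (List.ofFn g)) i + conL l' i + cnt i b ≤ 1) :
    AL hI k (opv hI hS hL (act (List.ofFn g)) (opv hI hS hL l' (mm hI b))) = 0 := by
  have hcon : ∀ i, conL (act (List.ofFn g)) i
      = ∑ j, ((if (g j).1 = i then 1 else 0) + cnt i (g j).2) := by
    intro i
    rw [conL, act, List.map_map, List.map_ofFn, List.sum_ofFn]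
    rfl
  have hj : ∀ j, ∑ j', ((if (g j').1 = (g j).1 then 1 else 0) + cnt (g j).1 (g j').2)
      + conL l' (g j).1 + cnt (g j).1 b ≤ 1 := by
    intro j
    rw [← hcon]; exact hc _ (hg j)
  have hsplit : ∀ j, ∑ j', ((if (g j').1 = (g j).1 then 1 else 0) + cnt (g j).1 (g j').2)
      = ∑ j', (if (g j').1 = (g j).1 then 1 else 0) + ∑ j', cnt (g j).1 (g j').2 :=
    fun j => Finset.sum_add_distrib
  have hone : ∀ j, 1 ≤ ∑ j', (if (g j').1 = (g j).1 then 1 else 0) := by
    intro j
    have := Finset.single_le_sum (f := fun j' => if (g j').1 = (g j).1 then 1 else 0)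
      (fun j' _ => Nat.zero_le _) (Finset.mem_univ j)
    simpa using this
  have hinj : ∀ j j', (g j').1 = (g j).1 → j' = j := by
    intro j j' h
    by_contra hne
    have h1 := hj j
    rw [hsplit] at h1
    have h2 : ∑ j'' ∈ {j, j'}, (if (g j'').1 = (g j).1 then 1 else 0)
        ≤ ∑ j'', (if (g j'').1 = (g j).1 then 1 else 0) :=
      Finset.sum_le_sum_of_subset (Finset.subset_univ _)
    rw [Finset.sum_pair (Ne.symm hne), if_pos rfl, if_pos h] at h2
    omega
  have hz1 : ∀ j j', cnt (g j).1 (g j').2 = 0 := by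
    intro j j'
    have h1 := hj j
    have h2 := hone j
    have h3 : cnt (g j).1 (g j').2 ≤ ∑ j', cnt (g j).1 (g j').2 :=
      Finset.single_le_sum (f := fun j' => cnt (g j).1 (g j').2)
      (fun j' _ => Nat.zero_le _) (Finset.mem_univ j')
    rw [hsplit] at h1
    omega
  have hz2 : ∀ j, conL l' (g j).1 = 0 := by
    intro j
    have h1 := hj j
    have h2 := hone j
    rw [hsplit] at h1
    omega
  have hz3 : ∀ j, cnt (g j).1 b = 0 := by
    intro j
    have h1 := hj j
    have h2 := hone j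
    rw [hsplit] at h1
    omega
  let e : Fin n ↪ Fin k := ⟨fun j => ⟨(g j).1, hg j⟩, fun j j' h => by
    have := congrArg Fin.val h
    exact hinj j' j this⟩
  set z := opv hI hS hL (act (List.ofFn g)) (opv hI hS hL l' (mm hI b)) with hz
  have key : ∀ τ : Equiv.Perm (Fin n), rn hI (pmf (τ.viaFintypeEmbedding e)) z
      = (List.ofFn fun j => (tt hI hS hL (mm hI (FreeMagma.of (g (τ j)).1)) (mm hI (g j).2) :
        Module.End K (Qt hI))).prod (opv hI hS hL l' (mm hI b)) := by
    intro τ
    set s := pmf (τ.viaFintypeEmbedding e) with hs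
    have hs1 : ∀ j, s (g j).1 = (g (τ j)).1 := by
      intro j
      have : ((g j).1) = ((e j : Fin k) : ℕ) := rfl
      rw [this, hs, pmf_lt, Equiv.Perm.viaFintypeEmbedding_apply_image]
      rfl
    have hs2 : ∀ i, (∀ j, (g j).1 ≠ i) → s i = i := by
      intro i hi
      by_cases hik : i < k
      · have : i = ((⟨i, hik⟩ : Fin k) : ℕ) := rfl
        rw [hs]
        nth_rewrite 1 [this]
        rw [pmf_lt, Equiv.Perm.viaFintypeEmbedding_apply_notMem_range]
        rintro ⟨j, hj⟩
        exact hi j (congrArg Fin.val hj)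
      · rw [hs, pmf, dif_neg hik]
    have hs3 : ∀ i, (∀ j, i ≠ (g j).1) → s i = i := fun i hi => hs2 i (fun j => (hi j).symm)
    have r1 : rename s b = b := by
      apply rename_eq_self
      intro i hi
      apply hs3
      rintro j rfl
      exact hi (hz3 j)
    have r2 : rnL s l' = l' := by
      apply rnL_eq_self
      intro i hi
      apply hs3
      rintro j rfl
      exact hi (hz2 j)
    have r3 : ∀ j, rename s (g j).2 = (g j).2 := by
      intro j
      apply rename_eq_self
      intro i hi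
      apply hs3
      rintro j' rfl
      exact hi (hz1 j' j)
    have e9 : rnL s (act (List.ofFn g))
        = List.ofFn fun j => (FreeMagma.of (g (τ j)).1, (g j).2) := by
      rw [rnL, act, List.map_map, List.map_ofFn]
      congr 1
      funext j
      simp only [Function.comp_apply, rename_of, hs1, r3]
    have e10 : opv hI hS hL (List.ofFn fun j => (FreeMagma.of (g (τ j)).1, (g j).2))
        = (List.ofFn fun j => (tt hI hS hL (mm hI (FreeMagma.of (g (τ j)).1)) (mm hI (g j).2) :
          Module.End K (Qt hI))).prod := by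
      rw [opv, List.map_ofFn]; rfl
    rw [hz, rn_opv, rn_opv, rn_mm, r1, r2, e9, e10]
  have hsum : ∑ τ : Equiv.Perm (Fin n), (Equiv.Perm.sign τ : ℤ) •
      rn hI (pmf (τ.viaFintypeEmbedding e)) z = 0 := by
    simp only [key]
    obtain ⟨b₁, b₂, rfl⟩ := exists_mul hb
    have h1 : ∀ τ : Equiv.Perm (Fin n),
        (List.ofFn fun j => (tt hI hS hL (mm hI (FreeMagma.of (g (τ j)).1)) (mm hI (g j).2) :
          Module.End K (Qt hI))).prod
        = opv hI hS hL (List.ofFn fun j => (FreeMagma.of (g (τ j)).1, (g j).2)) := by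
      intro τ
      rw [opv, List.map_ofFn]; rfl
    have h2 : ∀ τ : Equiv.Perm (Fin n),
        (List.ofFn fun j => (tt hI hS hL (mm hI (FreeMagma.of (g (τ j)).1)) (mm hI (g j).2) :
          Module.End K (Qt hI))).prod (opv hI hS hL l' (mm hI (b₁ * b₂)))
        = opv hI hS hL l' ((List.ofFn fun j => (tt hI hS hL (mm hI (FreeMagma.of (g (τ j)).1))
          (mm hI (g j).2) : Module.End K (Qt hI))).prod (mm hI b₁ * mm hI b₂)) := by
      intro τ
      rw [h1, ← Module.End.mul_apply, opv_comm, Module.End.mul_apply, mm_mul]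
    have h5 := congrArg (opv hI hS hL l') (hC (fun j => mm hI (FreeMagma.of (g j).1))
      (fun j => mm hI (g j).2) (mm hI b₁) (mm hI b₂))
    rw [map_zero, map_sum] at h5
    rw [← h5]
    refine Finset.sum_congr rfl fun τ _ => ?_
    rw [h2, map_zsmul]
  have h3 : ∀ τ : Equiv.Perm (Fin n), (Equiv.Perm.sign τ : ℤ) •
      AL hI k (rn hI (pmf (τ.viaFintypeEmbedding e)) z) = AL hI k z := by
    intro τ
    rw [AL_rn, Equiv.Perm.viaFintypeEmbedding_sign, smul_smul]
    have h2 : (Equiv.Perm.sign τ : ℤ) * (Equiv.Perm.sign τ : ℤ) = 1 := by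
      rw [← Units.val_mul, Int.units_mul_self]; rfl
    rw [h2, one_smul]
  have h4 := congrArg (AL hI k) hsum
  rw [map_sum, map_zero] at h4
  simp only [map_zsmul, h3] at h4
  rw [Finset.sum_const, Finset.card_univ, ← Nat.cast_smul_eq_nsmul K] at h4
  rcases smul_eq_zero.1 h4 with h | h
  · exact absurd h (Nat.cast_ne_zero.2 Fintype.card_ne_zero)
  · exact h

theorem AL_mm {n k : ℕ} (hC : CapH hI hS hL n) (hk : 12 * n + 6 < k + 12) (m : FreeMagma ℕ)
    (hm : ∀ i < k, cnt i m = 1) (hl : 2 ≤ m.length) : AL hI k (mm hI m) = 0 := by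
  have h := mm_mem_NFS hI hS hL _ m hl le_rfl
  refine Submodule.span_induction (p := fun z _ => AL hI k z = 0) ?_ ?_ ?_ ?_ h
  · rintro _ ⟨l, b, rfl, hl, hb, hb', hcc⟩
    have hcc' : ∀ i, conL l i + cnt i b = cnt i m := hcc
    obtain ⟨c, a, l', e, ha, hc, hlen⟩ := separate hI hS hL k l hl
    have h1 : ∑ i ∈ Finset.range k, (conL l i + cnt i b) = k := by
      rw [Finset.sum_congr rfl (fun i hi => by
        rw [hcc' i, hm i (Finset.mem_range.1 hi)] : ∀ i ∈ Finset.range k, _ = 1)]
      simp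
    rw [Finset.sum_add_distrib] at h1
    have h2 := sum_range_cnt_le b k
    have h3 : n ≤ a.length := by omega
    obtain ⟨a₁, a₂, rfl, ha₁⟩ : ∃ a₁ a₂, a = a₁ ++ a₂ ∧ a₁.length = n :=
      ⟨a.take n, a.drop n, (List.take_append_drop n a).symm, List.length_take_of_le h3⟩
    subst ha₁
    have e4 : act (a₁ ++ a₂) = act a₁ ++ act a₂ := by rw [act, List.map_append]; rfl
    rw [e, LinearMap.smul_apply, map_smul, e4, opv_append, mul_assoc, ← opv_append,
      Module.End.mul_apply]
    have h5 := AL_core hI hS hL (k := k) hC a₁.get (act a₂ ++ l') b hb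
      (fun j => ha _ (List.mem_append_left _ (List.get_mem a₁ j)))
      (fun i hi => by
        have h6 := hc i
        have h7 := hcc' i
        rw [hm i hi] at h7
        rw [e4, conL_append] at h6
        rw [List.ofFn_get, conL_append]
        omega)
    rw [List.ofFn_get] at h5
    rw [h5, smul_zero]
  · exact map_zero _
  · intro x y _ _ hx hy; rw [map_add, hx, hy, add_zero]
  · intro c x _ hx; rw [map_smul, hx, smul_zero]

end alt

section concl

variable {K : Type u} [Field K] [CharZero K]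

theorem alt_of_cap {n : ℕ} (hC : CapH (isTIdeal_T0 K) (S0_T0 K) (lin_of K (isTIdeal_T0 K)) n) :
    Alt K (12 * n + 6) := by
  intro k hk m hm
  have hl : 2 ≤ m.length :=
    length_ge_two (show (0 : ℕ) ≠ 1 by decide) (by rw [hm 0 (by omega)]; omega)
      (by rw [hm 1 (by omega)]; omega)
  have h := AL_mm (isTIdeal_T0 K) (S0_T0 K) (lin_of K (isTIdeal_T0 K)) hC (k := k) (by omega)
    m hm hl
  rw [AL_apply] at h
  rw [← pj_eq_zero (isTIdeal_T0 K), map_sum, ← h]
  refine Finset.sum_congr rfl fun σ _ => ?_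
  rw [map_zsmul, mm, rn_pj]
  congr 3
  congr 1
  funext j
  rw [pmf]
  split_ifs <;> rfl

end concl

end Pool.Agent.Lib.MP_cad252_al.Z
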