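import Mathlib

/-!
Interface between the algebra half and the Grassmann half of the Capelli identity.
-/

namespace Pool.Agent.Lib.MP_cad252_al.Z

/-- Clifford data over a (nonassociative) algebra `F`: operators `l x` and scalars `s x y` on a
module `U` with elements `one` and `iota w`. -/
structure CliffData (K : Type*) (F : Type*) (U : Type*) [Field K] [NonUnitalNonAssocRing F]
    [Module K F] [AddCommGroup U] [Module K U] where
  /-- the Clifford operators -/
  l : F →ₗ[K] Module.End K U
  /-- the scalars -/
  s : F →ₗ[K] F →ₗ[K] Module.End K U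
  /-- the vacuum -/
  one : U
  /-- the vectors -/
  iota : F →ₗ[K] U
  anti : ∀ x y : F, x * y = -(y * x)
  l_one : ∀ x, l x one = iota x
  l_iota : ∀ x w, l x (iota w) = iota (x * w) - s x w one
  s_symm : ∀ x y, s x y = s y x
  s_comm : ∀ x y u v, s x y * s u v = s u v * s x y
  s_l : ∀ x y z, s x y * l z = l z * s x y
  s_w4 : ∀ x y z, s (x * y) z = s x (y * z)
  cliff : ∀ x y, l x * l y + l y * l x = (-2 : K) • s x y
  gen : ∀ V : Submodule K U, one ∈ V → (∀ w, iota w ∈ V) → (∀ x y, ∀ u ∈ V, s x y u ∈ V) → V = ⊤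
  E5 : ∀ a b c d : F, iota (((a * b) * c) * d) = s a c (iota (b * d)) - s b c (iota (a * d))
      + s (b * c) d (iota a) + s (c * a) d (iota b) + s (a * b) d (iota c)
      - s a d (iota (b * c)) - s b d (iota (c * a)) - s c d (iota (a * b))
  V3 : ∀ x y u : F, iota (x * (y * u) + y * (x * u))
      = (-2 : K) • s x y (iota u) + s x u (iota y) + s y u (iota x)

end Pool.Agent.Lib.MP_cad252_al.Z
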