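import Mathlib
import Pool.Agent.Lib.MP_cad252_al.Z.Cliff

/-!
# Grassmann half of the Capelli identity, abstract part

A `Gr K U W N` is a module `W` with anticommuting operators `x i` (`i : Fin N`) and an action `op`
of the endomorphisms of `U` which commutes with them, together with a map `j : U → W`.  For
Clifford data `C` over `F` on `U` and `z : Fin N → F` put `Z = ∑ x i * op (l (z i))`; the main
point is `Z^9 ∘ j = 0`.
-/

set_option linter.unusedSectionVars false

namespace Pool.Agent.Lib.MP_cad252_al.Z.Grass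

/-- Grassmann representation. -/
structure Gr (K U W : Type*) [Field K] [AddCommGroup U] [Module K U] [AddCommGroup W]
    [Module K W] (N : ℕ) where
  /-- the Grassmann variables -/
  x : Fin N → Module.End K W
  /-- operators of `U` -/
  op : Module.End K U →ₐ[K] Module.End K W
  /-- the embedding -/
  j : U →ₗ[K] W
  anti : ∀ i k, x i * x k = -(x k * x i)
  x_op : ∀ i T, x i * op T = op T * x i
  op_j : ∀ T u, op T (j u) = j (T u)

variable {K : Type*} [Field K] {F : Type*} [NonUnitalNonAssocRing F] [Module K F]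
  {U : Type*} [AddCommGroup U] [Module K U] {W : Type*} [AddCommGroup W] [Module K W] {N : ℕ}
  (G : Gr K U W N) (z : Fin N → F)

section Basic

/-- Alternating sums with values in `U`. -/
def A1 (m : F → U) : W := ∑ i, G.x i (G.j (m (z i)))
@[inherit_doc A1]
def A2 (m : F → F → U) : W := ∑ i, G.x i (A1 G z (m (z i)))
@[inherit_doc A1]
def A3 (m : F → F → F → U) : W := ∑ i, G.x i (A2 G z (m (z i)))
@[inherit_doc A1]
def A4 (m : F → F → F → F → U) : W := ∑ i, G.x i (A3 G z (m (z i)))
@[inherit_doc A1]
def A5 (m : F → F → F → F → F → U) : W := ∑ i, G.x i (A4 G z (m (z i)))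

/-- Alternating sums of operators. -/
def O1 (T : F → Module.End K U) : Module.End K W := ∑ i, G.x i * G.op (T (z i))
@[inherit_doc O1]
def O2 (T : F → F → Module.End K U) : Module.End K W := ∑ i, G.x i * O1 G z (T (z i))
@[inherit_doc O1]
def O3 (T : F → F → F → Module.End K U) : Module.End K W := ∑ i, G.x i * O2 G z (T (z i))
@[inherit_doc O1]
def O4 (T : F → F → F → F → Module.End K U) : Module.End K W := ∑ i, G.x i * O3 G z (T (z i))

/-- The basic swap. -/
theorem swap_sum (H : Fin N → Fin N → W) :
    ∑ i, G.x i (∑ j, G.x j (H j i)) = - ∑ i, G.x i (∑ j, G.x j (H i j)) := by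
  have h1 : ∀ H : Fin N → Fin N → W, ∑ i, G.x i (∑ j, G.x j (H i j))
      = ∑ i, ∑ j, (G.x i * G.x j) (H i j) := by
    intro H
    refine Finset.sum_congr rfl fun i _ => ?_
    rw [map_sum]
    rfl
  rw [h1, h1, Finset.sum_comm, ← Finset.sum_neg_distrib]
  refine Finset.sum_congr rfl fun i _ => ?_
  rw [← Finset.sum_neg_distrib]
  refine Finset.sum_congr rfl fun j _ => ?_
  rw [G.anti]
  rfl

theorem A1_add (m n : F → U) :
    A1 G z (fun a => m a + n a) = A1 G z m + A1 G z n := by
  unfold A1
  rw [← Finset.sum_add_distrib]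
  refine Finset.sum_congr rfl fun i _ => ?_
  rw [map_add, map_add]

theorem A1_smul (t : K) (m : F → U) :
    A1 G z (fun a => t • m a) = t • A1 G z m := by
  unfold A1
  rw [Finset.smul_sum]
  refine Finset.sum_congr rfl fun i _ => ?_
  rw [map_smul, map_smul]

theorem A1_neg (m : F → U) : A1 G z (fun a => -m a) = -A1 G z m := by
  have h := A1_smul G z (-1) m
  simp only [neg_smul, one_smul] at h
  exact h

theorem A1_sub (m n : F → U) :
    A1 G z (fun a => m a - n a) = A1 G z m - A1 G z n := by
  have h := A1_add G z m (fun a => -n a)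
  rw [A1_neg] at h
  simp only [← sub_eq_add_neg] at h
  exact h

theorem A2_add (m n : F → F → U) :
    A2 G z (fun a b => m a b + n a b) = A2 G z m + A2 G z n := by
  unfold A2
  rw [← Finset.sum_add_distrib]
  refine Finset.sum_congr rfl fun i _ => ?_
  rw [A1_add, map_add]

theorem A2_smul (t : K) (m : F → F → U) :
    A2 G z (fun a b => t • m a b) = t • A2 G z m := by
  unfold A2
  rw [Finset.smul_sum]
  refine Finset.sum_congr rfl fun i _ => ?_
  rw [A1_smul, map_smul]

theorem A2_neg (m : F → F → U) : A2 G z (fun a b => -m a b) = -A2 G z m := by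
  have h := A2_smul G z (-1) m
  simp only [neg_smul, one_smul] at h
  exact h

theorem A2_sub (m n : F → F → U) :
    A2 G z (fun a b => m a b - n a b) = A2 G z m - A2 G z n := by
  have h := A2_add G z m (fun a b => -n a b)
  rw [A2_neg] at h
  simp only [← sub_eq_add_neg] at h
  exact h

theorem A3_add (m n : F → F → F → U) :
    A3 G z (fun a b c => m a b c + n a b c) = A3 G z m + A3 G z n := by
  unfold A3
  rw [← Finset.sum_add_distrib]
  refine Finset.sum_congr rfl fun i _ => ?_
  rw [A2_add, map_add]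

theorem A3_smul (t : K) (m : F → F → F → U) :
    A3 G z (fun a b c => t • m a b c) = t • A3 G z m := by
  unfold A3
  rw [Finset.smul_sum]
  refine Finset.sum_congr rfl fun i _ => ?_
  rw [A2_smul, map_smul]

theorem A3_neg (m : F → F → F → U) : A3 G z (fun a b c => -m a b c) = -A3 G z m := by
  have h := A3_smul G z (-1) m
  simp only [neg_smul, one_smul] at h
  exact h

theorem A3_sub (m n : F → F → F → U) :
    A3 G z (fun a b c => m a b c - n a b c) = A3 G z m - A3 G z n := by
  have h := A3_add G z m (fun a b c => -n a b c)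
  rw [A3_neg] at h
  simp only [← sub_eq_add_neg] at h
  exact h

theorem A4_add (m n : F → F → F → F → U) :
    A4 G z (fun a b c d => m a b c d + n a b c d) = A4 G z m + A4 G z n := by
  unfold A4
  rw [← Finset.sum_add_distrib]
  refine Finset.sum_congr rfl fun i _ => ?_
  rw [A3_add, map_add]

theorem A4_smul (t : K) (m : F → F → F → F → U) :
    A4 G z (fun a b c d => t • m a b c d) = t • A4 G z m := by
  unfold A4
  rw [Finset.smul_sum]
  refine Finset.sum_congr rfl fun i _ => ?_
  rw [A3_smul, map_smul]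

theorem A4_neg (m : F → F → F → F → U) : A4 G z (fun a b c d => -m a b c d) = -A4 G z m := by
  have h := A4_smul G z (-1) m
  simp only [neg_smul, one_smul] at h
  exact h

theorem A4_sub (m n : F → F → F → F → U) :
    A4 G z (fun a b c d => m a b c d - n a b c d) = A4 G z m - A4 G z n := by
  have h := A4_add G z m (fun a b c d => -n a b c d)
  rw [A4_neg] at h
  simp only [← sub_eq_add_neg] at h
  exact h

theorem A5_add (m n : F → F → F → F → F → U) :
    A5 G z (fun a b c d e => m a b c d e + n a b c d e) = A5 G z m + A5 G z n := by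
  unfold A5
  rw [← Finset.sum_add_distrib]
  refine Finset.sum_congr rfl fun i _ => ?_
  rw [A4_add, map_add]

theorem A5_smul (t : K) (m : F → F → F → F → F → U) :
    A5 G z (fun a b c d e => t • m a b c d e) = t • A5 G z m := by
  unfold A5
  rw [Finset.smul_sum]
  refine Finset.sum_congr rfl fun i _ => ?_
  rw [A4_smul, map_smul]

theorem A5_neg (m : F → F → F → F → F → U) : A5 G z (fun a b c d e => -m a b c d e) = -A5 G z m := by
  have h := A5_smul G z (-1) m
  simp only [neg_smul, one_smul] at h
  exact h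

theorem A5_sub (m n : F → F → F → F → F → U) :
    A5 G z (fun a b c d e => m a b c d e - n a b c d e) = A5 G z m - A5 G z n := by
  have h := A5_add G z m (fun a b c d e => -n a b c d e)
  rw [A5_neg] at h
  simp only [← sub_eq_add_neg] at h
  exact h

theorem A2_sw1 (m : F → F → U) :
    A2 G z (fun a b => m b a) = -A2 G z (fun a b => m a b) :=
  swap_sum G (fun i j => G.j (m (z i) (z j)))

theorem A3_sw1 (m : F → F → F → U) :
    A3 G z (fun a b c => m b a c) = -A3 G z (fun a b c => m a b c) :=
  swap_sum G (fun i j => A1 G z (m (z i) (z j)))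

theorem A3_sw2 (m : F → F → F → U) :
    A3 G z (fun a b c => m a c b) = -A3 G z (fun a b c => m a b c) := by
  unfold A3
  rw [← Finset.sum_neg_distrib]
  refine Finset.sum_congr rfl fun i _ => ?_
  rw [← map_neg, ← A2_sw1 G z (m (z i))]

theorem A4_sw1 (m : F → F → F → F → U) :
    A4 G z (fun a b c d => m b a c d) = -A4 G z (fun a b c d => m a b c d) :=
  swap_sum G (fun i j => A2 G z (m (z i) (z j)))

theorem A4_sw2 (m : F → F → F → F → U) :
    A4 G z (fun a b c d => m a c b d) = -A4 G z (fun a b c d => m a b c d) := by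
  unfold A4
  rw [← Finset.sum_neg_distrib]
  refine Finset.sum_congr rfl fun i _ => ?_
  rw [← map_neg, ← A3_sw1 G z (m (z i))]

theorem A4_sw3 (m : F → F → F → F → U) :
    A4 G z (fun a b c d => m a b d c) = -A4 G z (fun a b c d => m a b c d) := by
  unfold A4
  rw [← Finset.sum_neg_distrib]
  refine Finset.sum_congr rfl fun i _ => ?_
  rw [← map_neg, ← A3_sw2 G z (m (z i))]

theorem A5_sw1 (m : F → F → F → F → F → U) :
    A5 G z (fun a b c d e => m b a c d e) = -A5 G z (fun a b c d e => m a b c d e) :=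
  swap_sum G (fun i j => A3 G z (m (z i) (z j)))

theorem A5_sw2 (m : F → F → F → F → F → U) :
    A5 G z (fun a b c d e => m a c b d e) = -A5 G z (fun a b c d e => m a b c d e) := by
  unfold A5
  rw [← Finset.sum_neg_distrib]
  refine Finset.sum_congr rfl fun i _ => ?_
  rw [← map_neg, ← A4_sw1 G z (m (z i))]

theorem A5_sw3 (m : F → F → F → F → F → U) :
    A5 G z (fun a b c d e => m a b d c e) = -A5 G z (fun a b c d e => m a b c d e) := by
  unfold A5
  rw [← Finset.sum_neg_distrib]
  refine Finset.sum_congr rfl fun i _ => ?_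
  rw [← map_neg, ← A4_sw2 G z (m (z i))]

theorem A5_sw4 (m : F → F → F → F → F → U) :
    A5 G z (fun a b c d e => m a b c e d) = -A5 G z (fun a b c d e => m a b c d e) := by
  unfold A5
  rw [← Finset.sum_neg_distrib]
  refine Finset.sum_congr rfl fun i _ => ?_
  rw [← map_neg, ← A4_sw3 G z (m (z i))]

theorem A4_p4312 (m : F → F → F → F → U) :
    A4 G z (fun a b c d => m d c a b) = -A4 G z (fun a b c d => m a b c d) := by
  have h0 := A4_sw2 G z (fun a b c d => m d b a c)
  have h1 := A4_sw1 G z (fun a b c d => m d a b c)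
  have h2 := A4_sw3 G z (fun a b c d => m c a b d)
  have h3 := A4_sw2 G z (fun a b c d => m b a c d)
  have h4 := A4_sw1 G z (fun a b c d => m a b c d)
  rw [h0, h1, h2, h3, h4]
  simp only [neg_neg]

theorem A4_p4231 (m : F → F → F → F → U) :
    A4 G z (fun a b c d => m d b c a) = -A4 G z (fun a b c d => m a b c d) := by
  have h0 := A4_sw1 G z (fun a b c d => m d a c b)
  have h1 := A4_sw2 G z (fun a b c d => m d a b c)
  have h2 := A4_sw3 G z (fun a b c d => m c a b d)
  have h3 := A4_sw2 G z (fun a b c d => m b a c d)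
  have h4 := A4_sw1 G z (fun a b c d => m a b c d)
  rw [h0, h1, h2, h3, h4]
  simp only [neg_neg]

theorem A4_p4123 (m : F → F → F → F → U) :
    A4 G z (fun a b c d => m d a b c) = -A4 G z (fun a b c d => m a b c d) := by
  have h0 := A4_sw3 G z (fun a b c d => m c a b d)
  have h1 := A4_sw2 G z (fun a b c d => m b a c d)
  have h2 := A4_sw1 G z (fun a b c d => m a b c d)
  rw [h0, h1, h2]
  simp only [neg_neg]

theorem A4_p3214 (m : F → F → F → F → U) :
    A4 G z (fun a b c d => m c b a d) = -A4 G z (fun a b c d => m a b c d) := by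
  have h0 := A4_sw1 G z (fun a b c d => m c a b d)
  have h1 := A4_sw2 G z (fun a b c d => m b a c d)
  have h2 := A4_sw1 G z (fun a b c d => m a b c d)
  rw [h0, h1, h2]
  simp only [neg_neg]

theorem A4_p1324 (m : F → F → F → F → U) :
    A4 G z (fun a b c d => m a c b d) = -A4 G z (fun a b c d => m a b c d) := by
  have h0 := A4_sw2 G z (fun a b c d => m a b c d)
  rw [h0]

theorem A4_p1432 (m : F → F → F → F → U) :
    A4 G z (fun a b c d => m a d c b) = -A4 G z (fun a b c d => m a b c d) := by
  have h0 := A4_sw2 G z (fun a b c d => m a d b c)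
  have h1 := A4_sw3 G z (fun a b c d => m a c b d)
  have h2 := A4_sw2 G z (fun a b c d => m a b c d)
  rw [h0, h1, h2]
  simp only [neg_neg]

theorem A4_p1243 (m : F → F → F → F → U) :
    A4 G z (fun a b c d => m a b d c) = -A4 G z (fun a b c d => m a b c d) := by
  have h0 := A4_sw3 G z (fun a b c d => m a b c d)
  rw [h0]

theorem A5_p23451 (m : F → F → F → F → F → U) :
    A5 G z (fun a b c d e => m b c d e a) = A5 G z (fun a b c d e => m a b c d e) := by
  have h0 := A5_sw1 G z (fun a b c d e => m a c d e b)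
  have h1 := A5_sw2 G z (fun a b c d e => m a b d e c)
  have h2 := A5_sw3 G z (fun a b c d e => m a b c e d)
  have h3 := A5_sw4 G z (fun a b c d e => m a b c d e)
  rw [h0, h1, h2, h3]
  simp only [neg_neg]

theorem A5_p31452 (m : F → F → F → F → F → U) :
    A5 G z (fun a b c d e => m c a d e b) = A5 G z (fun a b c d e => m a b c d e) := by
  have h0 := A5_sw2 G z (fun a b c d e => m b a d e c)
  have h1 := A5_sw1 G z (fun a b c d e => m a b d e c)
  have h2 := A5_sw3 G z (fun a b c d e => m a b c e d)
  have h3 := A5_sw4 G z (fun a b c d e => m a b c d e)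
  rw [h0, h1, h2, h3]
  simp only [neg_neg]

theorem A5_p12453 (m : F → F → F → F → F → U) :
    A5 G z (fun a b c d e => m a b d e c) = A5 G z (fun a b c d e => m a b c d e) := by
  have h0 := A5_sw3 G z (fun a b c d e => m a b c e d)
  have h1 := A5_sw4 G z (fun a b c d e => m a b c d e)
  rw [h0, h1]
  simp only [neg_neg]

theorem A5_p14523 (m : F → F → F → F → F → U) :
    A5 G z (fun a b c d e => m a d e b c) = A5 G z (fun a b c d e => m a b c d e) := by
  have h0 := A5_sw3 G z (fun a b c d e => m a c e b d)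
  have h1 := A5_sw2 G z (fun a b c d e => m a b e c d)
  have h2 := A5_sw4 G z (fun a b c d e => m a b d c e)
  have h3 := A5_sw3 G z (fun a b c d e => m a b c d e)
  rw [h0, h1, h2, h3]
  simp only [neg_neg]

theorem A5_p24531 (m : F → F → F → F → F → U) :
    A5 G z (fun a b c d e => m b d e c a) = A5 G z (fun a b c d e => m a b c d e) := by
  have h0 := A5_sw1 G z (fun a b c d e => m a d e c b)
  have h1 := A5_sw2 G z (fun a b c d e => m a d e b c)
  have h2 := A5_sw3 G z (fun a b c d e => m a c e b d)
  have h3 := A5_sw2 G z (fun a b c d e => m a b e c d)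
  have h4 := A5_sw4 G z (fun a b c d e => m a b d c e)
  have h5 := A5_sw3 G z (fun a b c d e => m a b c d e)
  rw [h0, h1, h2, h3, h4, h5]
  simp only [neg_neg]

theorem A5_p34512 (m : F → F → F → F → F → U) :
    A5 G z (fun a b c d e => m c d e a b) = A5 G z (fun a b c d e => m a b c d e) := by
  have h0 := A5_sw2 G z (fun a b c d e => m b d e a c)
  have h1 := A5_sw1 G z (fun a b c d e => m a d e b c)
  have h2 := A5_sw3 G z (fun a b c d e => m a c e b d)
  have h3 := A5_sw2 G z (fun a b c d e => m a b e c d)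
  have h4 := A5_sw4 G z (fun a b c d e => m a b d c e)
  have h5 := A5_sw3 G z (fun a b c d e => m a b c d e)
  rw [h0, h1, h2, h3, h4, h5]
  simp only [neg_neg]

theorem A5_p12354 (m : F → F → F → F → F → U) :
    A5 G z (fun a b c d e => m a b c e d) = -A5 G z (fun a b c d e => m a b c d e) := by
  have h0 := A5_sw4 G z (fun a b c d e => m a b c d e)
  rw [h0]

theorem A5_p45312 (m : F → F → F → F → F → U) :
    A5 G z (fun a b c d e => m d e c a b) = A5 G z (fun a b c d e => m a b c d e) := by
  have h0 := A5_sw2 G z (fun a b c d e => m d e b a c)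
  have h1 := A5_sw1 G z (fun a b c d e => m d e a b c)
  have h2 := A5_sw3 G z (fun a b c d e => m c e a b d)
  have h3 := A5_sw2 G z (fun a b c d e => m b e a c d)
  have h4 := A5_sw1 G z (fun a b c d e => m a e b c d)
  have h5 := A5_sw4 G z (fun a b c d e => m a d b c e)
  have h6 := A5_sw3 G z (fun a b c d e => m a c b d e)
  have h7 := A5_sw2 G z (fun a b c d e => m a b c d e)
  rw [h0, h1, h2, h3, h4, h5, h6, h7]
  simp only [neg_neg]

theorem A5_p32145 (m : F → F → F → F → F → U) :
    A5 G z (fun a b c d e => m c b a d e) = -A5 G z (fun a b c d e => m a b c d e) := by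
  have h0 := A5_sw1 G z (fun a b c d e => m c a b d e)
  have h1 := A5_sw2 G z (fun a b c d e => m b a c d e)
  have h2 := A5_sw1 G z (fun a b c d e => m a b c d e)
  rw [h0, h1, h2]
  simp only [neg_neg]

theorem A5_p13245 (m : F → F → F → F → F → U) :
    A5 G z (fun a b c d e => m a c b d e) = -A5 G z (fun a b c d e => m a b c d e) := by
  have h0 := A5_sw2 G z (fun a b c d e => m a b c d e)
  rw [h0]

end Basic

section Ops

/-- Odd operators. -/
def IsOdd (X : Module.End K W) : Prop := ∀ i, X * G.x i = -(G.x i * X)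

/-- Even operators. -/
def IsEven (X : Module.End K W) : Prop := ∀ i, X * G.x i = G.x i * X

theorem odd_O1 (T : F → Module.End K U) : IsOdd G (O1 G z T) := by
  intro j
  unfold O1
  rw [Finset.sum_mul, Finset.mul_sum, ← Finset.sum_neg_distrib]
  refine Finset.sum_congr rfl fun i _ => ?_
  rw [mul_assoc, ← G.x_op, ← mul_assoc, G.anti, ← mul_assoc, neg_mul]

theorem even_O2 (T : F → F → Module.End K U) : IsEven G (O2 G z T) := by
  intro j
  unfold O2
  rw [Finset.sum_mul, Finset.mul_sum]
  refine Finset.sum_congr rfl fun i _ => ?_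
  rw [mul_assoc, odd_O1 G z (T (z i)) j, mul_neg, ← mul_assoc, G.anti, ← mul_assoc, neg_mul,
    neg_neg]

theorem odd_O3 (T : F → F → F → Module.End K U) : IsOdd G (O3 G z T) := by
  intro j
  unfold O3
  rw [Finset.sum_mul, Finset.mul_sum, ← Finset.sum_neg_distrib]
  refine Finset.sum_congr rfl fun i _ => ?_
  rw [mul_assoc, even_O2 G z (T (z i)) j, ← mul_assoc, G.anti, ← mul_assoc, neg_mul]

theorem comm_O1 (T : F → Module.End K U) (S : Module.End K U) (h : ∀ a, T a * S = S * T a) :
    O1 G z T * G.op S = G.op S * O1 G z T := by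
  unfold O1
  rw [Finset.sum_mul, Finset.mul_sum]
  refine Finset.sum_congr rfl fun i _ => ?_
  rw [mul_assoc, ← map_mul, h, map_mul, ← mul_assoc, G.x_op, mul_assoc]

theorem comm_O2 (T : F → F → Module.End K U) (S : Module.End K U)
    (h : ∀ a b, T a b * S = S * T a b) : O2 G z T * G.op S = G.op S * O2 G z T := by
  unfold O2
  rw [Finset.sum_mul, Finset.mul_sum]
  refine Finset.sum_congr rfl fun i _ => ?_
  rw [mul_assoc, comm_O1 G z _ S (h (z i)), ← mul_assoc, G.x_op, mul_assoc]

theorem comm_O3 (T : F → F → F → Module.End K U) (S : Module.End K U)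
    (h : ∀ a b c, T a b c * S = S * T a b c) : O3 G z T * G.op S = G.op S * O3 G z T := by
  unfold O3
  rw [Finset.sum_mul, Finset.mul_sum]
  refine Finset.sum_congr rfl fun i _ => ?_
  rw [mul_assoc, comm_O2 G z _ S (h (z i)), ← mul_assoc, G.x_op, mul_assoc]

theorem odd_mul_O1 {X : Module.End K W} (hX : IsOdd G X) (T : F → Module.End K U)
    (h : ∀ a, X * G.op (T a) = G.op (T a) * X) : X * O1 G z T = -(O1 G z T * X) := by
  unfold O1
  rw [Finset.mul_sum, Finset.sum_mul, ← Finset.sum_neg_distrib]
  refine Finset.sum_congr rfl fun i _ => ?_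
  rw [← mul_assoc, hX i, neg_mul, mul_assoc, h, mul_assoc]

theorem odd_mul_O2 {X : Module.End K W} (hX : IsOdd G X) (T : F → F → Module.End K U)
    (h : ∀ a b, X * G.op (T a b) = G.op (T a b) * X) : X * O2 G z T = O2 G z T * X := by
  unfold O2
  rw [Finset.mul_sum, Finset.sum_mul]
  refine Finset.sum_congr rfl fun i _ => ?_
  rw [← mul_assoc, hX i, neg_mul, mul_assoc, odd_mul_O1 G z hX _ (h (z i)), mul_neg, neg_neg,
    mul_assoc]

theorem odd_mul_O3 {X : Module.End K W} (hX : IsOdd G X)
    (T : F → F → F → Module.End K U)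
    (h : ∀ a b c, X * G.op (T a b c) = G.op (T a b c) * X) :
    X * O3 G z T = -(O3 G z T * X) := by
  unfold O3
  rw [Finset.mul_sum, Finset.sum_mul, ← Finset.sum_neg_distrib]
  refine Finset.sum_congr rfl fun i _ => ?_
  rw [← mul_assoc, hX i, neg_mul, mul_assoc, odd_mul_O2 G z hX _ (h (z i)), mul_assoc]

theorem odd_mul_O4 {X : Module.End K W} (hX : IsOdd G X)
    (T : F → F → F → F → Module.End K U)
    (h : ∀ a b c d, X * G.op (T a b c d) = G.op (T a b c d) * X) :
    X * O4 G z T = O4 G z T * X := by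
  unfold O4
  rw [Finset.mul_sum, Finset.sum_mul]
  refine Finset.sum_congr rfl fun i _ => ?_
  rw [← mul_assoc, hX i, neg_mul, mul_assoc, odd_mul_O3 G z hX _ (h (z i)), mul_neg, neg_neg,
    mul_assoc]

theorem op_x_apply (S : Module.End K U) (i : Fin N) (w : W) :
    G.op S (G.x i w) = G.x i (G.op S w) := by
  have := congrArg (fun X => X w) (G.x_op i S)
  simp only [Module.End.mul_apply] at this
  exact this.symm

theorem op_A1 (S : Module.End K U) (m : F → U) :
    G.op S (A1 G z m) = A1 G z (fun a => S (m a)) := by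
  unfold A1
  rw [map_sum]
  refine Finset.sum_congr rfl fun i _ => ?_
  rw [op_x_apply, G.op_j]

theorem op_A2 (S : Module.End K U) (m : F → F → U) :
    G.op S (A2 G z m) = A2 G z (fun a b => S (m a b)) := by
  unfold A2
  rw [map_sum]
  refine Finset.sum_congr rfl fun i _ => ?_
  rw [op_x_apply, op_A1]

theorem op_A3 (S : Module.End K U) (m : F → F → F → U) :
    G.op S (A3 G z m) = A3 G z (fun a b c => S (m a b c)) := by
  unfold A3
  rw [map_sum]
  refine Finset.sum_congr rfl fun i _ => ?_
  rw [op_x_apply, op_A2]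

theorem op_A4 (S : Module.End K U) (m : F → F → F → F → U) :
    G.op S (A4 G z m) = A4 G z (fun a b c d => S (m a b c d)) := by
  unfold A4
  rw [map_sum]
  refine Finset.sum_congr rfl fun i _ => ?_
  rw [op_x_apply, op_A3]

theorem O1_A0 (T : F → Module.End K U) (m : U) :
    O1 G z T (G.j m) = A1 G z (fun a  => T a m) := by
  unfold O1 A1
  rw [LinearMap.sum_apply]
  refine Finset.sum_congr rfl fun i _ => ?_
  rw [Module.End.mul_apply, G.op_j]

theorem O1_A1 (T : F → Module.End K U) (m : F → U) :
    O1 G z T (A1 G z m) = A2 G z (fun a b => T a (m b)) := by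
  unfold O1 A2
  rw [LinearMap.sum_apply]
  refine Finset.sum_congr rfl fun i _ => ?_
  rw [Module.End.mul_apply, op_A1]

theorem O1_A2 (T : F → Module.End K U) (m : F → F → U) :
    O1 G z T (A2 G z m) = A3 G z (fun a b c => T a (m b c)) := by
  unfold O1 A3
  rw [LinearMap.sum_apply]
  refine Finset.sum_congr rfl fun i _ => ?_
  rw [Module.End.mul_apply, op_A2]

theorem O1_A3 (T : F → Module.End K U) (m : F → F → F → U) :
    O1 G z T (A3 G z m) = A4 G z (fun a b c d => T a (m b c d)) := by
  unfold O1 A4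
  rw [LinearMap.sum_apply]
  refine Finset.sum_congr rfl fun i _ => ?_
  rw [Module.End.mul_apply, op_A3]

theorem O1_A4 (T : F → Module.End K U) (m : F → F → F → F → U) :
    O1 G z T (A4 G z m) = A5 G z (fun a b c d e => T a (m b c d e)) := by
  unfold O1 A5
  rw [LinearMap.sum_apply]
  refine Finset.sum_congr rfl fun i _ => ?_
  rw [Module.End.mul_apply, op_A4]

theorem O2_A0 (T : F → F → Module.End K U) (m : U) :
    O2 G z T (G.j m) = A2 G z (fun a b  => T a b m) := by
  unfold O2 A2
  rw [LinearMap.sum_apply]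
  refine Finset.sum_congr rfl fun i _ => ?_
  rw [Module.End.mul_apply, O1_A0]

theorem O2_A1 (T : F → F → Module.End K U) (m : F → U) :
    O2 G z T (A1 G z m) = A3 G z (fun a b c => T a b (m c)) := by
  unfold O2 A3
  rw [LinearMap.sum_apply]
  refine Finset.sum_congr rfl fun i _ => ?_
  rw [Module.End.mul_apply, O1_A1]

theorem O2_A2 (T : F → F → Module.End K U) (m : F → F → U) :
    O2 G z T (A2 G z m) = A4 G z (fun a b c d => T a b (m c d)) := by
  unfold O2 A4
  rw [LinearMap.sum_apply]
  refine Finset.sum_congr rfl fun i _ => ?_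
  rw [Module.End.mul_apply, O1_A2]

theorem O3_A0 (T : F → F → F → Module.End K U) (m : U) :
    O3 G z T (G.j m) = A3 G z (fun a b c  => T a b c m) := by
  unfold O3 A3
  rw [LinearMap.sum_apply]
  refine Finset.sum_congr rfl fun i _ => ?_
  rw [Module.End.mul_apply, O2_A0]

theorem O3_A1 (T : F → F → F → Module.End K U) (m : F → U) :
    O3 G z T (A1 G z m) = A4 G z (fun a b c d => T a b c (m d)) := by
  unfold O3 A4
  rw [LinearMap.sum_apply]
  refine Finset.sum_congr rfl fun i _ => ?_
  rw [Module.End.mul_apply, O2_A1]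

theorem O3_A2 (T : F → F → F → Module.End K U) (m : F → F → U) :
    O3 G z T (A2 G z m) = A5 G z (fun a b c d e => T a b c (m d e)) := by
  unfold O3 A5
  rw [LinearMap.sum_apply]
  refine Finset.sum_congr rfl fun i _ => ?_
  rw [Module.End.mul_apply, O2_A2]

theorem O4_A0 (T : F → F → F → F → Module.End K U) (m : U) :
    O4 G z T (G.j m) = A4 G z (fun a b c d  => T a b c d m) := by
  unfold O4 A4
  rw [LinearMap.sum_apply]
  refine Finset.sum_congr rfl fun i _ => ?_
  rw [Module.End.mul_apply, O3_A0]

theorem O4_A1 (T : F → F → F → F → Module.End K U) (m : F → U) :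
    O4 G z T (A1 G z m) = A5 G z (fun a b c d e => T a b c d (m e)) := by
  unfold O4 A5
  rw [LinearMap.sum_apply]
  refine Finset.sum_congr rfl fun i _ => ?_
  rw [Module.End.mul_apply, O3_A1]

end Ops

section Main

theorem zero_of_eq_neg [CharZero K] {M : Type*} [AddCommGroup M] [Module K M] {x : M}
    (h : x = -x) : x = 0 := by
  have h2 : (2 : K) • x = 0 := by
    rw [two_smul]
    nth_rewrite 1 [h]
    exact neg_add_cancel x
  exact (smul_eq_zero.1 h2).resolve_left two_ne_zero

variable (C : CliffData K F U)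

/-- The operator `Z`. -/
def ZZ : Module.End K W := O1 G z fun a => C.l a

/-- The scalar `φ`. -/
def phi : Module.End K W := O3 G z fun a b c => C.s a (b * c)

/-- The scalar `ψ`. -/
def psi : Module.End K W := O4 G z fun a b c d => C.s a (b * (c * d))

/-- The scalar `a_w`. -/
def aw (w : F) : Module.End K W := O1 G z fun a => C.s a w

theorem ZZ_op (x y : F) : ZZ G z C * G.op (C.s x y) = G.op (C.s x y) * ZZ G z C :=
  comm_O1 G z _ _ fun a => (C.s_l x y a).symm

theorem phi_op (x y : F) : phi G z C * G.op (C.s x y) = G.op (C.s x y) * phi G z C :=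
  comm_O3 G z _ _ fun _ _ _ => C.s_comm _ _ _ _

theorem aw_op (w : F) (S : Module.End K U) (h : ∀ a, C.s a w * S = S * C.s a w) :
    aw G z C w * G.op S = G.op S * aw G z C w :=
  comm_O1 G z _ _ h

theorem ZZ_phi : ZZ G z C * phi G z C = -(phi G z C * ZZ G z C) :=
  odd_mul_O3 G z (odd_O1 G z _) _ fun _ _ _ => ZZ_op G z C _ _

theorem ZZ_psi : ZZ G z C * psi G z C = psi G z C * ZZ G z C :=
  odd_mul_O4 G z (odd_O1 G z _) _ fun _ _ _ _ => ZZ_op G z C _ _

theorem phi_psi : phi G z C * psi G z C = psi G z C * phi G z C :=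
  odd_mul_O4 G z (odd_O3 G z _) _ fun _ _ _ _ => phi_op G z C _ _

theorem ZZ_aw (w : F) : ZZ G z C * aw G z C w = -(aw G z C w * ZZ G z C) :=
  odd_mul_O1 G z (odd_O1 G z _) _ fun _ => ZZ_op G z C _ _

theorem phi_phi [CharZero K] : phi G z C * phi G z C = 0 := by
  have h : phi G z C * phi G z C = -(phi G z C * phi G z C) :=
    odd_mul_O3 G z (odd_O3 G z _) _ fun _ _ _ => phi_op G z C _ _
  exact zero_of_eq_neg (K := K) h

/-- The vectors. -/
def v0 : W := G.j C.one
@[inherit_doc v0]
def v1 : W := A1 G z fun a => C.iota a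
@[inherit_doc v0]
def v2 : W := A2 G z fun a b => C.iota (a * b)
@[inherit_doc v0]
def v3 : W := A3 G z fun a b c => C.iota (a * (b * c))
@[inherit_doc v0]
def v4 : W := A4 G z fun a b c d => C.iota (a * (b * (c * d)))

theorem Z_v0 : ZZ G z C (v0 G C) = v1 G z C := by
  unfold ZZ v0 v1
  rw [O1_A0]
  simp only [C.l_one]

variable [CharZero K]

theorem Z_v1 : ZZ G z C (v1 G z C) = v2 G z C := by
  unfold ZZ v1 v2
  rw [O1_A1]
  simp only [C.l_iota]
  rw [A2_sub]
  have h : A2 G z (fun a b => C.s a b C.one) = 0 := by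
    apply zero_of_eq_neg (K := K)
    rw [← A2_sw1 G z (fun a b => C.s a b C.one)]
    congr 1
    funext a b
    rw [C.s_symm]
  rw [h, sub_zero]

theorem Z_v2 : ZZ G z C (v2 G z C) = v3 G z C - phi G z C (v0 G C) := by
  unfold ZZ v2 v3 phi v0
  rw [O1_A2, O3_A0]
  simp only [C.l_iota]
  rw [A3_sub]

theorem Z_v3 : ZZ G z C (v3 G z C) = v4 G z C - psi G z C (v0 G C) := by
  unfold ZZ v3 v4 psi v0
  rw [O1_A3, O4_A0]
  simp only [C.l_iota]
  rw [A4_sub]

/-- The identity `E5`, alternated. -/
theorem v4_eq : v4 G z C = (3 : K) • phi G z C (v1 G z C) := by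
  unfold v4 phi v1
  rw [O3_A1]
  -- alternate
  have h0 : A4 G z (fun a b c d => C.iota (((a * b) * c) * d))
      = A4 G z (fun a b c d => C.s a c (C.iota (b * d)) - C.s b c (C.iota (a * d))
      + C.s (b * c) d (C.iota a) + C.s (c * a) d (C.iota b) + C.s (a * b) d (C.iota c)
      - C.s a d (C.iota (b * c)) - C.s b d (C.iota (c * a)) - C.s c d (C.iota (a * b))) := by
    congr 1
    funext a b c d
    exact C.E5 a b c d
  rw [A4_sub, A4_sub, A4_sub, A4_add, A4_add, A4_add, A4_sub] at h0
  have hl : A4 G z (fun a b c d => C.iota (((a * b) * c) * d))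
      = -A4 G z (fun a b c d => C.iota (a * (b * (c * d)))) := by
    rw [← A4_p4312 G z (fun a b c d => C.iota (a * (b * (c * d))))]
    congr 1
    funext a b c d
    rw [C.anti ((a * b) * c) d, C.anti (a * b) c, mul_neg, neg_neg]
  have n1 : A4 G z (fun a b c d => C.s a c (C.iota (b * d))) = 0 := by
    apply zero_of_eq_neg (K := K)
    rw [← A4_p3214 G z (fun a b c d => C.s a c (C.iota (b * d)))]
    congr 1; funext a b c d; rw [C.s_symm]
  have n2 : A4 G z (fun a b c d => C.s b c (C.iota (a * d))) = 0 := by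
    apply zero_of_eq_neg (K := K)
    rw [← A4_p1324 G z (fun a b c d => C.s b c (C.iota (a * d)))]
    congr 1; funext a b c d; rw [C.s_symm]
  have n6 : A4 G z (fun a b c d => C.s a d (C.iota (b * c))) = 0 := by
    apply zero_of_eq_neg (K := K)
    rw [← A4_p4231 G z (fun a b c d => C.s a d (C.iota (b * c)))]
    congr 1; funext a b c d; rw [C.s_symm]
  have n7 : A4 G z (fun a b c d => C.s b d (C.iota (c * a))) = 0 := by
    apply zero_of_eq_neg (K := K)
    rw [← A4_p1432 G z (fun a b c d => C.s b d (C.iota (c * a)))]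
    congr 1; funext a b c d; rw [C.s_symm]
  have n8 : A4 G z (fun a b c d => C.s c d (C.iota (a * b))) = 0 := by
    apply zero_of_eq_neg (K := K)
    rw [← A4_p1243 G z (fun a b c d => C.s c d (C.iota (a * b)))]
    congr 1; funext a b c d; rw [C.s_symm]
  have n3 : A4 G z (fun a b c d => C.s (b * c) d (C.iota a))
      = -A4 G z (fun a b c d => C.s a (b * c) (C.iota d)) := by
    rw [← A4_p4231 G z (fun a b c d => C.s a (b * c) (C.iota d))]
    congr 1; funext a b c d; rw [C.s_symm]
  have n4 : A4 G z (fun a b c d => C.s (c * a) d (C.iota b))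
      = -A4 G z (fun a b c d => C.s a (b * c) (C.iota d)) := by
    rw [← A4_p4312 G z (fun a b c d => C.s a (b * c) (C.iota d))]
    congr 1; funext a b c d; rw [C.s_symm]
  have n5 : A4 G z (fun a b c d => C.s (a * b) d (C.iota c))
      = -A4 G z (fun a b c d => C.s a (b * c) (C.iota d)) := by
    rw [← A4_p4123 G z (fun a b c d => C.s a (b * c) (C.iota d))]
    congr 1; funext a b c d; rw [C.s_symm]
  rw [hl, n1, n2, n3, n4, n5, n6, n7, n8] at h0
  linear_combination (norm := module) (-1 : K) • h0

theorem theta : A5 G z (fun a b c d e => C.s a (b * (c * (d * e))) C.one) = 0 := by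
  apply zero_of_eq_neg (K := K)
  have h := A5_p45312 G z (fun a b c d e => C.s a (b * (c * (d * e))) C.one)
  have h2 : A5 G z (fun a b c d e => C.s a (b * (c * (d * e))) C.one)
      = A5 G z (fun a b c d e => -(C.s d (e * (c * (a * b))) C.one)) := by
    congr 1
    funext a b c d e
    have e1 : C.s d (e * (c * (a * b))) = - C.s d (e * ((a * b) * c)) := by
      rw [C.anti (a * b) c, mul_neg, map_neg, neg_neg]
    rw [e1, ← C.s_w4 d e, C.s_symm (d * e), C.s_w4 (a * b) c, C.s_w4 a b, LinearMap.neg_apply,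
      neg_neg]
  rw [A5_neg, h] at h2
  exact h2

/-- The identity `E5` in degree five, alternated. -/
theorem E5_5 : A5 G z (fun a b c d e => C.iota (((a * b) * c) * (d * e)))
    = (3 : K) • A5 G z (fun a b c d e => C.s a (b * (c * d)) (C.iota e))
      - (3 : K) • A5 G z (fun a b c d e => C.s a (b * c) (C.iota (d * e))) := by
  have h0 : A5 G z (fun a b c d e => C.iota (((a * b) * c) * (d * e)))
      = A5 G z (fun a b c d e => C.s a c (C.iota (b * (d * e))) - C.s b c (C.iota (a * (d * e)))
      + C.s (b * c) (d * e) (C.iota a) + C.s (c * a) (d * e) (C.iota b)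
      + C.s (a * b) (d * e) (C.iota c)
      - C.s a (d * e) (C.iota (b * c)) - C.s b (d * e) (C.iota (c * a))
      - C.s c (d * e) (C.iota (a * b))) := by
    congr 1
    funext a b c d e
    exact C.E5 a b c (d * e)
  rw [A5_sub, A5_sub, A5_sub, A5_add, A5_add, A5_add, A5_sub] at h0
  have n1 : A5 G z (fun a b c d e => C.s a c (C.iota (b * (d * e)))) = 0 := by
    apply zero_of_eq_neg (K := K)
    rw [← A5_p32145 G z (fun a b c d e => C.s a c (C.iota (b * (d * e))))]
    congr 1; funext a b c d e; rw [C.s_symm]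
  have n2 : A5 G z (fun a b c d e => C.s b c (C.iota (a * (d * e)))) = 0 := by
    apply zero_of_eq_neg (K := K)
    rw [← A5_p13245 G z (fun a b c d e => C.s b c (C.iota (a * (d * e))))]
    congr 1; funext a b c d e; rw [C.s_symm]
  have n3 : A5 G z (fun a b c d e => C.s (b * c) (d * e) (C.iota a))
      = A5 G z (fun a b c d e => C.s a (b * (c * d)) (C.iota e)) := by
    rw [← A5_p23451 G z (fun a b c d e => C.s a (b * (c * d)) (C.iota e))]
    congr 1; funext a b c d e; rw [C.s_w4]
  have n4 : A5 G z (fun a b c d e => C.s (c * a) (d * e) (C.iota b))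
      = A5 G z (fun a b c d e => C.s a (b * (c * d)) (C.iota e)) := by
    rw [← A5_p31452 G z (fun a b c d e => C.s a (b * (c * d)) (C.iota e))]
    congr 1; funext a b c d e; rw [C.s_w4]
  have n5 : A5 G z (fun a b c d e => C.s (a * b) (d * e) (C.iota c))
      = A5 G z (fun a b c d e => C.s a (b * (c * d)) (C.iota e)) := by
    rw [← A5_p12453 G z (fun a b c d e => C.s a (b * (c * d)) (C.iota e))]
    congr 1; funext a b c d e; rw [C.s_w4]
  have n6 : A5 G z (fun a b c d e => C.s a (d * e) (C.iota (b * c)))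
      = A5 G z (fun a b c d e => C.s a (b * c) (C.iota (d * e))) := by
    rw [← A5_p14523 G z (fun a b c d e => C.s a (b * c) (C.iota (d * e)))]
  have n7 : A5 G z (fun a b c d e => C.s b (d * e) (C.iota (c * a)))
      = A5 G z (fun a b c d e => C.s a (b * c) (C.iota (d * e))) := by
    rw [← A5_p24531 G z (fun a b c d e => C.s a (b * c) (C.iota (d * e)))]
  have n8 : A5 G z (fun a b c d e => C.s c (d * e) (C.iota (a * b)))
      = A5 G z (fun a b c d e => C.s a (b * c) (C.iota (d * e))) := by
    rw [← A5_p34512 G z (fun a b c d e => C.s a (b * c) (C.iota (d * e)))]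
  rw [n1, n2, n3, n4, n5, n6, n7, n8] at h0
  rw [h0]
  module

theorem G5_eq : A5 G z (fun a b c d e => C.iota (a * (b * (c * (d * e)))))
    = (-3 : K) • A5 G z (fun a b c d e => C.s a (b * c) (C.iota (d * e))) := by
  have h1 : ZZ G z C (v4 G z C) = A5 G z (fun a b c d e => C.iota (a * (b * (c * (d * e))))) := by
    unfold ZZ v4
    rw [O1_A4]
    simp only [C.l_iota]
    rw [A5_sub, theta, sub_zero]
  have h2 : ZZ G z C (phi G z C (v1 G z C)) = - phi G z C (v2 G z C) := by
    have := congrArg (fun X => X (v1 G z C)) (ZZ_phi G z C)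
    simp only [Module.End.mul_apply, LinearMap.neg_apply] at this
    rw [this, Z_v1]
  have h3 : phi G z C (v2 G z C) = A5 G z (fun a b c d e => C.s a (b * c) (C.iota (d * e))) := by
    unfold phi v2
    rw [O3_A2]
  rw [← h1, v4_eq, map_smul, h2, h3]
  module

theorem psi_v1 : psi G z C (v1 G z C) = phi G z C (v2 G z C) := by
  have hpsi : psi G z C (v1 G z C) = A5 G z (fun a b c d e => C.s a (b * (c * d)) (C.iota e)) := by
    unfold psi v1
    rw [O4_A1]
  have hphi : phi G z C (v2 G z C) = A5 G z (fun a b c d e => C.s a (b * c) (C.iota (d * e))) := by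
    unfold phi v2
    rw [O3_A2]
  have h0 : A5 G z (fun a b c d e => C.iota (((a * b) * c) * (d * e))
        + C.iota (d * (((a * b) * c) * e)))
      = A5 G z (fun a b c d e => (-2 : K) • C.s ((a * b) * c) d (C.iota e)
        + C.s ((a * b) * c) e (C.iota d) + C.s d e (C.iota ((a * b) * c))) := by
    congr 1
    funext a b c d e
    rw [← map_add]
    exact C.V3 ((a * b) * c) d e
  rw [A5_add, A5_add, A5_add, A5_smul, E5_5] at h0
  have m1 : A5 G z (fun a b c d e => C.iota (d * (((a * b) * c) * e)))
      = A5 G z (fun a b c d e => C.iota (a * (b * (c * (d * e))))) := by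
    rw [← A5_p45312 G z (fun a b c d e => C.iota (a * (b * (c * (d * e)))))]
    congr 1; funext a b c d e
    rw [C.anti ((a * b) * c) e, C.anti (a * b) c, mul_neg e, neg_neg]
  have m2 : A5 G z (fun a b c d e => C.s ((a * b) * c) d (C.iota e))
      = A5 G z (fun a b c d e => C.s a (b * (c * d)) (C.iota e)) := by
    congr 1; funext a b c d e
    rw [C.s_w4, C.s_w4]
  have m3 : A5 G z (fun a b c d e => C.s ((a * b) * c) e (C.iota d))
      = -A5 G z (fun a b c d e => C.s a (b * (c * d)) (C.iota e)) := by
    rw [← A5_p12354 G z (fun a b c d e => C.s a (b * (c * d)) (C.iota e))]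
    congr 1; funext a b c d e
    rw [C.s_w4, C.s_w4]
  have m4 : A5 G z (fun a b c d e => C.s d e (C.iota ((a * b) * c))) = 0 := by
    apply zero_of_eq_neg (K := K)
    rw [← A5_p12354 G z (fun a b c d e => C.s d e (C.iota ((a * b) * c)))]
    congr 1; funext a b c d e; rw [C.s_symm]
  rw [m1, m2, m3, m4, G5_eq] at h0
  rw [hpsi, hphi]
  linear_combination (norm := module) (1 / 6 : K) • h0

theorem Z8 : ZZ G z C (ZZ G z C (ZZ G z C (ZZ G z C (ZZ G z C (ZZ G z C (ZZ G z C (ZZ G z C
    (v0 G C)))))))) = 0 := by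
  have hZphi : ∀ w, ZZ G z C (phi G z C w) = - phi G z C (ZZ G z C w) := by
    intro w
    have := congrArg (fun X => X w) (ZZ_phi G z C)
    simpa only [Module.End.mul_apply, LinearMap.neg_apply] using this
  have hZpsi : ∀ w, ZZ G z C (psi G z C w) = psi G z C (ZZ G z C w) := by
    intro w
    have := congrArg (fun X => X w) (ZZ_psi G z C)
    simpa only [Module.End.mul_apply, LinearMap.neg_apply] using this
  have hpp : ∀ w, phi G z C (phi G z C w) = 0 := by
    intro w
    have := congrArg (fun X => X w) (phi_phi G z C)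
    simpa only [Module.End.mul_apply, LinearMap.zero_apply] using this
  have e4 : ZZ G z C (v3 G z C - phi G z C (v0 G C))
      = (4 : K) • phi G z C (v1 G z C) - psi G z C (v0 G C) := by
    rw [map_sub, Z_v3, v4_eq, hZphi, Z_v0]
    module
  have e5 : ZZ G z C ((4 : K) • phi G z C (v1 G z C) - psi G z C (v0 G C))
      = (-5 : K) • phi G z C (v2 G z C) := by
    rw [map_sub, map_smul, hZphi, hZpsi, Z_v0, Z_v1, psi_v1]
    module
  have e6 : ZZ G z C ((-5 : K) • phi G z C (v2 G z C)) = (5 : K) • phi G z C (v3 G z C) := by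
    rw [map_smul, hZphi, Z_v2, map_sub, hpp, sub_zero]
    module
  have e7 : ZZ G z C ((5 : K) • phi G z C (v3 G z C))
      = (5 : K) • phi G z C (psi G z C (v0 G C)) := by
    rw [map_smul, hZphi, Z_v3, v4_eq, map_sub, map_smul, hpp]
    module
  have e8 : ZZ G z C ((5 : K) • phi G z C (psi G z C (v0 G C))) = 0 := by
    rw [map_smul, hZphi, hZpsi, Z_v0, psi_v1, hpp, neg_zero, smul_zero]
  rw [Z_v0, Z_v1, Z_v2, e4, e5, e6, e7, e8]

theorem ZV (w : F) : ZZ G z C * G.op (C.l w)
    = -(G.op (C.l w) * ZZ G z C) - (2 : K) • aw G z C w := by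
  unfold ZZ aw O1
  rw [Finset.sum_mul, Finset.mul_sum, Finset.smul_sum, ← Finset.sum_neg_distrib,
    ← Finset.sum_sub_distrib]
  refine Finset.sum_congr rfl fun i _ => ?_
  have h1 : C.l (z i) * C.l w = (-2 : K) • C.s (z i) w - C.l w * C.l (z i) :=
    eq_sub_of_add_eq (C.cliff (z i) w)
  rw [mul_assoc, ← map_mul, h1, map_sub, map_smul, map_mul, mul_sub, ← mul_assoc, G.x_op,
    mul_smul_comm, mul_assoc]
  module

theorem ZnV (w : F) (n : ℕ) : ZZ G z C ^ (n + 1) * G.op (C.l w)
    = ((-1 : K) ^ (n + 1)) • (G.op (C.l w) * ZZ G z C ^ (n + 1))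
      + ((-1 : K) ^ (n + 1) * (2 * (n + 1))) • (aw G z C w * ZZ G z C ^ n) := by
  induction n with
  | zero =>
    rw [zero_add, pow_one, pow_one, pow_zero, mul_one, ZV]
    push_cast
    module
  | succ n ih =>
    have e1 : ZZ G z C * (G.op (C.l w) * ZZ G z C ^ (n + 1))
        = -(G.op (C.l w) * ZZ G z C ^ (n + 1 + 1)) - (2 : K) • (aw G z C w * ZZ G z C ^ (n + 1)) := by
      rw [← mul_assoc, ZV, sub_mul, neg_mul, mul_assoc, ← pow_succ', smul_mul_assoc]
    have e2 : ZZ G z C * (aw G z C w * ZZ G z C ^ n) = -(aw G z C w * ZZ G z C ^ (n + 1)) := by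
      rw [← mul_assoc, ZZ_aw, neg_mul, mul_assoc, ← pow_succ']
    have e3 : ZZ G z C ^ (n + 1 + 1) * G.op (C.l w)
        = ZZ G z C * (ZZ G z C ^ (n + 1) * G.op (C.l w)) := by
      rw [← mul_assoc, ← pow_succ']
    rw [e3, ih, mul_add, mul_smul_comm, mul_smul_comm, e1, e2]
    push_cast
    module

/-- The product of the `aw`. -/
def pr (L : List F) : Module.End K W := (L.map (aw G z C)).prod

theorem pr_V (L : List F) (w : F) : pr G z C L * G.op (C.l w) = G.op (C.l w) * pr G z C L := by
  induction L with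
  | nil => rw [pr, List.map_nil, List.prod_nil, one_mul, mul_one]
  | cons a L ih =>
    have h : pr G z C (a :: L) = aw G z C a * pr G z C L := by
      rw [pr, List.map_cons, List.prod_cons]; rfl
    rw [h, mul_assoc, ih, ← mul_assoc, aw_op G z C a _ (fun b => C.s_l b a w), mul_assoc]

theorem pr_step (L : List F) (w : F) (n : ℕ)
    (h : ∀ u, pr G z C L ((ZZ G z C ^ (n + 1)) (G.j u)) = 0) (u : U) :
    pr G z C L (aw G z C w ((ZZ G z C ^ n) (G.j u))) = 0 := by
  have h1 := congrArg (fun X => pr G z C L (X (G.j u))) (ZnV G z C w n)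
  simp only [Module.End.mul_apply, LinearMap.add_apply, LinearMap.smul_apply, map_add,
    map_smul] at h1
  rw [G.op_j, h] at h1
  have h2 : pr G z C L (G.op (C.l w) ((ZZ G z C ^ (n + 1)) (G.j u))) = 0 := by
    have := congrArg (fun X => X ((ZZ G z C ^ (n + 1)) (G.j u))) (pr_V G z C L w)
    simp only [Module.End.mul_apply] at this
    rw [this, h, map_zero]
  rw [h2, smul_zero, zero_add] at h1
  have h3 : ((-1 : K) ^ (n + 1) * (2 * ((n : K) + 1))) ≠ 0 := by
    refine mul_ne_zero (pow_ne_zero _ (neg_ne_zero.2 one_ne_zero)) (mul_ne_zero two_ne_zero ?_)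
    exact_mod_cast Nat.succ_ne_zero n
  exact (smul_eq_zero.1 h1.symm).resolve_left h3

theorem Z9 (u : U) : (ZZ G z C ^ 9) (G.j u) = 0 := by
  have h8 : (ZZ G z C ^ 8) (G.j C.one) = 0 := by
    have := Z8 G z C
    unfold v0 at this
    simpa only [pow_succ, pow_zero, one_mul, Module.End.mul_apply] using this
  have h9 : (ZZ G z C ^ 9) (G.j C.one) = 0 := by
    rw [pow_succ', Module.End.mul_apply, h8, map_zero]
  let V : Submodule K U := LinearMap.ker ((ZZ G z C ^ 9) ∘ₗ G.j)
  have hV : V = ⊤ := by
    apply C.gen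
    · exact h9
    · intro w
      have h1 := congrArg (fun X => X (G.j C.one)) (ZnV G z C w 8)
      simp only [Module.End.mul_apply, LinearMap.add_apply, LinearMap.smul_apply] at h1
      rw [G.op_j, C.l_one, h8, h9, map_zero, map_zero, smul_zero, smul_zero, add_zero] at h1
      exact h1
    · intro x y u hu
      have hu' : (ZZ G z C ^ 9) (G.j u) = 0 := hu
      have h1 : Commute (ZZ G z C ^ 9) (G.op (C.s x y)) :=
        Commute.pow_left (ZZ_op G z C x y) 9
      have h2 := congrArg (fun X => X (G.j u)) h1.eq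
      simp only [Module.End.mul_apply] at h2
      rw [G.op_j, hu', map_zero] at h2
      exact h2
  have : u ∈ V := by rw [hV]; trivial
  exact this

theorem pr_zero (L : List F) (n : ℕ) (h : L.length + n = 9) (u : U) :
    pr G z C L ((ZZ G z C ^ n) (G.j u)) = 0 := by
  induction L using List.reverseRecOn generalizing n u with
  | nil =>
    rw [List.length_nil, zero_add] at h
    rw [h, pr, List.map_nil, List.prod_nil, Module.End.one_apply]
    exact Z9 G z C u
  | append_singleton L w ih =>
    rw [List.length_append, List.length_singleton] at h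
    have h1 : pr G z C (L ++ [w]) = pr G z C L * aw G z C w := by
      rw [pr, List.map_append, List.prod_append, List.map_singleton, List.prod_singleton]; rfl
    rw [h1, Module.End.mul_apply]
    exact pr_step G z C L w n (fun u => ih (n + 1) (by omega) u) u

/-- Expansion of the product. -/
theorem pr_expand (n : ℕ) (v : Fin n → F) (u : U) :
    pr G z C (List.ofFn v) (G.j u) = ∑ i : Fin n → Fin N,
      (List.ofFn fun k => G.x (i k)).prod
        (G.j ((List.ofFn fun k => C.s (z (i k)) (v k)).prod u)) := by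
  induction n generalizing u with
  | zero =>
    simp [pr]
  | succ n ih =>
    have h1 : pr G z C (List.ofFn v) = aw G z C (v 0) * pr G z C (List.ofFn fun k => v k.succ) := by
      rw [List.ofFn_succ, pr, List.map_cons, List.prod_cons]; rfl
    rw [h1, Module.End.mul_apply, ih, map_sum]
    rw [← (Fin.consEquiv fun _ : Fin (n + 1) => Fin N).sum_comp, Fintype.sum_prod_type,
      Finset.sum_comm]
    refine Finset.sum_congr rfl fun i _ => ?_
    unfold aw O1
    rw [LinearMap.sum_apply]
    refine Finset.sum_congr rfl fun a _ => ?_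
    have h2 : (List.ofFn fun k => G.x ((Fin.consEquiv fun _ : Fin (n + 1) => Fin N) (a, i) k)).prod
        = G.x a * (List.ofFn fun k => G.x (i k)).prod := by
      rw [List.ofFn_succ, List.prod_cons]; rfl
    have h3 : (List.ofFn fun k => C.s (z ((Fin.consEquiv fun _ : Fin (n + 1) => Fin N) (a, i) k))
        (v k)).prod = C.s (z a) (v 0) * (List.ofFn fun k => C.s (z (i k)) (v k.succ)).prod := by
      rw [List.ofFn_succ, List.prod_cons]; rfl
    rw [h2, h3, Module.End.mul_apply, Module.End.mul_apply, Module.End.mul_apply,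
      ← G.op_j (C.s (z a) (v 0))]
    congr 1
    have h4 : G.op (C.s (z a) (v 0)) * (List.ofFn fun k => G.x (i k)).prod
        = (List.ofFn fun k => G.x (i k)).prod * G.op (C.s (z a) (v 0)) := by
      have : Commute (G.op (C.s (z a) (v 0))) (List.ofFn fun k => G.x (i k)).prod := by
        apply Commute.list_prod_right
        intro y hy
        obtain ⟨k, rfl⟩ := (List.mem_ofFn' _ _).1 hy
        exact (G.x_op _ _).symm
      exact this.eq
    have h5 := congrArg (fun X => X (G.j ((List.ofFn fun k => C.s (z (i k)) (v k.succ)).prod u))) h4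
    simpa only [Module.End.mul_apply] using h5

theorem expand9 (n : ℕ) (hn : n = 9) (v : Fin n → F) (u : U) :
    ∑ i : Fin n → Fin N, (List.ofFn fun k => G.x (i k)).prod
        (G.j ((List.ofFn fun k => C.s (z (i k)) (v k)).prod u)) = 0 := by
  rw [← pr_expand]
  have h := pr_zero G z C (List.ofFn v) 0 (by rw [List.length_ofFn, hn]) u
  rwa [pow_zero, Module.End.one_apply] at h

end Main

end Pool.Agent.Lib.MP_cad252_al.Z.Grass
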