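import Mathlib
import Pool.Agent.Lib.MP_cad252_al.Z.Grass

/-!
# The Capelli identity of degree nine for Clifford data
-/

namespace Pool.Agent.Lib.MP_cad252_al.Z

open TensorProduct Grass

section Concrete

variable (K : Type*) [Field K] (U : Type*) [AddCommGroup U] [Module K U] (N : ℕ)

/-- The Grassmann representation on `Λ ⊗ U`. -/
noncomputable def extGr : Gr K U (ExteriorAlgebra K (Fin N → K) ⊗[K] U) N where
  x i := (LinearMap.mulLeft K (ExteriorAlgebra.ι K (Pi.single i 1))).rTensor U
  op := Module.End.lTensorAlgHom K U (ExteriorAlgebra K (Fin N → K))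
  j := TensorProduct.mk K _ _ 1
  anti i k := by
    refine TensorProduct.ext' fun a u => ?_
    have h : ExteriorAlgebra.ι K (Pi.single i (1 : K)) * ExteriorAlgebra.ι K (Pi.single k (1 : K))
        = -(ExteriorAlgebra.ι K (Pi.single k (1 : K))
            * ExteriorAlgebra.ι K (Pi.single i (1 : K) : Fin N → K)) :=
      eq_neg_of_add_eq_zero_left (ExteriorAlgebra.ι_add_mul_swap _ _)
    rw [LinearMap.neg_apply, Module.End.mul_apply, Module.End.mul_apply,
      LinearMap.rTensor_tmul, LinearMap.rTensor_tmul, LinearMap.rTensor_tmul,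
      LinearMap.rTensor_tmul, LinearMap.mulLeft_apply, LinearMap.mulLeft_apply,
      LinearMap.mulLeft_apply, LinearMap.mulLeft_apply, ← mul_assoc, ← mul_assoc, h, neg_mul,
      TensorProduct.neg_tmul]
  x_op i T := by
    refine TensorProduct.ext' fun a u => ?_
    rfl
  op_j T u := rfl

variable {K U N}

theorem ext_prod {n : ℕ} (i : Fin n → Fin N) (u : U) :
    (List.ofFn fun k => (extGr K U N).x (i k)).prod ((extGr K U N).j u)
      = (ExteriorAlgebra.ιMulti K n fun k => Pi.single (i k) (1 : K)) ⊗ₜ[K] u := by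
  rw [ExteriorAlgebra.ιMulti_apply]
  induction n with
  | zero => rw [List.ofFn_zero, List.ofFn_zero, List.prod_nil, List.prod_nil]; rfl
  | succ n ih =>
    rw [List.ofFn_succ, List.ofFn_succ, List.prod_cons, List.prod_cons, Module.End.mul_apply,
      ih fun k => i k.succ]
    rfl

/-- The functional which reads off the top coefficient. -/
noncomputable def top (K : Type*) [Field K] (N : ℕ) : ExteriorAlgebra K (Fin N → K) →ₗ[K] K :=
  ExteriorAlgebra.liftAlternating (Pi.single N (Pi.basisFun K (Fin N)).det)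

theorem top_apply (i : Fin N → Fin N) :
    top K N (ExteriorAlgebra.ιMulti K N fun k => Pi.single (i k) (1 : K))
      = (Pi.basisFun K (Fin N)).det fun k => Pi.single (i k) (1 : K) := by
  rw [top, ExteriorAlgebra.liftAlternating_apply_ιMulti, Pi.single_eq_same]

theorem top_perm (σ : Equiv.Perm (Fin N)) :
    (Pi.basisFun K (Fin N)).det (fun k => Pi.single (σ k) (1 : K))
      = ((Equiv.Perm.sign σ : ℤ) : K) := by
  have h := (Pi.basisFun K (Fin N)).det.map_perm (fun k => Pi.single k (1 : K)) σ
  have h2 : (fun k => Pi.single k (1 : K)) = (Pi.basisFun K (Fin N) : Fin N → Fin N → K) := by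
    funext k
    rw [Pi.basisFun_apply]
  rw [h2, Module.Basis.det_self] at h
  rw [Function.comp_def] at h
  simp only [Pi.basisFun_apply] at h
  rw [h, Units.smul_def]
  simp

theorem top_noninj (i : Fin N → Fin N) (hi : ¬ Function.Injective i) :
    (Pi.basisFun K (Fin N)).det (fun k => Pi.single (i k) (1 : K)) = 0 := by
  have h0 : ¬ Function.Injective (fun k => (Pi.single (i k) (1 : K) : Fin N → K)) := by
    intro h
    apply hi
    intro a b hab
    apply h
    simp only [hab]
  exact AlternatingMap.map_eq_zero_of_not_injective _ _ h0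

theorem extract (g : (Fin N → Fin N) → U)
    (h : ∑ i : Fin N → Fin N,
      (ExteriorAlgebra.ιMulti K N fun k => (Pi.single (i k) (1 : K) : Fin N → K)) ⊗ₜ[K] g i = 0) :
    ∑ σ : Equiv.Perm (Fin N), (Equiv.Perm.sign σ : ℤ) • g σ = 0 := by
  classical
  have h1 := congrArg ((TensorProduct.lid K U).toLinearMap ∘ₗ (top K N).rTensor U) h
  rw [map_sum, map_zero] at h1
  have h2 : ∀ i : Fin N → Fin N, ((TensorProduct.lid K U).toLinearMap ∘ₗ (top K N).rTensor U)
      ((ExteriorAlgebra.ιMulti K N fun k => Pi.single (i k) (1 : K)) ⊗ₜ[K] g i)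
      = ((Pi.basisFun K (Fin N)).det fun k => Pi.single (i k) (1 : K)) • g i := by
    intro i
    rw [LinearMap.comp_apply, LinearMap.rTensor_tmul, top_apply]
    exact TensorProduct.lid_tmul _ _
  rw [Finset.sum_congr rfl fun i _ => h2 i] at h1
  rw [← h1]
  have h3 : ∀ σ : Equiv.Perm (Fin N), (Equiv.Perm.sign σ : ℤ) • g σ
      = ((Pi.basisFun K (Fin N)).det fun k => Pi.single (σ k) (1 : K)) • g σ := by
    intro σ
    rw [top_perm, Int.cast_smul_eq_zsmul]
  rw [Finset.sum_congr rfl fun σ _ => h3 σ]
  have h4 : ∑ σ : Equiv.Perm (Fin N),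
      ((Pi.basisFun K (Fin N)).det fun k => Pi.single (σ k) (1 : K)) • g σ
      = ∑ i ∈ (Finset.univ : Finset (Equiv.Perm (Fin N))).map
          (⟨fun σ => (σ : Fin N → Fin N), DFunLike.coe_injective⟩ :
            Equiv.Perm (Fin N) ↪ (Fin N → Fin N)),
        ((Pi.basisFun K (Fin N)).det fun k => Pi.single (i k) (1 : K)) • g i := by
    rw [Finset.sum_map]
    rfl
  rw [h4]
  apply Finset.sum_subset (Finset.subset_univ _)
  intro i _ hi
  rw [top_noninj i, zero_smul]
  intro hinj
  apply hi
  rw [Finset.mem_map]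
  exact ⟨Equiv.ofBijective i (Finite.injective_iff_bijective.1 hinj), Finset.mem_univ _, rfl⟩

end Concrete

variable {K : Type*} [Field K] [CharZero K] {F : Type*} [NonUnitalNonAssocRing F] [Module K F]
  {U : Type*} [AddCommGroup U] [Module K U]

theorem CliffData.capelli_gen (C : CliffData K F U) (n : ℕ) (hn : n = 9) (z v : Fin n → F) :
    ∑ σ : Equiv.Perm (Fin n), (Equiv.Perm.sign σ : ℤ) •
      (List.ofFn fun j => C.s (z (σ j)) (v j)).prod = 0 := by
  refine LinearMap.ext fun u => ?_
  have h1 := expand9 (extGr K U n) z C n hn v u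
  simp only [ext_prod] at h1
  have h2 := extract (fun i => (List.ofFn fun k => C.s (z (i k)) (v k)).prod u) h1
  rw [LinearMap.sum_apply, LinearMap.zero_apply, ← h2]
  refine Finset.sum_congr rfl fun σ _ => ?_
  rw [LinearMap.smul_apply]

/-- **The Capelli identity of degree nine.** -/
theorem CliffData.capelli9 (C : CliffData K F U) (z v : Fin 9 → F) :
    ∑ σ : Equiv.Perm (Fin 9), (Equiv.Perm.sign σ : ℤ) •
      (List.ofFn fun j => C.s (z (σ j)) (v j)).prod = 0 :=
  C.capelli_gen 9 rfl z v

end Pool.Agent.Lib.MP_cad252_al.Z
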