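import Mathlib

/-!
# A Capelli type lemma for modules over gl

`E i j` are endomorphisms of a `K`-module which satisfy the commutation relations of the matrix
units.  If `g` is a highest weight vector modulo an invariant subspace `V'` for the letters
`x_0 < ... < x_{n-1}`, does not contain the fresh letters `z_j`, and the determinant
`det (E z_i x_j) g` lies in `V'`, then `∏ (λ_i + n - 1 - i) g` lies in `V'`.
-/

namespace Pool.Agent.Lib.MP_cad252_al.Z.G86

universe u v w

section Capelli

variable {K : Type u} [Field K] {V : Type v} [AddCommGroup V] [Module K V]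

/-- The commutation relations of matrix units. -/
def GLRel (E : ℕ → ℕ → Module.End K V) : Prop :=
  ∀ i j k l, E i j * E k l - E k l * E i j
      = (if j = k then E i l else 0) - (if l = i then E k j else 0)

variable {E : ℕ → ℕ → Module.End K V}

theorem GLRel.comm (hE : GLRel E) {i j k l : ℕ} (h1 : j ≠ k) (h2 : l ≠ i) :
    E i j * E k l = E k l * E i j := by
  have := hE i j k l
  rw [if_neg h1, if_neg h2, sub_zero] at this
  exact sub_eq_zero.1 this

theorem GLRel.comm_apply (hE : GLRel E) (i j k l : ℕ) (v : V) :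
    E i j (E k l v) = E k l (E i j v) + (if j = k then E i l v else 0)
      - (if l = i then E k j v else 0) := by
  have := congrArg (fun T => T v) (hE i j k l)
  simp only [LinearMap.sub_apply, Module.End.mul_apply] at this
  have h3 : (if j = k then E i l else 0 : Module.End K V) v = if j = k then E i l v else 0 := by
    split_ifs <;> rfl
  have h4 : (if l = i then E k j else 0 : Module.End K V) v = if l = i then E k j v else 0 := by
    split_ifs <;> rfl
  rw [h3, h4] at this
  rw [sub_eq_iff_eq_add'.1 this]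
  abel

variable {R : Type w} [CommRing R] {n : ℕ} (φ : R →+* Module.End K V)
  (B : Matrix (Fin n) (Fin n) R)

/-- The determinant of a (generalised) submatrix, acting on `V`. -/
noncomputable def DD {m : ℕ} (z x : Fin m → Fin n) : Module.End K V := φ (B.submatrix z x).det

theorem DD_zero (z x : Fin 0 → Fin n) : DD φ B z x = 1 := by
  unfold DD
  rw [Matrix.det_isEmpty, map_one]

theorem DD_row {m : ℕ} (z x : Fin (m + 1) → Fin n) :
    DD φ B z x = ∑ j : Fin (m + 1), (-1) ^ (j : ℕ) *
      (φ (B (z 0) (x j)) * DD φ B (fun a => z a.succ) (fun b => x (j.succAbove b))) := by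
  unfold DD
  rw [Matrix.det_succ_row_zero, map_sum]
  refine Finset.sum_congr rfl fun j _ => ?_
  rw [map_mul, map_mul, map_pow, map_neg, map_one, mul_assoc]
  rfl

theorem DD_col {m : ℕ} (z x : Fin (m + 1) → Fin n) :
    DD φ B z x = ∑ a : Fin (m + 1), (-1) ^ (a : ℕ) *
      (φ (B (z a) (x 0)) * DD φ B (fun b => z (a.succAbove b)) (fun b => x b.succ)) := by
  unfold DD
  rw [Matrix.det_succ_column_zero, map_sum]
  refine Finset.sum_congr rfl fun j _ => ?_
  rw [map_mul, map_mul, map_pow, map_neg, map_one, mul_assoc]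
  rfl

theorem DD_perm {m : ℕ} (z x : Fin m → Fin n) (τ : Equiv.Perm (Fin m)) :
    DD φ B z (fun b => x (τ b)) = ((Equiv.Perm.sign τ : ℤ) : Module.End K V) * DD φ B z x := by
  unfold DD
  have h : B.submatrix z (fun b => x (τ b)) = (B.submatrix z x).submatrix id τ := rfl
  rw [h, Matrix.det_permute', map_mul]
  congr 1
  simp

theorem DD_commute {m : ℕ} (z x : Fin m → Fin n) (T : Module.End K V)
    (hT : ∀ a b, Commute T (φ (B (z a) (x b)))) : Commute T (DD φ B z x) := by
  induction m with
  | zero => rw [DD_zero]; exact Commute.one_right _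
  | succ m ih =>
    rw [DD_row]
    refine Commute.sum_right _ _ _ fun j _ => ?_
    refine Commute.mul_right ?_ (Commute.mul_right (hT _ _) (ih _ _ fun a b => hT _ _))
    exact (Commute.neg_one_right T).pow_right _

theorem DD_stable {m : ℕ} (z x : Fin m → Fin n) (S : Submodule K V)
    (hS : ∀ a b, ∀ v ∈ S, φ (B (z a) (x b)) v ∈ S) : ∀ v ∈ S, DD φ B z x v ∈ S := by
  induction m with
  | zero => rw [DD_zero]; exact fun v hv => hv
  | succ m ih =>
    intro v hv
    rw [DD_row, LinearMap.sum_apply]
    refine Submodule.sum_mem _ fun j _ => ?_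
    have h1 : φ (B (z 0) (x j)) (DD φ B (fun a => z a.succ) (fun b => x (j.succAbove b)) v) ∈ S :=
      hS _ _ _ (ih _ _ (fun a b => hS _ _) _ hv)
    rcases neg_one_pow_eq_or (Module.End K V) (j : ℕ) with h | h
    · rw [h, one_mul]; exact h1
    · rw [h, neg_one_mul]; exact Submodule.neg_mem _ h1

variable {Z X : Fin n → ℕ}

/-- The key computation. -/
theorem DD_step (hE : GLRel E) (hφ : ∀ a b, φ (B a b) = E (Z a) (X b))
    (hZ : Function.Injective Z) (hX : Function.Injective X) (hZX : ∀ a b, Z a ≠ X b)
    {m : ℕ} (z x : Fin (m + 1) → Fin n) (hz : Function.Injective z) (hx : Function.Injective x)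
    (g : V) (l : K) (hg : E (X (x 0)) (X (x 0)) g = l • g)
    (hg0 : ∀ a, E a (Z (z 0)) g = 0) :
    E (X (x 0)) (Z (z 0)) (DD φ B z x g)
      = (l + m) • DD φ B (fun a => z a.succ) (fun b => x b.succ) g
        + ∑ i : Fin m, (-1 : K) ^ (i.succ : ℕ) •
          DD φ B (fun a => z a.succ) (fun b => x (i.succ.succAbove b))
            (E (X (x 0)) (X (x i.succ)) g) := by
  -- scalar form of the signs
  have hsgn : ∀ (k : ℕ) (T : Module.End K V) (v : V),
      ((-1 : Module.End K V) ^ k * T) v = (-1 : K) ^ k • T v := by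
    intro k T v
    rcases Nat.even_or_odd k with h | h
    · rw [h.neg_one_pow, h.neg_one_pow, one_mul, one_smul]
    · rw [h.neg_one_pow, h.neg_one_pow, neg_one_mul, neg_smul, one_smul]; rfl
  -- (a)
  have ha : ∀ (j : Fin (m + 1)) (a : ℕ),
      E a (Z (z 0)) (DD φ B (fun a => z a.succ) (fun b => x (j.succAbove b)) g) = 0 := by
    intro j
    let S : Submodule K V := ⨅ a : ℕ, LinearMap.ker (E a (Z (z 0)))
    have hS : ∀ v, v ∈ S ↔ ∀ a, E a (Z (z 0)) v = 0 := by
      intro v
      simp only [S, Submodule.mem_iInf, LinearMap.mem_ker]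
    have h1 : DD φ B (fun a => z a.succ) (fun b => x (j.succAbove b)) g ∈ S := by
      refine DD_stable φ B _ _ S (fun a b v hv => ?_) g ((hS g).2 hg0)
      rw [hφ]
      rw [hS] at hv ⊢
      intro c
      rw [hE.comm_apply, hv c, map_zero, if_neg, hv, ite_self]
      · abel
      · intro h
        exact absurd (hz (hZ h)) (Fin.succ_ne_zero a).symm
    exact (hS _).1 h1
  -- (b)
  have hb : ∀ j : Fin (m + 1), E (X (x 0)) (Z (z 0)) (φ (B (z 0) (x j))
      (DD φ B (fun a => z a.succ) (fun b => x (j.succAbove b)) g))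
      = E (X (x 0)) (X (x j)) (DD φ B (fun a => z a.succ) (fun b => x (j.succAbove b)) g) := by
    intro j
    rw [hφ, hE.comm_apply, ha j, map_zero, if_pos rfl, ha j, ite_self, zero_add, sub_zero]
  have h0 : E (X (x 0)) (Z (z 0)) (DD φ B z x g) = ∑ j : Fin (m + 1), (-1 : K) ^ (j : ℕ) •
      E (X (x 0)) (X (x j)) (DD φ B (fun a => z a.succ) (fun b => x (j.succAbove b)) g) := by
    rw [DD_row, LinearMap.sum_apply, map_sum]
    refine Finset.sum_congr rfl fun j _ => ?_
    rw [hsgn, map_smul, Module.End.mul_apply, hb]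
  rw [h0, Fin.sum_univ_succ]
  -- (c)
  have hc : E (X (x 0)) (X (x 0)) (DD φ B (fun a => z a.succ)
      (fun b => x ((0 : Fin (m + 1)).succAbove b)) g)
      = l • DD φ B (fun a => z a.succ) (fun b => x b.succ) g := by
    have h1 : Commute (E (X (x 0)) (X (x 0))) (DD φ B (fun a => z a.succ)
      (fun b => x b.succ)) := by
      refine DD_commute φ B _ _ _ fun a b => ?_
      rw [hφ]
      refine hE.comm (hZX _ _).symm ?_
      intro h
      exact absurd (hx (hX h)) (Fin.succ_ne_zero b)
    have h2 := congrArg (fun T => T g) h1.eq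
    simp only [Module.End.mul_apply] at h2
    simp only [Fin.succAbove_zero]
    rw [h2, hg, map_smul]
  -- (d)
  have hd : ∀ i : Fin m, E (X (x 0)) (X (x i.succ))
      (DD φ B (fun a => z a.succ) (fun b => x (i.succ.succAbove b)) g)
      = DD φ B (fun a => z a.succ) (fun b => x (i.succ.succAbove b))
            (E (X (x 0)) (X (x i.succ)) g)
        - (-1 : K) ^ (i : ℕ) • DD φ B (fun a => z a.succ) (fun b => x b.succ) g := by
    intro i
    cases m with
    | zero => exact i.elim0
    | succ m =>
      have e0 : i.succ.succAbove (0 : Fin (m + 1)) = 0 :=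
        Fin.succAbove_ne_zero_zero (Fin.succ_ne_zero i)
      have hN : ∀ a : Fin (m + 1), Commute (E (X (x 0)) (X (x i.succ)))
          (DD φ B (fun b => z (a.succAbove b).succ) (fun b => x (i.succ.succAbove b.succ))) := by
        intro a
        refine DD_commute φ B _ _ _ fun c b => ?_
        rw [hφ]
        refine hE.comm (hZX _ _).symm ?_
        intro h
        have h2 := hx (hX h)
        rw [← e0] at h2
        exact absurd (Fin.succAbove_right_injective h2) (Fin.succ_ne_zero b)
      have hd1 : DD φ B (fun a => z a.succ) (fun b => x (i.succ.succAbove b)) =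
          ∑ a : Fin (m + 1), (-1) ^ (a : ℕ) * (φ (B (z a.succ) (x 0))
            * DD φ B (fun b => z (a.succAbove b).succ)
              (fun b => x (i.succ.succAbove b.succ))) := by
        rw [DD_col, e0]
      let x' : Fin (m + 1) → Fin n := Fin.cons (x i.succ) fun b => x (i.succ.succAbove b.succ)
      have hd2 : DD φ B (fun a => z a.succ) x' =
          ∑ a : Fin (m + 1), (-1) ^ (a : ℕ) * (φ (B (z a.succ) (x i.succ))
            * DD φ B (fun b => z (a.succAbove b).succ)
              (fun b => x (i.succ.succAbove b.succ))) := by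
        rw [DD_col]
        rfl
      have hd3 : DD φ B (fun a => z a.succ) x' g
          = (-1 : K) ^ (i : ℕ) • DD φ B (fun a => z a.succ) (fun b => x b.succ) g := by
        have h1 : x' = fun b => (fun b : Fin (m + 1) => x b.succ) ((Fin.cycleRange i).symm b) := by
          funext b
          refine Fin.cases ?_ (fun b => ?_) b
          · simp only [x', Fin.cons_zero, Fin.cycleRange_symm_zero]
          · simp only [x', Fin.cons_succ, Fin.cycleRange_symm_succ]
            rw [Fin.succ_succAbove_succ]
        rw [h1]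
        have h2 := DD_perm φ B (fun a => z a.succ) (fun b : Fin (m + 1) => x b.succ)
          (Fin.cycleRange i).symm
        rw [h2]
        have h3 : (((Equiv.Perm.sign (Fin.cycleRange i).symm : ℤˣ) : ℤ) : Module.End K V)
            = (-1) ^ (i : ℕ) := by
          rw [Equiv.Perm.sign_symm, Fin.sign_cycleRange]
          simp
        rw [h3, hsgn]
      rw [← hd3, hd1, hd2, LinearMap.sum_apply, LinearMap.sum_apply, LinearMap.sum_apply, map_sum,
        ← Finset.sum_sub_distrib]
      refine Finset.sum_congr rfl fun a _ => ?_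
      rw [hsgn, hsgn, hsgn, map_smul, ← smul_sub, Module.End.mul_apply, Module.End.mul_apply,
        Module.End.mul_apply]
      congr 1
      have h5 := congrArg (fun T => T g) (hN a).eq
      simp only [Module.End.mul_apply] at h5
      rw [hφ, hφ, hE.comm_apply, if_neg (hZX _ _).symm, if_pos rfl, h5, add_zero]
  rw [hc]
  have he : ∀ i : Fin m, (-1 : K) ^ (i.succ : ℕ) • E (X (x 0)) (X (x i.succ))
      (DD φ B (fun a => z a.succ) (fun b => x (i.succ.succAbove b)) g)
      = (-1 : K) ^ (i.succ : ℕ) • DD φ B (fun a => z a.succ) (fun b => x (i.succ.succAbove b))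
            (E (X (x 0)) (X (x i.succ)) g)
        + DD φ B (fun a => z a.succ) (fun b => x b.succ) g := by
    intro i
    rw [hd, smul_sub, smul_smul, ← pow_add]
    have : (-1 : K) ^ ((i.succ : ℕ) + (i : ℕ)) = -1 := by
      rw [Fin.val_succ]
      exact Odd.neg_one_pow ⟨i, by ring⟩
    rw [this, neg_smul, one_smul, sub_neg_eq_add]
  rw [Finset.sum_congr rfl fun i _ => he i, Finset.sum_add_distrib, Finset.sum_const,
    Finset.card_univ, Fintype.card_fin, add_smul, Fin.val_zero, pow_zero, one_smul]
  have hn : (m : K) • DD φ B (fun a => z a.succ) (fun b => x b.succ) g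
      = m • DD φ B (fun a => z a.succ) (fun b => x b.succ) g := by
    exact Nat.cast_smul_eq_nsmul K m _
  rw [hn]
  abel

/-- The Capelli lemma. -/
theorem capelli (hE : GLRel E) (hφ : ∀ a b, φ (B a b) = E (Z a) (X b))
    (hZ : Function.Injective Z) (hX : Function.Injective X) (hZX : ∀ a b, Z a ≠ X b)
    (V' : Submodule K V) (hV : ∀ i j, ∀ v ∈ V', E i j v ∈ V') :
    ∀ {m : ℕ} (z x : Fin m → Fin n) (_ : Function.Injective z) (_ : Function.Injective x)
    (l : Fin m → K) (g : V) (_ : ∀ i, E (X (x i)) (X (x i)) g = l i • g)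
    (_ : ∀ i j, i < j → E (X (x i)) (X (x j)) g ∈ V')
    (_ : ∀ a, ∀ j, E a (Z (z j)) g = 0) (_ : DD φ B z x g ∈ V'),
    (∏ i : Fin m, (l i + (m - 1 - (i : ℕ) : ℤ))) • g ∈ V' := by
  intro m
  induction m with
  | zero =>
    intro z x _ _ l g _ _ _ h
    rw [DD_zero] at h
    simpa using h
  | succ m ih =>
    intro z x hz hx l g hl hlt hg0 hD
    have h1 := DD_step φ B hE hφ hZ hX hZX z x hz hx g (l 0) (hl 0) (fun a => hg0 a 0)
    have h2 : E (X (x 0)) (Z (z 0)) (DD φ B z x g) ∈ V' := hV _ _ _ hD
    have h3 : ∑ i : Fin m, (-1 : K) ^ (i.succ : ℕ) •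
          DD φ B (fun a => z a.succ) (fun b => x (i.succ.succAbove b))
            (E (X (x 0)) (X (x i.succ)) g) ∈ V' := by
      refine Submodule.sum_mem _ fun i _ => Submodule.smul_mem _ _ ?_
      refine DD_stable φ B _ _ V' (fun a b v hv => ?_) _ (hlt 0 i.succ (Fin.succ_pos i))
      rw [hφ]; exact hV _ _ _ hv
    have h4 : (l 0 + m) • DD φ B (fun a => z a.succ) (fun b => x b.succ) g ∈ V' := by
      rw [h1] at h2
      exact (Submodule.add_mem_iff_left _ h3).1 h2
    have h5 := ih (fun a => z a.succ) (fun b => x b.succ)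
      (fun a b h => Fin.succ_injective _ (hz h)) (fun a b h => Fin.succ_injective _ (hx h))
      (fun i => l i.succ) ((l 0 + m) • g)
      (fun i => by rw [map_smul, hl, smul_comm])
      (fun i j hij => by
        rw [map_smul]
        exact Submodule.smul_mem _ _ (hlt _ _ (Fin.succ_lt_succ_iff.2 hij)))
      (fun a j => by rw [map_smul, hg0, smul_zero])
      (by rw [map_smul]; exact h4)
    rw [Fin.prod_univ_succ]
    rw [smul_smul] at h5
    convert h5 using 2
    rw [mul_comm]
    congr 1
    · refine Finset.prod_congr rfl fun i _ => ?_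
      congr 2
      rw [Fin.val_succ]; push_cast; ring
    · simp

end Capelli

end Pool.Agent.Lib.MP_cad252_al.Z.G86
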