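import Pool.Agent.Lib.MP_cad252_al.Z.TOps
import Pool.Agent.Lib.MP_cad252_al.Z.Cliff

/-!
The octonion-like module attached to a `W`-algebra with operators.
-/

set_option linter.unusedSimpArgs false
set_option linter.unusedSectionVars false

namespace Pool.Agent.Lib.MP_cad252_al.Z

open Pool.Agent.Lib.MP_cad252_al.H89

section defs

variable (K F : Type*) [Field K] [NonUnitalNonAssocRing F] [Module K F] [IsScalarTower K F F]
  [SMulCommClass K F F]

/-- Pairs `(T, X)`. -/
abbrev PP : Type _ := (F →ₗ[K] F →ₗ[K] F) × (F →ₗ[K] F)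

/-- The span of all products. -/
def FSq : Submodule K F := Submodule.span K {w | ∃ a b : F, w = a * b}

variable {K F}

theorem mul_mem_FSq (a b : F) : a * b ∈ FSq K F := Submodule.subset_span ⟨a, b, rfl⟩

theorem PP_ext {u v : PP K F} (h1 : ∀ a b, u.1 a b = v.1 a b) (h2 : ∀ a, u.2 a = v.2 a) :
    u = v :=
  Prod.ext (LinearMap.ext fun a => LinearMap.ext fun b => h1 a b) (LinearMap.ext h2)

/-- An operator acting on pairs. -/
def rho (r : F →ₗ[K] F) : PP K F →ₗ[K] PP K F where
  toFun u := (u.1.compr₂ r, r ∘ₗ u.2)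
  map_add' u v := PP_ext (fun a b => by simp) (fun a => by simp)
  map_smul' c u := PP_ext (fun a b => by simp) (fun a => by simp)

theorem rho_fst (r : F →ₗ[K] F) (u : PP K F) (a b : F) : (rho r u).1 a b = r (u.1 a b) := rfl

theorem rho_snd (r : F →ₗ[K] F) (u : PP K F) (a : F) : (rho r u).2 a = r (u.2 a) := rfl

/-- The function `M`. -/
def Mt (X : F →ₗ[K] F) (x b : F) : F :=
  -(2 / 3 : K) • X (x * b) - (1 / 3 : K) • (x * X b) + (1 / 3 : K) • (b * X x)

/-- The function `S`. -/
def Sf (X : F →ₗ[K] F) (x a b : F) : F :=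
  (1 / 2 : K) • (a * Mt X x b - b * Mt X x a - x * Mt X b a)

/-- The bilinear map `S`. -/
def Sb (x : F) (X : F →ₗ[K] F) : F →ₗ[K] F →ₗ[K] F :=
  LinearMap.mk₂ K (fun a b => Sf X x a b)
    (fun a a' b => by
      simp only [Sf, Mt, map_add, add_mul, mul_add, mul_sub, smul_add, mul_smul_comm]; module)
    (fun c a b => by
      simp only [Sf, Mt, map_smul, smul_mul_assoc, mul_smul_comm, smul_sub, smul_add, mul_add,
        mul_sub]; module)
    (fun a b b' => by
      simp only [Sf, Mt, map_add, add_mul, mul_add, mul_sub, smul_add, mul_smul_comm]; module)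
    (fun c a b => by
      simp only [Sf, Mt, map_smul, smul_mul_assoc, mul_smul_comm, smul_sub, smul_add, mul_add,
        mul_sub]; module)

theorem Sb_apply (x : F) (X : F →ₗ[K] F) (a b : F) : Sb x X a b = Sf X x a b := rfl

/-- Left multiplication by `x` on pairs. -/
def ell (x : F) : PP K F →ₗ[K] PP K F where
  toFun u := (-Sb x u.2, u.1 x - LinearMap.mulLeft K (u.2 x))
  map_add' u v := by
    refine PP_ext (fun a b => ?_) (fun a => ?_)
    · simp only [LinearMap.neg_apply, Sb_apply, Prod.fst_add, Prod.snd_add, LinearMap.add_apply,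
        Sf, Mt, mul_add, mul_sub, add_mul, smul_add]
      module
    · simp only [LinearMap.neg_apply, Prod.fst_add, Prod.snd_add, LinearMap.add_apply,
        LinearMap.sub_apply, LinearMap.mulLeft_apply, add_mul]
      abel
  map_smul' c u := by
    refine PP_ext (fun a b => ?_) (fun a => ?_)
    · simp only [LinearMap.neg_apply, Sb_apply, Prod.smul_fst, Prod.smul_snd,
        LinearMap.smul_apply, RingHom.id_apply,
        Sf, Mt, mul_add, mul_sub, mul_smul_comm, smul_add, smul_sub]
      module
    · simp only [LinearMap.neg_apply, Prod.smul_fst, Prod.smul_snd, LinearMap.smul_apply,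
        LinearMap.sub_apply, LinearMap.mulLeft_apply, smul_mul_assoc, RingHom.id_apply, smul_sub]

theorem ell_fst (x : F) (u : PP K F) (a b : F) : (ell x u).1 a b = -Sf u.2 x a b := rfl

theorem ell_snd (x : F) (u : PP K F) (a : F) : (ell x u).2 a = u.1 x a - u.2 x * a := rfl

variable (K F) in
/-- The unit. -/
def one' : PP K F := (LinearMap.mul K F, 0)

theorem one'_fst (a b : F) : (one' K F).1 a b = a * b := rfl

theorem one'_snd (a : F) : (one' K F).2 a = 0 := rfl

variable (K) in
/-- Vectors. -/
def io' (w : F) : PP K F := (0, LinearMap.mulLeft K w)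

theorem io'_fst (w a b : F) : (io' K w).1 a b = 0 := rfl

theorem io'_snd (w a : F) : (io' K w).2 a = w * a := rfl

theorem ell_one (x : F) : ell x (one' K F) = io' K x := by
  refine PP_ext (fun a b => ?_) (fun a => ?_)
  · simp only [ell_fst, Sf, Mt, one'_snd, io'_fst, smul_zero, mul_zero, sub_zero, add_zero,
      neg_zero]
  · rw [ell_snd, one'_fst, one'_snd, io'_snd, zero_mul, sub_zero]

end defs

section cliff

variable {K F : Type*} [Field K] [CharZero K] [NonUnitalNonAssocRing F] [Module K F]
  [IsScalarTower K F F] [SMulCommClass K F F] {t : F →ₗ[K] F →ₗ[K] F →ₗ[K] F}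

theorem Sf_mulLeft (hA : IsMalcev F) (x w a b : F) :
    Sf (LinearMap.mulLeft K w) x a b = q K x w a b := by
  have h : ∀ x b : F, Mt (LinearMap.mulLeft K w) x b = Me K x b w := by
    intro x b
    have a0 := hA.anticomm
    have e1 : w * (x * b) = -((x * b) * w) := a0 _ _
    have e2 : x * (w * b) = (b * w) * x := by rw [a0 w b, mul_neg, a0 x, neg_neg]
    have e3 : b * (w * x) = -((w * x) * b) := a0 _ _
    simp only [Mt, LinearMap.mulLeft_apply, Me, Jac]
    rw [e1, e2, e3]
    module
  simp only [Sf, h, q]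

theorem ell_io (hA : IsMalcev F) (ht : TOps t) (x w : F) :
    ell x (io' K w) = -(rho (t x w) (one' K F)) + io' K (x * w) := by
  refine PP_ext (fun a b => ?_) (fun a => ?_)
  · rw [ell_fst]
    change -Sf (LinearMap.mulLeft K w) x a b = -(t x w (a * b)) + 0
    rw [Sf_mulLeft hA, ht.mul, add_zero]
  · rw [ell_snd]
    change (0 : F) - w * x * a = -(t x w 0) + x * w * a
    rw [map_zero, hA.anticomm x w, neg_mul]
    abel

theorem FSq_mul (hW : IsW K F) (ht : TOps t) (x y w c : F) (hw : w ∈ FSq K F) :
    t x y w * c = t x y (w * c) := by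
  induction hw using Submodule.span_induction with
  | mem w hw => obtain ⟨a, b, rfl⟩ := hw; rw [ht.mul, ht.mul, hW.w3]
  | zero => simp
  | add a b _ _ ha hb => rw [map_add, add_mul, ha, hb, add_mul, map_add]
  | smul c a _ ha => rw [map_smul, smul_mul_assoc, ha, smul_mul_assoc, map_smul]

theorem mul_FSq (hW : IsW K F) (ht : TOps t) (x y w c : F) (hw : w ∈ FSq K F) :
    c * t x y w = t x y (c * w) := by
  rw [hW.mal.anticomm, FSq_mul hW ht x y w c hw, hW.mal.anticomm c w, map_neg]

theorem t_mem_FSq (ht : TOps t) (x y w : F) (hw : w ∈ FSq K F) : t x y w ∈ FSq K F := by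
  induction hw using Submodule.span_induction with
  | mem w hw =>
    obtain ⟨a, b, rfl⟩ := hw
    rw [ht.mul, q]
    exact Submodule.smul_mem _ _ (Submodule.sub_mem _ (Submodule.sub_mem _
      (mul_mem_FSq _ _) (mul_mem_FSq _ _)) (mul_mem_FSq _ _))
  | zero => rw [map_zero]; exact Submodule.zero_mem _
  | add a b _ _ ha hb => rw [map_add]; exact Submodule.add_mem _ ha hb
  | smul c a _ ha => rw [map_smul]; exact Submodule.smul_mem _ _ ha

variable (t) in
/-- The module of the construction. -/
def UU : Submodule K (PP K F) :=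
  sInf {N | one' K F ∈ N ∧ (∀ w, io' K w ∈ N) ∧ ∀ x y, ∀ u ∈ N, rho (t x y) u ∈ N}

theorem one_mem_UU : one' K F ∈ UU t := Submodule.mem_sInf.2 fun _ hN => hN.1

theorem io_mem_UU (w : F) : io' K w ∈ UU t := Submodule.mem_sInf.2 fun _ hN => hN.2.1 w

theorem rho_mem_UU (x y : F) {u : PP K F} (hu : u ∈ UU t) : rho (t x y) u ∈ UU t :=
  Submodule.mem_sInf.2 fun N hN => hN.2.2 x y u (Submodule.mem_sInf.1 hu N hN)

theorem UU_le {N : Submodule K (PP K F)} (h1 : one' K F ∈ N) (h2 : ∀ w, io' K w ∈ N)
    (h3 : ∀ x y, ∀ u ∈ N, rho (t x y) u ∈ N) : UU t ≤ N := sInf_le ⟨h1, h2, h3⟩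

/-- Values in the square. -/
def GG (K F : Type*) [Field K] [NonUnitalNonAssocRing F] [Module K F] [IsScalarTower K F F]
    [SMulCommClass K F F] : Submodule K (PP K F) where
  carrier := {u | (∀ a b, u.1 a b ∈ FSq K F) ∧ ∀ a, u.2 a ∈ FSq K F}
  add_mem' hu hv := ⟨fun a b => Submodule.add_mem _ (hu.1 a b) (hv.1 a b),
    fun a => Submodule.add_mem _ (hu.2 a) (hv.2 a)⟩
  zero_mem' := ⟨fun _ _ => Submodule.zero_mem _, fun _ => Submodule.zero_mem _⟩
  smul_mem' c _ hu := ⟨fun a b => Submodule.smul_mem _ c (hu.1 a b),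
    fun a => Submodule.smul_mem _ c (hu.2 a)⟩

theorem UU_le_GG (ht : TOps t) : UU t ≤ GG K F := by
  refine UU_le ⟨fun a b => mul_mem_FSq a b, fun a => Submodule.zero_mem _⟩
    (fun w => ⟨fun a b => Submodule.zero_mem _, fun a => mul_mem_FSq w a⟩) ?_
  intro x y u hu
  exact ⟨fun a b => t_mem_FSq ht x y _ (hu.1 a b), fun a => t_mem_FSq ht x y _ (hu.2 a)⟩

theorem ell_rho (hW : IsW K F) (ht : TOps t) (x y z : F) {u : PP K F} (hu : u ∈ GG K F) :
    ell x (rho (t y z) u) = rho (t y z) (ell x u) := by
  refine PP_ext (fun a b => ?_) (fun a => ?_)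
  · rw [ell_fst, rho_fst, ell_fst]
    have hM : ∀ x b, Mt (rho (t y z) u).2 x b = t y z (Mt u.2 x b) := by
      intro x b
      simp only [Mt, rho_snd]
      rw [mul_FSq hW ht y z _ x (hu.2 b), mul_FSq hW ht y z _ b (hu.2 x)]
      simp only [map_add, map_sub, map_smul]
    have hM2 : ∀ x b, Mt u.2 x b ∈ FSq K F := by
      intro x b
      exact Submodule.add_mem _ (Submodule.sub_mem _ (Submodule.smul_mem _ _ (hu.2 _))
        (Submodule.smul_mem _ _ (mul_mem_FSq _ _))) (Submodule.smul_mem _ _ (mul_mem_FSq _ _))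
    simp only [Sf, hM]
    rw [mul_FSq hW ht y z _ a (hM2 _ _), mul_FSq hW ht y z _ b (hM2 _ _),
      mul_FSq hW ht y z _ x (hM2 _ _)]
    simp only [map_neg, map_sub, map_smul]
  · rw [ell_snd, rho_fst, rho_snd, FSq_mul hW ht y z _ a (hu.2 x), rho_snd, ell_snd, map_sub]

theorem rho_rho (ht : TOps t) (x y z w : F) (u : PP K F) :
    rho (t x y) (rho (t z w) u) = rho (t z w) (rho (t x y) u) :=
  PP_ext (fun _ _ => ht.comm _ _ _ _ _) (fun _ => ht.comm _ _ _ _ _)

theorem ell_mem_UU (hW : IsW K F) (ht : TOps t) (x : F) {u : PP K F} (hu : u ∈ UU t) :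
    ell x u ∈ UU t := by
  have h : UU t ≤ UU t ⊓ (UU t).comap (ell x) := by
    refine UU_le ⟨one_mem_UU, ?_⟩ (fun w => ⟨io_mem_UU w, ?_⟩) ?_
    · change ell x (one' K F) ∈ UU t
      rw [ell_one]; exact io_mem_UU x
    · change ell x (io' K w) ∈ UU t
      rw [ell_io hW.mal ht]
      exact Submodule.add_mem _ (Submodule.neg_mem _ (rho_mem_UU _ _ one_mem_UU)) (io_mem_UU _)
    · intro y z u hu
      refine ⟨rho_mem_UU _ _ hu.1, ?_⟩
      change ell x (rho (t y z) u) ∈ UU t
      rw [ell_rho hW ht x y z (UU_le_GG ht hu.1)]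
      exact rho_mem_UU _ _ hu.2
  exact (h hu).2

theorem io_add (x y : F) : io' K (x + y) = io' K x + io' K y :=
  PP_ext (fun a b => by
    change (0 : F) = 0 + 0
    rw [add_zero]) (fun a => add_mul x y a)

theorem v3' (hA : IsMalcev F) (ht : TOps t) (x y u : F) :
    io' K (x * (y * u)) + io' K (y * (x * u)) = -(2 : K) • rho (t x y) (io' K u)
      + rho (t x u) (io' K y) + rho (t y u) (io' K x) := by
  refine PP_ext (fun a b => ?_) (fun a => ?_)
  · change (0 : F) + 0 = -(2 : K) • t x y 0 + t x u 0 + t y u 0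
    simp
  · change x * (y * u) * a + y * (x * u) * a = -(2 : K) • t x y (u * a) + t x u (y * a)
      + t y u (x * a)
    rw [← add_mul, V3 K hA, ht.mul, ht.mul, ht.mul]

theorem e5' (hW : IsW K F) (ht : TOps t) (a b c d : F) :
    io' K (((a * b) * c) * d) = rho (t a c) (io' K (b * d)) - rho (t b c) (io' K (a * d))
    + rho (t (b * c) d) (io' K a) + rho (t (c * a) d) (io' K b) + rho (t (a * b) d) (io' K c)
    - rho (t a d) (io' K (b * c)) - rho (t b d) (io' K (c * a)) - rho (t c d) (io' K (a * b)) := by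
  refine PP_ext (fun x y => ?_) (fun e => ?_)
  · change (0 : F) = t a c 0 - t b c 0 + t (b * c) d 0 + t (c * a) d 0 + t (a * b) d 0
      - t a d 0 - t b d 0 - t c d 0
    simp
  · change ((a * b) * c) * d * e = t a c (b * d * e) - t b c (a * d * e) + t (b * c) d (a * e)
      + t (c * a) d (b * e) + t (a * b) d (c * e) - t a d (b * c * e) - t b d (c * a * e)
      - t c d (a * b * e)
    rw [E5 K hW]
    simp only [ht.mul]

theorem cl' (hW : IsW K F) (ht : TOps t) (x y : F) {u : PP K F} (hu : u ∈ UU t) :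
    ell x (ell y u) + ell y (ell x u) = -(2 : K) • rho (t x y) u := by
  have sy : ∀ x y : F, t x y = t y x := fun x y => LinearMap.ext fun w => ht.symm x y w
  let N : Submodule K (PP K F) :=
    LinearMap.ker (ell x ∘ₗ ell y + ell y ∘ₗ ell x + (2 : K) • rho (t x y))
  have hN : ∀ u, u ∈ N ↔ ell x (ell y u) + ell y (ell x u) + (2 : K) • rho (t x y) u = 0 :=
    fun u => Iff.rfl
  have h : UU t ≤ UU t ⊓ N := by
    refine UU_le ⟨one_mem_UU, ?_⟩ (fun w => ⟨io_mem_UU w, ?_⟩) ?_
    · rw [SetLike.mem_coe, hN, ell_one, ell_one, ell_io hW.mal ht, ell_io hW.mal ht, sy y x,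
        hW.mal.anticomm y x]
      have e : io' K (x * y) + io' K (-(x * y)) = 0 := by
        rw [← io_add, add_neg_cancel]
        exact PP_ext (fun a b => rfl) (fun a => zero_mul a)
      linear_combination (norm := module) e
    · rw [SetLike.mem_coe, hN, ell_io hW.mal ht, ell_io hW.mal ht, map_add, map_add, map_neg,
        map_neg, ell_rho hW ht x y w (UU_le_GG ht one_mem_UU),
        ell_rho hW ht y x w (UU_le_GG ht one_mem_UU), ell_one, ell_one, ell_io hW.mal ht,
        ell_io hW.mal ht]
      have e1 := v3' hW.mal ht x y w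
      have e2 : rho (t x (y * w)) (one' K F) + rho (t y (x * w)) (one' K F) = 0 := by
        have e3 : t x (y * w) = t (x * y) w := LinearMap.ext fun z => (ht.w4 x y w z).symm
        have e4 : t y (x * w) = t (y * x) w := LinearMap.ext fun z => (ht.w4 y x w z).symm
        rw [e3, e4, hW.mal.anticomm y x, map_neg, LinearMap.neg_apply]
        refine PP_ext (fun a b => ?_) (fun a => ?_)
        · change t (x * y) w (a * b) + -(t (x * y) w (a * b)) = 0
          exact add_neg_cancel _
        · change t (x * y) w 0 + -(t (x * y) w 0) = 0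
          exact add_neg_cancel _
      linear_combination (norm := module) e1 - e2
    · intro z w u hu
      refine ⟨rho_mem_UU _ _ hu.1, ?_⟩
      have h1 := (hN u).1 hu.2
      have hg := UU_le_GG ht hu.1
      rw [SetLike.mem_coe, hN, ell_rho hW ht y z w hg, ell_rho hW ht x z w hg,
        ell_rho hW ht x z w (UU_le_GG ht (ell_mem_UU hW ht y hu.1)),
        ell_rho hW ht y z w (UU_le_GG ht (ell_mem_UU hW ht x hu.1)), rho_rho ht x y z w,
        ← map_smul, ← map_add, ← map_add, h1, map_zero]
  have h1 := (hN u).1 (h hu).2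
  linear_combination (norm := module) h1

theorem ell_add (x y : F) (u : PP K F) : ell (x + y) u = ell x u + ell y u := by
  refine PP_ext (fun a b => ?_) (fun a => ?_)
  · change -Sf u.2 (x + y) a b = -Sf u.2 x a b + -Sf u.2 y a b
    simp only [Sf, Mt, map_add, add_mul, mul_add, mul_sub, smul_add, mul_smul_comm]
    module
  · change u.1 (x + y) a - u.2 (x + y) * a = (u.1 x a - u.2 x * a) + (u.1 y a - u.2 y * a)
    rw [map_add, map_add, add_mul, LinearMap.add_apply]
    abel

theorem ell_smul (c : K) (x : F) (u : PP K F) : ell (c • x) u = c • ell x u := by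
  refine PP_ext (fun a b => ?_) (fun a => ?_)
  · change -Sf u.2 (c • x) a b = c • -Sf u.2 x a b
    simp only [Sf, Mt, map_smul, smul_mul_assoc, mul_smul_comm, smul_sub, smul_add, mul_add,
      mul_sub]
    module
  · change u.1 (c • x) a - u.2 (c • x) * a = c • (u.1 x a - u.2 x * a)
    rw [map_smul, map_smul, smul_mul_assoc, LinearMap.smul_apply, smul_sub]

/-- Left multiplication by a fixed element on the module. -/
noncomputable def lU' (hW : IsW K F) (ht : TOps t) (x : F) : Module.End K (UU t) :=
  (ell x).restrict fun _ hu => ell_mem_UU hW ht x hu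

theorem lU'_coe (hW : IsW K F) (ht : TOps t) (x : F) (u : UU t) :
    ((lU' hW ht x u : UU t) : PP K F) = ell x u := rfl

theorem lU'_add (hW : IsW K F) (ht : TOps t) (x y : F) :
    lU' hW ht (x + y) = lU' hW ht x + lU' hW ht y := by
  apply LinearMap.ext; intro u; apply Subtype.ext
  rw [LinearMap.add_apply, Submodule.coe_add, lU'_coe, lU'_coe, lU'_coe, ell_add]

theorem lU'_smul (hW : IsW K F) (ht : TOps t) (c : K) (x : F) :
    lU' hW ht (c • x) = c • lU' hW ht x := by
  apply LinearMap.ext; intro u; apply Subtype.ext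
  rw [LinearMap.smul_apply, Submodule.coe_smul, lU'_coe, lU'_coe, ell_smul]

/-- Left multiplications on the module. -/
noncomputable def lU (hW : IsW K F) (ht : TOps t) : F →ₗ[K] Module.End K (UU t) where
  toFun := lU' hW ht
  map_add' := lU'_add hW ht
  map_smul' := lU'_smul hW ht

variable (t) in
/-- Scalars on the module. -/
noncomputable def sU : F →ₗ[K] F →ₗ[K] Module.End K (UU t) :=
  LinearMap.mk₂ K (fun x y => (rho (t x y)).restrict fun _ hu => rho_mem_UU x y hu)
    (fun x x' y => by
      apply LinearMap.ext; intro u; apply Subtype.ext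
      refine PP_ext (fun a b => ?_) (fun a => ?_)
      · change t (x + x') y _ = t x y _ + t x' y _
        rw [map_add]; rfl
      · change t (x + x') y _ = t x y _ + t x' y _
        rw [map_add]; rfl)
    (fun c x y => by
      apply LinearMap.ext; intro u; apply Subtype.ext
      refine PP_ext (fun a b => ?_) (fun a => ?_)
      · change t (c • x) y _ = c • t x y _
        rw [map_smul]; rfl
      · change t (c • x) y _ = c • t x y _
        rw [map_smul]; rfl)
    (fun x y y' => by
      apply LinearMap.ext; intro u; apply Subtype.ext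
      refine PP_ext (fun a b => ?_) (fun a => ?_)
      · change t x (y + y') _ = t x y _ + t x y' _
        rw [map_add]; rfl
      · change t x (y + y') _ = t x y _ + t x y' _
        rw [map_add]; rfl)
    (fun c x y => by
      apply LinearMap.ext; intro u; apply Subtype.ext
      refine PP_ext (fun a b => ?_) (fun a => ?_)
      · change t x (c • y) _ = c • t x y _
        rw [map_smul]; rfl
      · change t x (c • y) _ = c • t x y _
        rw [map_smul]; rfl)

variable (t) in
/-- The unit of the module. -/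
def oneU : UU t := ⟨one' K F, one_mem_UU⟩

variable (t) in
/-- The vectors of the module. -/
def ioU : F →ₗ[K] UU t where
  toFun w := ⟨io' K w, io_mem_UU w⟩
  map_add' x y := Subtype.ext (io_add x y)
  map_smul' c x := by
    apply Subtype.ext
    refine PP_ext (fun a b => ?_) (fun a => ?_)
    · change (0 : F) = c • 0
      rw [smul_zero]
    · exact smul_mul_assoc c x a

theorem lU_coe (hW : IsW K F) (ht : TOps t) (x : F) (u : UU t) :
    ((lU hW ht x u : UU t) : PP K F) = ell x u := rfl

theorem sU_coe (x y : F) (u : UU t) : ((sU t x y u : UU t) : PP K F) = rho (t x y) u := rfl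

theorem ioU_coe (x : F) : ((ioU t x : UU t) : PP K F) = io' K x := rfl

theorem oneU_coe : ((oneU t : UU t) : PP K F) = one' K F := rfl

/-- The Clifford data attached to a `W`-algebra with operators. -/
noncomputable def cliffData (hW : IsW K F) (ht : TOps t) : CliffData K F (UU t) where
  l := lU hW ht
  s := sU t
  one := oneU t
  iota := ioU t
  anti := hW.mal.anticomm
  l_one x := Subtype.ext (ell_one x)
  l_iota x w := by
    apply Subtype.ext
    have e := ell_io hW.mal ht x w
    change ell x (io' K w) = io' K (x * w) - rho (t x w) (one' K F)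
    rw [e]; abel
  cliff x y := by
    apply LinearMap.ext; intro u; apply Subtype.ext
    exact cl' hW ht x y u.2
  s_l x y z := by
    apply LinearMap.ext; intro u; apply Subtype.ext
    exact (ell_rho hW ht z x y (UU_le_GG ht u.2)).symm
  s_comm x y z w := by
    apply LinearMap.ext; intro u; apply Subtype.ext
    exact rho_rho ht x y z w u
  s_symm x y := by
    apply LinearMap.ext; intro u; apply Subtype.ext
    exact PP_ext (fun _ _ => ht.symm _ _ _) (fun _ => ht.symm _ _ _)
  s_w4 x y z := by
    apply LinearMap.ext; intro u; apply Subtype.ext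
    exact PP_ext (fun _ _ => ht.w4 _ _ _ _) (fun _ => ht.w4 _ _ _ _)
  E5 a b c d := Subtype.ext (e5' hW ht a b c d)
  V3 x y u := by
    rw [map_add]
    exact Subtype.ext (v3' hW.mal ht x y u)
  gen N h1 h2 h3 := by
    have h : UU t ≤ N.map (UU t).subtype := by
      refine UU_le ⟨oneU t, h1, rfl⟩ (fun w => ⟨ioU t w, h2 w, rfl⟩) ?_
      rintro x y _ ⟨u, hu, rfl⟩
      exact ⟨sU t x y u, h3 x y u hu, rfl⟩
    rw [eq_top_iff]
    intro u _
    obtain ⟨v, hv, e⟩ := h u.2
    have : v = u := Subtype.ext e
    rw [← this]; exact hv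

/-- Evaluation of the first component. -/
theorem prod_one (l : List (F × F)) (a b : F) :
    ((((l.map fun p => (sU t p.1 p.2 : Module.End K (UU t))).prod (oneU t) : UU t) :
      PP K F)).1 a b = ((l.map fun p => (t p.1 p.2 : Module.End K F)).prod) (a * b) := by
  induction l with
  | nil => rfl
  | cons p l ih =>
    rw [List.map_cons, List.prod_cons, List.map_cons, List.prod_cons, Module.End.mul_apply,
      Module.End.mul_apply, ← ih]
    rfl

end cliff

end Pool.Agent.Lib.MP_cad252_al.Z
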