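import Pool.Agent.Lib.MP_cad252_al.H89.FiniteBasis

/-!
Degrees of nonassociative words in a letter.
-/

namespace Pool.Agent.Lib.MP_cad252_al.Z

/-- The number of occurrences of the letter `i` in a nonassociative word. -/
def cnt (i : ℕ) : FreeMagma ℕ → ℕ
  | FreeMagma.of j => if j = i then 1 else 0
  | FreeMagma.mul a b => cnt i a + cnt i b

theorem cnt_of (i j : ℕ) : cnt i (FreeMagma.of j) = if j = i then 1 else 0 := rfl

theorem cnt_mul (i : ℕ) (a b : FreeMagma ℕ) : cnt i (a * b) = cnt i a + cnt i b := rfl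

end Pool.Agent.Lib.MP_cad252_al.Z
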