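import Pool.Agent.Lib.MP_cad252_al.Z.AltP
import Pool.Agent.Lib.MP_cad252_al.Z.CliffMod
import Pool.Agent.Lib.MP_cad252_al.Z.Cap9

/-!
The Capelli identity for the operators and the finite basis theorem for `W`-algebras.
-/

set_option linter.unusedSimpArgs false
set_option linter.unusedSectionVars false

namespace Pool.Agent.Lib.MP_cad252_al.Z

open Pool.Agent.Lib.MP_cad252_al.H89 FreeNonUnitalNonAssocAlgebra

universe u v w

section ev

variable {K F : Type*} [Field K] [NonUnitalNonAssocRing F] [Module K F]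

theorem cap_abs {U : Type*} [AddCommGroup U] [Module K U] (C : CliffData K F U) (θ : U →ₗ[K] F)
    (t : F →ₗ[K] F →ₗ[K] F →ₗ[K] F) (c : F)
    (hθ : ∀ l : List (F × F), θ ((l.map fun p => C.s p.1 p.2).prod C.one)
      = (l.map fun p => (t p.1 p.2 : Module.End K F)).prod c) {n : ℕ} (z v : Fin n → F)
    (h : ∑ σ : Equiv.Perm (Fin n), (Equiv.Perm.sign σ : ℤ) •
      (List.ofFn fun j => C.s (z (σ j)) (v j)).prod = 0) :
    ∑ σ : Equiv.Perm (Fin n), (Equiv.Perm.sign σ : ℤ) •
      (List.ofFn fun j => (t (z (σ j)) (v j) : Module.End K F)).prod c = 0 := by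
  have h2 := congrArg (fun T : Module.End K U => θ (T C.one)) h
  simp only [LinearMap.sum_apply, map_sum, LinearMap.smul_apply, map_zsmul,
    LinearMap.zero_apply, map_zero] at h2
  rw [← h2]
  refine Finset.sum_congr rfl fun σ _ => ?_
  have h4 := hθ (List.ofFn fun j => (z (σ j), v j))
  rw [List.map_ofFn, List.map_ofFn] at h4
  exact congrArg (fun x : F => (Equiv.Perm.sign σ : ℤ) • x) h4.symm

end ev

section ev2

variable {K F : Type*} [Field K] [CharZero K] [NonUnitalNonAssocRing F] [Module K F]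
  [IsScalarTower K F F] [SMulCommClass K F F]

/-- Evaluation of the first component. -/
def evab (t : F →ₗ[K] F →ₗ[K] F →ₗ[K] F) (a b : F) : UU t →ₗ[K] F where
  toFun u := (u : PP K F).1 a b
  map_add' _ _ := rfl
  map_smul' _ _ := rfl

theorem capelli_tops {t : F →ₗ[K] F →ₗ[K] F →ₗ[K] F} (hW : IsW K F) (ht : TOps t) {n : ℕ}
    (z v : Fin n → F) (a b : F) (h : ∑ σ : Equiv.Perm (Fin n), (Equiv.Perm.sign σ : ℤ) •
      (List.ofFn fun j => (cliffData hW ht).s (z (σ j)) (v j)).prod = 0) :
    ∑ σ : Equiv.Perm (Fin n), (Equiv.Perm.sign σ : ℤ) •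
      (List.ofFn fun j => (t (z (σ j)) (v j) : Module.End K F)).prod (a * b) = 0 :=
  cap_abs (cliffData hW ht) (evab t a b) t (a * b) (fun l => prod_one l a b) z v h

end ev2

section capH

variable {K : Type u} [Field K] [CharZero K] {I : Submodule K (FA K)} (hI : IsTIdeal K I)
  (hS : ∀ f ∈ S0 K, f ∈ I) (hL : Lin I)

/-- The Capelli identity for the operators on the quotient. -/
theorem capH : CapH hI hS hL 9 := fun z v a b =>
  capelli_tops (isW_Qt hI hS) (tOps hI hS hL) z v a b (CliffData.capelli9 _ z v)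

end capH

section final

variable (K : Type u) [Field K] [CharZero K]

theorem finitelyBased_of_isW (B : Type v) [NonUnitalNonAssocRing B] [Module K B]
    [IsScalarTower K B B] [SMulCommClass K B B] (hB : IsW K B) : FinitelyBased K B :=
  finitelyBased_of_alt (alt_of_cap (capH _ _ _)) B hB

end final

end Pool.Agent.Lib.MP_cad252_al.Z
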