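import Mathlib
import Pool.Agent.Lib.MP_cad252_al.H89.FiniteBasis
import Pool.Agent.Lib.MP_cad252_al.Z.Cnt

/-!
# T-ideals in characteristic zero: linearisation and rank reduction

`K` is a field of characteristic zero and `FA K` the free nonassociative algebra on `x_0, x_1, ...`.

* `G1`: every element of a T-ideal is a combination of substitution instances of multilinear
  elements of it.
* `G2`: if a T-ideal `I'` contains all elements of the T-ideal `I` in the letters `< N` and all
  polynomials which alternate in more than `N` letters, then `I ≤ I'` (a Capelli type argument).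
-/

namespace Pool.Agent.Lib.MP_cad252_al.Z.G86

open FreeNonUnitalNonAssocAlgebra Pool.Agent.Lib.MP_cad252_al.H89

universe u

/-- The weight of a word, for a weight function on the letters. -/
def wt (w : ℕ → ℕ) : FreeMagma ℕ → ℕ
  | .of j => w j
  | .mul a b => wt w a + wt w b

theorem wt_of (w : ℕ → ℕ) (j : ℕ) : wt w (FreeMagma.of j) = w j := rfl
theorem wt_mul (w : ℕ → ℕ) (a b : FreeMagma ℕ) : wt w (a * b) = wt w a + wt w b := rfl

theorem wt_single (i : ℕ) (m : FreeMagma ℕ) :
    wt (fun j => if j = i then 1 else 0) m = cnt i m := by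
  induction m with
  | ih1 x => rfl
  | ih2 a b ha hb => rw [wt_mul, cnt_mul, ha, hb]

theorem cnt_eq_zero_iff (i : ℕ) (m : FreeMagma ℕ) : cnt i m = 0 ↔ i ∉ wvars m := by
  induction m with
  | ih1 x =>
    rw [cnt_of, wvars_of, Finset.mem_singleton]
    by_cases h : x = i
    · simp [h]
    · simp [h, Ne.symm h]
  | ih2 a b ha hb =>
    rw [cnt_mul, wvars_mul, Finset.mem_union, Nat.add_eq_zero_iff, ha, hb, not_or]

section Basics

variable {K : Type u} [Field K]

/-- Linear extension of a function on words. -/
noncomputable def lin {M : Type*} [AddCommGroup M] [Module K M] (F : FreeMagma ℕ → M) :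
    FA K →ₗ[K] M :=
  (Finsupp.linearCombination K F) ∘ₗ (MonoidAlgebra.coeffLinearEquiv K).toLinearMap

theorem lin_mon {M : Type*} [AddCommGroup M] [Module K M] (F : FreeMagma ℕ → M)
    (m : FreeMagma ℕ) : lin F (mon K m) = F m := by
  simp [lin, mon]

theorem lin_apply {M : Type*} [AddCommGroup M] [Module K M] (φ : FA K →ₗ[K] M) (f : FA K) :
    φ f = ∑ m ∈ f.coeff.support, f.coeff m • φ (mon K m) := by
  conv_lhs => rw [eq_sum K f]
  rw [map_sum]
  exact Finset.sum_congr rfl fun m _ => by rw [map_smul]

theorem lin_ext {M : Type*} [AddCommGroup M] [Module K M] {φ ψ : FA K →ₗ[K] M}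
    (h : ∀ m, φ (mon K m) = ψ (mon K m)) : φ = ψ := by
  refine LinearMap.ext fun f => ?_
  rw [lin_apply φ, lin_apply ψ]
  exact Finset.sum_congr rfl fun m _ => by rw [h]

/-- Elements all of whose monomials satisfy `p`. -/
def MS (K : Type u) [Field K] (p : FreeMagma ℕ → Prop) : Submodule K (FA K) where
  carrier := {f | ∀ m ∈ f.coeff.support, p m}
  add_mem' := fun {f g} hf hg m hm => by
    rw [Finsupp.mem_support_iff, MonoidAlgebra.coeff_add, Finsupp.add_apply] at hm
    by_cases h : f.coeff m = 0
    · rw [h, zero_add] at hm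
      exact hg m (Finsupp.mem_support_iff.2 hm)
    · exact hf m (Finsupp.mem_support_iff.2 h)
  zero_mem' := fun m hm => by simp at hm
  smul_mem' := fun c f hf m hm => by
    rw [Finsupp.mem_support_iff, MonoidAlgebra.coeff_smul, Finsupp.smul_apply] at hm
    exact hf m (Finsupp.mem_support_iff.2 fun h => hm (by rw [h, smul_zero]))

theorem mem_MS {p : FreeMagma ℕ → Prop} {f : FA K} :
    f ∈ MS K p ↔ ∀ m ∈ f.coeff.support, p m := Iff.rfl

theorem mon_mem_MS {p : FreeMagma ℕ → Prop} {m : FreeMagma ℕ} (h : p m) : mon K m ∈ MS K p := by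
  intro m' hm'
  have : m' = m := by
    by_contra hne
    rw [Finsupp.mem_support_iff] at hm'
    apply hm'
    simp [mon, Ne.symm hne]
  rw [this]; exact h

theorem MS_mono {p q : FreeMagma ℕ → Prop} (h : ∀ m, p m → q m) {f : FA K} (hf : f ∈ MS K p) :
    f ∈ MS K q := fun m hm => h m (hf m hm)

theorem map_MS {M : Type*} [AddCommGroup M] [Module K M] {p : FreeMagma ℕ → Prop}
    (φ : FA K →ₗ[K] M) (S : Submodule K M) (h : ∀ m, p m → φ (mon K m) ∈ S) {f : FA K}
    (hf : f ∈ MS K p) : φ f ∈ S := by
  rw [lin_apply]
  exact Submodule.sum_mem _ fun m hm => Submodule.smul_mem _ _ (h m (hf m hm))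

theorem eq_on_MS {M : Type*} [AddCommGroup M] [Module K M] {p : FreeMagma ℕ → Prop}
    (φ ψ : FA K →ₗ[K] M) (h : ∀ m, p m → φ (mon K m) = ψ (mon K m)) {f : FA K}
    (hf : f ∈ MS K p) : φ f = ψ f := by
  rw [lin_apply φ, lin_apply ψ]
  exact Finset.sum_congr rfl fun m hm => by rw [h m (hf m hm)]

theorem fa_ind {P : FA K → Prop} (h0 : P 0) (h1 : ∀ m, P (mon K m))
    (h2 : ∀ f g, P f → P g → P (f + g)) (h3 : ∀ (c : K) f, P f → P (c • f)) (f : FA K) : P f := by
  rw [eq_sum K f]
  refine Finset.sum_induction _ P h2 h0 fun m _ => h3 _ _ (h1 m)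

theorem mul_MS {p q r : FreeMagma ℕ → Prop} (h : ∀ a b, p a → q b → r (a * b)) {f g : FA K}
    (hf : f ∈ MS K p) (hg : g ∈ MS K q) : f * g ∈ MS K r := by
  have h1 : ∀ a, p a → mon K a * g ∈ MS K r := by
    intro a ha
    have := map_MS (LinearMap.mulLeft K (mon K a)) (MS K r) (fun b hb => by
      rw [LinearMap.mulLeft_apply, ← mon_mul]
      exact mon_mem_MS (h a b ha hb)) hg
    simpa using this
  have := map_MS (LinearMap.mulRight K g) (MS K r) (fun a ha => by
      rw [LinearMap.mulRight_apply]
      exact h1 a ha) hf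
  simpa using this

/-- Substitution as a linear map. -/
noncomputable def sbs (σ : ℕ → FA K) : FA K →ₗ[K] FA K where
  toFun := lift K σ
  map_add' := map_add _
  map_smul' := map_smul _

theorem sbs_apply (σ : ℕ → FA K) (f : FA K) : sbs σ f = lift K σ f := rfl

theorem sbs_mul (σ : ℕ → FA K) (f g : FA K) : sbs σ (f * g) = sbs σ f * sbs σ g :=
  map_mul (lift K σ) f g

theorem sbs_of (σ : ℕ → FA K) (x : ℕ) : sbs σ (mon K (FreeMagma.of x)) = σ x := by
  rw [mon_of, sbs_apply, lift_of_apply]

theorem lift_lift (σ τ : ℕ → FA K) (f : FA K) :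
    lift K τ (lift K σ f) = lift K (fun i => lift K τ (σ i)) f := by
  have h2 : ((lift K τ).comp (lift K σ)) = lift K (fun i => lift K τ (σ i)) := by
    apply FreeNonUnitalNonAssocAlgebra.hom_ext
    intro x
    simp
  rw [← h2]; rfl

theorem lift_of_self (f : FA K) : lift K (fun x => of K x) f = f := by
  have h : sbs (K := K) (fun x => of K x) = LinearMap.id := by
    apply lin_ext
    intro m
    rw [sbs_apply, lift_mon, ev_of_self]
    rfl
  rw [← sbs_apply, h]; rfl

/-! ### Derivations -/

/-- The derivation `x_j ↦ s j` on words. -/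
noncomputable def dm (s : ℕ → FA K) : FreeMagma ℕ → FA K
  | .of j => s j
  | .mul a b => dm s a * mon K b + mon K a * dm s b

/-- The derivation of `FA K` with `x_j ↦ s j`. -/
noncomputable def der (s : ℕ → FA K) : FA K →ₗ[K] FA K := lin (dm s)

theorem der_mon (s : ℕ → FA K) (m : FreeMagma ℕ) : der s (mon K m) = dm s m := lin_mon _ _

theorem der_of (s : ℕ → FA K) (x : ℕ) : der s (mon K (FreeMagma.of x)) = s x := der_mon _ _

theorem der_mon_mul (s : ℕ → FA K) (a b : FreeMagma ℕ) :
    der s (mon K a * mon K b) = der s (mon K a) * mon K b + mon K a * der s (mon K b) := by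
  rw [← mon_mul, der_mon, der_mon, der_mon]; rfl

theorem der_mul (s : ℕ → FA K) (f g : FA K) :
    der s (f * g) = der s f * g + f * der s g := by
  induction f using fa_ind with
  | h0 => simp
  | h1 a =>
    induction g using fa_ind with
    | h0 => simp
    | h1 b => exact der_mon_mul s a b
    | h2 f g hf hg => rw [mul_add, map_add, hf, hg, map_add, mul_add, mul_add]; abel
    | h3 c f hf => rw [mul_smul_comm, map_smul, hf, map_smul, smul_add, mul_smul_comm,
        mul_smul_comm]
  | h2 f g hf hg => rw [add_mul, map_add, hf, hg, map_add, add_mul, add_mul]; abel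
  | h3 c f hf => rw [smul_mul_assoc, map_smul, hf, map_smul, smul_add, smul_mul_assoc,
        smul_mul_assoc]

theorem der_comm (s t : ℕ → FA K) (f : FA K) :
    der s (der t f) - der t (der s f) = der (fun j => der s (t j) - der t (s j)) f := by
  induction f using fa_ind with
  | h0 => simp
  | h1 m =>
    induction m with
    | ih1 x => rw [der_of, der_of, der_of]
    | ih2 a b ha hb =>
      have e : ∀ p q r w : FA K, p - q = r → p = r + q := fun p q r w h => by rw [← h]; abel
      rw [mon_mul, der_mul, der_mul, der_mul, map_add, map_add, der_mul, der_mul, der_mul,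
        der_mul, ← ha, ← hb, sub_mul, mul_sub]
      abel
  | h2 f g hf hg => rw [map_add, map_add, map_add, map_add, map_add, ← hf, ← hg]; abel
  | h3 c f hf => rw [map_smul, map_smul, map_smul, map_smul, map_smul, ← hf, smul_sub]

/-- The polarisation which replaces one letter `x_j` by `x_i`. -/
noncomputable def E (i j : ℕ) : Module.End K (FA K) := der fun l => if l = j then of K i else 0

theorem E_of (i j l : ℕ) : (E i j : Module.End K (FA K)) (of K l) = if l = j then of K i else 0 := by
  unfold E
  have := der_of (K := K) (fun l => if l = j then of K i else 0) l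
  rwa [mon_of] at this

theorem der_zero' (f : FA K) : der (fun _ => (0 : FA K)) f = 0 := by
  induction f using fa_ind with
  | h0 => simp
  | h1 m =>
    induction m with
    | ih1 x => rw [der_of]
    | ih2 a b ha hb => rw [mon_mul, der_mul, ha, hb]; simp
  | h2 f g hf hg => rw [map_add, hf, hg, add_zero]
  | h3 c f hf => rw [map_smul, hf, smul_zero]

theorem der_add' (s t : ℕ → FA K) (f : FA K) :
    der (fun j => s j + t j) f = der s f + der t f := by
  induction f using fa_ind with
  | h0 => simp
  | h1 m =>
    induction m with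
    | ih1 x => rw [der_of, der_of, der_of]
    | ih2 a b ha hb => rw [mon_mul, der_mul, der_mul, der_mul, ha, hb, add_mul, mul_add]; abel
  | h2 f g hf hg => rw [map_add, map_add, map_add, hf, hg]; abel
  | h3 c f hf => rw [map_smul, map_smul, map_smul, hf, smul_add]

theorem der_neg' (s : ℕ → FA K) (f : FA K) :
    der (fun j => - s j) f = - der s f := by
  have := der_add' s (fun j => - s j) f
  simp only [add_neg_cancel] at this
  rw [der_zero'] at this
  exact eq_neg_of_add_eq_zero_right this.symm

/-- The relations of `gl`. -/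
theorem E_comm (i j k l : ℕ) :
    (E i j : Module.End K (FA K)) * E k l - E k l * E i j
      = (if j = k then E i l else 0) - (if l = i then E k j else 0) := by
  refine LinearMap.ext fun f => ?_
  have h := der_comm (K := K) (fun a => if a = j then of K i else 0)
    (fun a => if a = l then of K k else 0) f
  rw [LinearMap.sub_apply, LinearMap.sub_apply, Module.End.mul_apply, Module.End.mul_apply]
  refine h.trans ?_
  have h2 : (fun a => (der (fun a => if a = j then of K i else 0) (if a = l then of K k else 0)
      - der (fun a => if a = l then of K k else 0) (if a = j then of K i else 0) : FA K))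
      = fun a => (if a = l then (if j = k then of K i else 0) else 0)
        + -(if a = j then (if l = i then of K k else 0) else 0) := by
    funext a
    have h3 := E_of (K := K) i j k
    have h4 := E_of (K := K) k l i
    unfold E at h3 h4
    rw [sub_eq_add_neg]
    congr 1
    · by_cases ha : a = l
      · rw [if_pos ha, if_pos ha, h3]
        by_cases hk : j = k
        · rw [if_pos hk.symm, if_pos hk]
        · rw [if_neg (Ne.symm hk), if_neg hk]
      · rw [if_neg ha, if_neg ha, map_zero]
    · congr 1
      by_cases ha : a = j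
      · rw [if_pos ha, if_pos ha, h4]
        by_cases hk : l = i
        · rw [if_pos hk.symm, if_pos hk]
        · rw [if_neg (Ne.symm hk), if_neg hk]
      · rw [if_neg ha, if_neg ha, map_zero]
  rw [h2, der_add', der_neg', ← sub_eq_add_neg]
  congr 1
  · by_cases hk : j = k
    · simp only [if_pos hk]; rfl
    · simp only [if_neg hk, ite_self]; rw [der_zero']; rfl
  · by_cases hk : l = i
    · simp only [if_pos hk]; rfl
    · simp only [if_neg hk, ite_self]; rw [der_zero']; rfl

end Basics

/-! ### Closure properties of T-ideals -/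

section Closure

variable {K : Type u} [Field K] [CharZero K]

theorem vdm {M : Type*} [AddCommGroup M] [Module K M] (S : Submodule K M) (v : ℕ → M) (n : ℕ)
    (h : ∀ c : K, ∑ k ∈ Finset.range n, c ^ k • v k ∈ S) : ∀ k < n, v k ∈ S := by
  classical
  intro k hk
  set A : Matrix (Fin n) (Fin n) K := Matrix.vandermonde fun i : Fin n => ((i : ℕ) : K) with hA
  have hdet : A.det ≠ 0 := by
    rw [hA, Matrix.det_vandermonde_ne_zero_iff]
    intro a b hab
    exact Fin.ext (Nat.cast_injective hab)
  have hinv : A⁻¹ * A = 1 := Matrix.nonsing_inv_mul A (isUnit_iff_ne_zero.2 hdet)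
  have h1 : v k = ∑ i : Fin n, A⁻¹ ⟨k, hk⟩ i • ∑ j ∈ Finset.range n, (((i : ℕ) : K)) ^ j • v j := by
    have h2 : ∀ i : Fin n, A⁻¹ ⟨k, hk⟩ i • ∑ j ∈ Finset.range n, (((i : ℕ) : K)) ^ j • v j
        = ∑ j : Fin n, (A⁻¹ ⟨k, hk⟩ i * A i j) • v j := by
      intro i
      rw [Finset.sum_range, Finset.smul_sum]
      refine Finset.sum_congr rfl fun j _ => ?_
      rw [smul_smul, hA, Matrix.vandermonde_apply]
    rw [Finset.sum_congr rfl fun i _ => h2 i, Finset.sum_comm]
    have h3 : ∀ j : Fin n, ∑ i : Fin n, (A⁻¹ ⟨k, hk⟩ i * A i j) • v j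
        = (if (⟨k, hk⟩ : Fin n) = j then v j else 0) := by
      intro j
      rw [← Finset.sum_smul, ← Matrix.mul_apply, hinv, Matrix.one_apply]
      split_ifs <;> simp
    rw [Finset.sum_congr rfl fun j _ => h3 j, Finset.sum_ite_eq]
    simp
  rw [h1]
  exact Submodule.sum_mem _ fun i _ => Submodule.smul_mem _ _ (h _)

/-- Projection onto the monomials with property `p`. -/
noncomputable def proj (K : Type u) [Field K] (p : FreeMagma ℕ → Prop) :
    FA K →ₗ[K] FA K := lin fun m => @ite _ (p m) (Classical.propDecidable _) (mon K m) 0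

omit [CharZero K] in
theorem proj_mon (p : FreeMagma ℕ → Prop) (m : FreeMagma ℕ) [h : Decidable (p m)] :
    proj K p (mon K m) = if p m then mon K m else 0 := by
  rw [proj, lin_mon]
  congr

omit [CharZero K] in
theorem ev_scale (w : ℕ → ℕ) (c : K) (m : FreeMagma ℕ) :
    ev (fun x => c ^ w x • of K x) m = c ^ wt w m • mon K m := by
  induction m with
  | ih1 x => rfl
  | ih2 a b ha hb =>
    rw [ev_mul, ha, hb, wt_mul, pow_add, mon_mul, smul_mul_smul_comm]

theorem wproj_mem {I : Submodule K (FA K)} (hI : IsTIdeal K I) (w : ℕ → ℕ) (d : ℕ) {f : FA K}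
    (hf : f ∈ I) : proj K (fun m => wt w m = d) f ∈ I := by
  classical
  obtain ⟨n, hn⟩ : ∃ n, ∀ m ∈ f.coeff.support, wt w m < n :=
    ⟨f.coeff.support.sup (wt w) + 1, fun m hm => Nat.lt_succ_of_le (Finset.le_sup hm)⟩
  have key : ∀ c : K, ∑ k ∈ Finset.range n, c ^ k • proj K (fun m => wt w m = k) f ∈ I := by
    intro c
    have h1 := hI.subst (fun x => c ^ w x • of K x) f hf
    have h2 : lift K (fun x => c ^ w x • of K x) f
        = ∑ k ∈ Finset.range n, c ^ k • proj K (fun m => wt w m = k) f := by
      have h3 := eq_on_MS (K := K) (p := fun m => wt w m < n) (sbs fun x => c ^ w x • of K x)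
        (∑ k ∈ Finset.range n, c ^ k • proj K (fun m => wt w m = k)) ?_ (f := f) hn
      · rw [sbs_apply] at h3
        rw [h3, LinearMap.sum_apply]
        rfl
      · intro m hm
        rw [sbs_apply, lift_mon, ev_scale, LinearMap.sum_apply]
        rw [Finset.sum_eq_single (wt w m)]
        · rw [LinearMap.smul_apply, proj_mon, if_pos rfl]
        · intro b _ hb
          rw [LinearMap.smul_apply, proj_mon, if_neg (Ne.symm hb), smul_zero]
        · intro h; exact absurd (Finset.mem_range.2 hm) h
    rw [← h2]; exact h1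
  by_cases hd : d < n
  · exact vdm I (fun k => proj K (fun m => wt w m = k) f) n key d hd
  · have h3 := eq_on_MS (K := K) (p := fun m => wt w m < n) (proj K fun m => wt w m = d) 0 ?_
      (f := f) hn
    · rw [h3]; exact Submodule.zero_mem _
    · intro m hm
      rw [proj_mon, if_neg (by omega)]; rfl

theorem mproj_mem {I : Submodule K (FA K)} (hI : IsTIdeal K I) (d : ℕ → ℕ) (n : ℕ) {f : FA K}
    (hf : f ∈ I) : proj K (fun m => ∀ i < n, cnt i m = d i) f ∈ I := by
  classical
  induction n with
  | zero =>
    have : proj K (fun m => ∀ i < 0, cnt i m = d i) = LinearMap.id := by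
      apply lin_ext
      intro m
      rw [proj_mon, if_pos (fun i hi => absurd hi (Nat.not_lt_zero i))]
      rfl
    rw [this]; exact hf
  | succ n ih =>
    have h1 := wproj_mem hI (fun j => if j = n then 1 else 0) (d n) ih
    have h2 : proj K (fun m => ∀ i < n + 1, cnt i m = d i)
        = (proj K (fun m => wt (fun j => if j = n then 1 else 0) m = d n)) ∘ₗ
          (proj K (fun m => ∀ i < n, cnt i m = d i)) := by
      apply lin_ext
      intro m
      rw [proj_mon, LinearMap.comp_apply, proj_mon]
      by_cases h : ∀ i < n, cnt i m = d i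
      · rw [if_pos h, proj_mon, wt_single]
        by_cases h' : cnt n m = d n
        · rw [if_pos h', if_pos]
          intro i hi
          rcases Nat.lt_succ_iff_lt_or_eq.1 hi with h3 | h3
          · exact h i h3
          · rw [h3]; exact h'
        · rw [if_neg h', if_neg]
          intro h3; exact h' (h3 n (Nat.lt_succ_self n))
      · rw [if_neg h, map_zero, if_neg]
        intro h3; exact h fun i hi => h3 i (hi.trans (Nat.lt_succ_self n))
    rw [h2]
    exact h1

omit [CharZero K] in
theorem exists_letters (f : FA K) : ∃ n, ∀ m ∈ f.coeff.support, ∀ i, n ≤ i → cnt i m = 0 := by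
  classical
  refine ⟨(f.coeff.support.biUnion wvars).sup id + 1, fun m hm i hi => ?_⟩
  rw [cnt_eq_zero_iff]
  intro h
  have : i ≤ (f.coeff.support.biUnion wvars).sup id :=
    Finset.le_sup (f := id) (Finset.mem_biUnion.2 ⟨m, hm, h⟩)
  omega

/-- Reduction to multihomogeneous elements. -/
theorem hom_reduce {I S : Submodule K (FA K)} (hI : IsTIdeal K I) (p : FreeMagma ℕ → Prop)
    (h : ∀ d : ℕ → ℕ, ∀ f ∈ I, f ∈ MS K p → f ∈ MS K (fun m => ∀ i, cnt i m = d i) → f ∈ S) :
    ∀ f ∈ I, f ∈ MS K p → f ∈ S := by
  classical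
  intro f hf hp
  obtain ⟨n, hn⟩ := exists_letters f
  have h1 : f = ∑ D ∈ f.coeff.support.image (fun m => fun i => cnt i m),
      proj K (fun m => ∀ i < n, cnt i m = D i) f := by
    have h2 := eq_on_MS (K := K) (p := fun m => m ∈ f.coeff.support) LinearMap.id
      (∑ D ∈ f.coeff.support.image (fun m => fun i => cnt i m),
        proj K (fun m => ∀ i < n, cnt i m = D i)) ?_ (f := f) (fun m hm => hm)
    · rw [LinearMap.id_apply, LinearMap.sum_apply] at h2
      exact h2
    · intro m hm
      rw [LinearMap.id_apply, LinearMap.sum_apply, Finset.sum_eq_single (fun i => cnt i m)]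
      · rw [proj_mon, if_pos fun i _ => rfl]
      · intro D hD hne
        obtain ⟨m', hm', rfl⟩ := Finset.mem_image.1 hD
        rw [proj_mon, if_neg]
        intro h3
        apply hne
        funext i
        by_cases hi : i < n
        · exact (h3 i hi).symm
        · rw [hn m' hm' i (by omega), hn m hm i (by omega)]
      · intro h3
        exact absurd (Finset.mem_image_of_mem _ hm) h3
  rw [h1]
  refine Submodule.sum_mem _ fun D hD => ?_
  obtain ⟨m', hm', rfl⟩ := Finset.mem_image.1 hD
  refine h (fun i => cnt i m') _ (mproj_mem hI _ n hf) ?_ ?_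
  · refine map_MS _ _ (fun m hm => ?_) hp
    rw [proj_mon]
    split_ifs
    · exact mon_mem_MS hm
    · exact Submodule.zero_mem _
  · refine map_MS (p := fun m => ∀ i, n ≤ i → cnt i m = 0) _ _ (fun m hm => ?_) hn
    rw [proj_mon]
    split_ifs with h4
    · refine mon_mem_MS fun i => ?_
      by_cases hi : i < n
      · exact h4 i hi
      · rw [hm i (by omega)]; exact (hn m' hm' i (by omega)).symm
    · exact Submodule.zero_mem _

/-! T-ideals are closed under derivations. -/

/-- `x_j ↦ x_{2j} + x_{2j+1}`. -/
noncomputable def dbl (K : Type u) [Field K] : ℕ → FA K := fun j => of K (2 * j) + of K (2 * j + 1)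

/-- `x_{2j} ↦ x_j`, `x_{2j+1} ↦ s j`. -/
noncomputable def bck (s : ℕ → FA K) : ℕ → FA K := fun l => if l % 2 = 0 then of K (l / 2) else s (l / 2)

omit [CharZero K] in
theorem proj_par_mul (d : ℕ) (hd : d = 0 ∨ d = 1) (f g : FA K) :
    proj K (fun m => wt (fun l => l % 2) m = d) (f * g)
      = if d = 0 then proj K (fun m => wt (fun l => l % 2) m = 0) f
          * proj K (fun m => wt (fun l => l % 2) m = 0) g
        else proj K (fun m => wt (fun l => l % 2) m = 1) f
          * proj K (fun m => wt (fun l => l % 2) m = 0) g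
          + proj K (fun m => wt (fun l => l % 2) m = 0) f
          * proj K (fun m => wt (fun l => l % 2) m = 1) g := by
  induction f using fa_ind with
  | h0 => simp
  | h1 a =>
    induction g using fa_ind with
    | h0 => simp
    | h1 b =>
      rw [← mon_mul]
      simp only [proj_mon, wt_mul]
      rcases hd with rfl | rfl
      · rw [if_pos rfl]
        by_cases ha : wt (fun l => l % 2) a = 0
        · by_cases hb : wt (fun l => l % 2) b = 0
          · rw [if_pos ha, if_pos hb, if_pos (by omega), mon_mul]
          · rw [if_pos ha, if_neg hb, if_neg (by omega), mul_zero]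
        · rw [if_neg ha, if_neg (by omega), zero_mul]
      · rw [if_neg one_ne_zero]
        by_cases ha : wt (fun l => l % 2) a = 0
        · by_cases hb : wt (fun l => l % 2) b = 1
          · rw [if_pos ha, if_pos hb, if_pos (by omega), if_neg (by omega), zero_mul, zero_add,
              mon_mul]
          · rw [if_pos ha, if_neg hb, if_neg (by omega), if_neg (by omega), zero_mul, mul_zero,
              add_zero]
        · by_cases ha1 : wt (fun l => l % 2) a = 1
          · by_cases hb : wt (fun l => l % 2) b = 0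
            · rw [if_pos ha1, if_pos hb, if_pos (by omega), if_neg (by omega), zero_mul, add_zero,
                mon_mul]
            · rw [if_neg hb, if_neg (by omega), if_neg ha, mul_zero, zero_mul, add_zero]
          · rw [if_neg ha, if_neg ha1, if_neg (by omega), zero_mul, zero_mul, add_zero]
    | h2 f g hf hg =>
      rw [mul_add, map_add, hf, hg]
      rcases hd with rfl | rfl
      · rw [if_pos rfl, if_pos rfl, if_pos rfl, map_add, mul_add]
      · rw [if_neg one_ne_zero, if_neg one_ne_zero, if_neg one_ne_zero, map_add, map_add, mul_add,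
          mul_add]
        abel
    | h3 c f hf =>
      rw [mul_smul_comm, map_smul, hf]
      rcases hd with rfl | rfl
      · rw [if_pos rfl, if_pos rfl, map_smul, mul_smul_comm]
      · rw [if_neg one_ne_zero, if_neg one_ne_zero, map_smul, map_smul, smul_add, mul_smul_comm,
          mul_smul_comm]
  | h2 f g' hf hg =>
    rw [add_mul, map_add, hf, hg]
    rcases hd with rfl | rfl
    · rw [if_pos rfl, if_pos rfl, if_pos rfl, map_add, add_mul]
    · rw [if_neg one_ne_zero, if_neg one_ne_zero, if_neg one_ne_zero, map_add, map_add, add_mul,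
        add_mul]
      abel
  | h3 c f hf =>
    rw [smul_mul_assoc, map_smul, hf]
    rcases hd with rfl | rfl
    · rw [if_pos rfl, if_pos rfl, map_smul, smul_mul_assoc]
    · rw [if_neg one_ne_zero, if_neg one_ne_zero, map_smul, map_smul, smul_add, smul_mul_assoc,
        smul_mul_assoc]

omit [CharZero K] in
theorem bck_dbl (s : ℕ → FA K) (m : FreeMagma ℕ) :
    sbs (bck s) (proj K (fun m => wt (fun l => l % 2) m = 0) (sbs (dbl K) (mon K m))) = mon K m ∧
    sbs (bck s) (proj K (fun m => wt (fun l => l % 2) m = 1) (sbs (dbl K) (mon K m)))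
      = der s (mon K m) := by
  induction m with
  | ih1 x =>
    rw [sbs_of, dbl, map_add, map_add, map_add, map_add, ← mon_of, ← mon_of, proj_mon, proj_mon,
      proj_mon, proj_mon, wt_of, wt_of, der_of]
    have h1 : 2 * x % 2 = 0 := by omega
    have h2 : (2 * x + 1) % 2 = 1 := by omega
    have h3 : 2 * x / 2 = x := by omega
    have h4 : (2 * x + 1) / 2 = x := by omega
    simp only [h1, h2, if_true, one_ne_zero, if_false, zero_ne_one, map_zero, add_zero, zero_add]
    rw [sbs_of, sbs_of, bck, bck, if_pos h1, if_neg (by omega), h3, h4]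
    exact ⟨rfl, rfl⟩
  | ih2 a b ha hb =>
    have e0 := proj_par_mul (K := K) 0 (Or.inl rfl) (sbs (dbl K) (mon K a)) (sbs (dbl K) (mon K b))
    have e1 := proj_par_mul (K := K) 1 (Or.inr rfl) (sbs (dbl K) (mon K a)) (sbs (dbl K) (mon K b))
    rw [if_pos rfl] at e0
    rw [if_neg one_ne_zero] at e1
    rw [mon_mul, sbs_mul, e0, e1, map_add, sbs_mul, sbs_mul, sbs_mul, ha.1, hb.1, ha.2, hb.2,
      der_mul]
    exact ⟨rfl, rfl⟩

theorem der_mem {I : Submodule K (FA K)} (hI : IsTIdeal K I) (s : ℕ → FA K) {f : FA K}
    (hf : f ∈ I) : der s f ∈ I := by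
  have h1 : der s = sbs (bck s) ∘ₗ proj K (fun m => wt (fun l => l % 2) m = 1) ∘ₗ sbs (dbl K) := by
    apply lin_ext
    intro m
    exact (bck_dbl s m).2.symm
  rw [h1]
  exact hI.subst _ _ (wproj_mem hI _ 1 (hI.subst _ _ hf))

theorem E_mem {I : Submodule K (FA K)} (hI : IsTIdeal K I) (i j : ℕ) {f : FA K}
    (hf : f ∈ I) : E i j f ∈ I := der_mem hI _ hf

end Closure

end Pool.Agent.Lib.MP_cad252_al.Z.G86
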