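import Mathlib
import Pool.Agent.Lib.MP_cad252_al.Z.GBase
import Pool.Agent.Lib.MP_cad252_al.Z.Capelli

/-!
# Linearisation and rank reduction for T-ideals in characteristic zero

* `G1`: every element of a T-ideal is a combination of substitution instances of multilinear
  elements of it.
* `G2`: if a T-ideal `I'` contains all elements of the T-ideal `I` in the letters `< N` and all
  polynomials which alternate in more than `N` letters, then `I ≤ I'`.
-/

namespace Pool.Agent.Lib.MP_cad252_al.Z.G86

open FreeNonUnitalNonAssocAlgebra Pool.Agent.Lib.MP_cad252_al.H89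

universe u

section Counts

variable {K : Type u} [Field K]

theorem E_mon_mul (i j : ℕ) (a b : FreeMagma ℕ) : E i j (mon K (a * b))
    = E i j (mon K a) * mon K b + mon K a * E i j (mon K b) := by
  rw [mon_mul]; exact der_mul _ _ _

theorem E_mul (i j : ℕ) (f g : FA K) : E i j (f * g) = E i j f * g + f * E i j g :=
  der_mul _ _ _

theorem E_mon_mem (i j : ℕ) (m : FreeMagma ℕ) : E i j (mon K m) ∈ MS K (fun m' =>
    ∀ l, cnt l m' + (if l = j then 1 else 0) = cnt l m + (if l = i then 1 else 0)) := by
  induction m with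
  | ih1 x =>
    rw [mon_of, E_of]
    by_cases h : x = j
    · rw [if_pos h, ← mon_of]
      refine mon_mem_MS fun l => ?_
      rw [cnt_of, cnt_of, h]
      by_cases h1 : l = i <;> by_cases h2 : l = j
      · simp [← h1, ← h2]
      · simp [← h1, h2, Ne.symm h2]
      · simp [← h2, h1, Ne.symm h1]
      · simp [h1, h2, Ne.symm h1, Ne.symm h2]
    · rw [if_neg h]; exact Submodule.zero_mem _
  | ih2 a b ha hb =>
    rw [E_mon_mul]
    refine Submodule.add_mem _ ?_ ?_
    · refine mul_MS (q := fun m => m = b) ?_ ha (mon_mem_MS rfl)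
      rintro a' _ ha' rfl l
      have := ha' l
      rw [cnt_mul, cnt_mul]; omega
    · refine mul_MS (p := fun m => m = a) ?_ (mon_mem_MS rfl) hb
      rintro _ b' rfl hb' l
      have := hb' l
      rw [cnt_mul, cnt_mul]; omega

theorem E_mon_wt (w : ℕ → ℕ) (i j : ℕ) (m : FreeMagma ℕ) : E i j (mon K m) ∈ MS K (fun m' =>
    wt w m' + w j = wt w m + w i) := by
  induction m with
  | ih1 x =>
    rw [mon_of, E_of]
    by_cases h : x = j
    · rw [if_pos h, ← mon_of]
      refine mon_mem_MS ?_
      rw [wt_of, wt_of, h, add_comm]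
    · rw [if_neg h]; exact Submodule.zero_mem _
  | ih2 a b ha hb =>
    rw [E_mon_mul]
    refine Submodule.add_mem _ ?_ ?_
    · refine mul_MS (q := fun m => m = b) ?_ ha (mon_mem_MS rfl)
      rintro a' _ ha' rfl
      rw [wt_mul, wt_mul]; omega
    · refine mul_MS (p := fun m => m = a) ?_ (mon_mem_MS rfl) hb
      rintro _ b' rfl hb'
      rw [wt_mul, wt_mul]; omega

theorem E_diag (j : ℕ) (m : FreeMagma ℕ) : E j j (mon K m) = (cnt j m : K) • mon K m := by
  induction m with
  | ih1 x =>
    rw [mon_of, E_of, cnt_of]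
    by_cases h : x = j
    · rw [if_pos h, if_pos h, h]; simp
    · rw [if_neg h, if_neg h]; simp
  | ih2 a b ha hb =>
    rw [E_mon_mul, ha, hb, cnt_mul, Nat.cast_add, add_smul, mon_mul, smul_mul_assoc,
      mul_smul_comm]

theorem E_zero (i j : ℕ) (m : FreeMagma ℕ) (h : cnt j m = 0) : E i j (mon K m) = 0 := by
  induction m with
  | ih1 x =>
    rw [cnt_of] at h
    rw [mon_of, E_of, if_neg]
    intro h1
    rw [if_pos h1] at h
    exact one_ne_zero h
  | ih2 a b ha hb =>
    rw [cnt_mul, Nat.add_eq_zero_iff] at h
    rw [E_mon_mul, ha h.1, hb h.2, zero_mul, mul_zero, add_zero]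

theorem E_glrel : GLRel (E (K := K)) := fun i j k l => E_comm i j k l

/-- Renaming of letters. -/
noncomputable def ren (K : Type u) [Field K] (r : ℕ → ℕ) : FA K →ₗ[K] FA K :=
  sbs fun x => of K (r x)

theorem ren_mon (r : ℕ → ℕ) (m : FreeMagma ℕ) : ren K r (mon K m) = mon K (rename r m) := by
  rw [ren, sbs_apply, lift_mon, ev_rename]

theorem ren_mul (r : ℕ → ℕ) (f g : FA K) : ren K r (f * g) = ren K r f * ren K r g :=
  sbs_mul _ _ _

theorem ren_of (r : ℕ → ℕ) (x : ℕ) : ren K r (of K x) = of K (r x) := by
  rw [← mon_of, ren, sbs_of]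

theorem ren_ren (r t : ℕ → ℕ) (f : FA K) : ren K t (ren K r f) = ren K (fun x => t (r x)) f := by
  unfold ren
  rw [sbs_apply, sbs_apply, sbs_apply, lift_lift]
  simp only [lift_of_apply]

theorem ren_id (f : FA K) : ren K (fun x => x) f = f := lift_of_self f

theorem ren_E (r : ℕ → ℕ) (hr : Function.Injective r) (i j : ℕ) (f : FA K) :
    ren K r (E i j f) = E (r i) (r j) (ren K r f) := by
  induction f using fa_ind with
  | h0 => simp
  | h1 m =>
    induction m with
    | ih1 x =>
      rw [mon_of, E_of, ren_of, E_of]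
      by_cases h : x = j
      · rw [if_pos h, if_pos (congrArg r h), ren_of]
      · rw [if_neg h, if_neg (fun h1 => h (hr h1)), map_zero]
    | ih2 a b ha hb =>
      rw [E_mon_mul, map_add, ren_mul, ren_mul, ha, hb, mon_mul, ren_mul, E_mul]
  | h2 f g hf hg => rw [map_add, map_add, map_add, map_add, hf, hg]
  | h3 c f hf => rw [map_smul, map_smul, map_smul, map_smul, hf]

theorem cnt_rename (r : ℕ → ℕ) (hr : Function.Injective r) (i : ℕ) (m : FreeMagma ℕ) :
    cnt (r i) (rename r m) = cnt i m := by
  induction m with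
  | ih1 x =>
    rw [rename_of, cnt_of, cnt_of]
    by_cases h : x = i
    · rw [if_pos h, if_pos (congrArg r h)]
    · rw [if_neg h, if_neg fun h1 => h (hr h1)]
  | ih2 a b ha hb => rw [rename_mul, cnt_mul, cnt_mul, ha, hb]

theorem cnt_rename_zero (r : ℕ → ℕ) (i : ℕ) (hi : ∀ x, r x ≠ i) (m : FreeMagma ℕ) :
    cnt i (rename r m) = 0 := by
  induction m with
  | ih1 x => rw [rename_of, cnt_of, if_neg (hi x)]
  | ih2 a b ha hb => rw [rename_mul, cnt_mul, ha, hb]

theorem ren_mem {I : Submodule K (FA K)} (hI : IsTIdeal K I) (r : ℕ → ℕ) {f : FA K} (hf : f ∈ I) :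
    ren K r f ∈ I := hI.subst _ _ hf

end Counts

section Alternation

variable {K : Type u} [Field K]

/-- The substitution attached to a permutation of the first `n` letters. -/
def pm {n : ℕ} (σ : Equiv.Perm (Fin n)) (j : ℕ) : ℕ := if h : j < n then (σ ⟨j, h⟩ : ℕ) else j

theorem pm_inj {n : ℕ} (σ : Equiv.Perm (Fin n)) : Function.Injective (pm σ) := by
  intro a b h
  unfold pm at h
  by_cases ha : a < n
  · by_cases hb : b < n
    · rw [dif_pos ha, dif_pos hb] at h
      have := σ.injective (Fin.ext h)
      exact congrArg Fin.val this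
    · rw [dif_pos ha, dif_neg hb] at h
      have := (σ ⟨a, ha⟩).2
      omega
  · by_cases hb : b < n
    · rw [dif_neg ha, dif_pos hb] at h
      have := (σ ⟨b, hb⟩).2
      omega
    · rw [dif_neg ha, dif_neg hb] at h
      exact h

theorem pm_lt {n : ℕ} (σ : Equiv.Perm (Fin n)) (i : Fin n) : pm σ i = σ i := by
  unfold pm; rw [dif_pos i.2]

theorem pm_ge {n : ℕ} (σ : Equiv.Perm (Fin n)) (i : ℕ) (h : n ≤ i) : pm σ i = i := by
  unfold pm; rw [dif_neg (by omega)]

/-- Polarisation along a list of letters. -/
noncomputable def opL (K : Type u) [Field K] {n : ℕ} (σ : Equiv.Perm (Fin n)) (L : List (Fin n)) :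
    Module.End K (FA K) := (L.map fun i => E (σ i : ℕ) (n + i : ℕ)).prod

theorem opL_cons {n : ℕ} (σ : Equiv.Perm (Fin n)) (i : Fin n) (L : List (Fin n)) (g : FA K) :
    opL K σ (i :: L) g = E (σ i : ℕ) (n + i : ℕ) (opL K σ L g) := by
  rw [opL, List.map_cons, List.prod_cons]; rfl

theorem opL_nil {n : ℕ} (σ : Equiv.Perm (Fin n)) (g : FA K) : opL K σ [] g = g := rfl

theorem opL_ren {n : ℕ} (σ : Equiv.Perm (Fin n)) (L : List (Fin n)) (g : FA K)
    (hg : g ∈ MS K fun m => ∀ j < n, cnt j m = 0) :
    ren K (pm σ) (opL K 1 L g) = opL K σ L g := by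
  induction L with
  | nil =>
    rw [opL_nil, opL_nil]
    have := eq_on_MS (K := K) (ren K (pm σ)) LinearMap.id (fun m hm => ?_) hg
    · exact this
    · rw [ren_mon, LinearMap.id_apply]
      congr 1
      induction m with
      | ih1 x =>
        have hx : n ≤ x := by
          by_contra h
          have := hm x (by omega)
          rw [cnt_of, if_pos rfl] at this
          exact one_ne_zero this
        rw [rename_of, pm_ge _ _ hx]
      | ih2 a b ha hb =>
        rw [rename_mul, ha, hb]
        · intro j hj
          have := hm j hj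
          rw [cnt_mul] at this
          omega
        · intro j hj
          have := hm j hj
          rw [cnt_mul] at this
          omega
  | cons i L ih =>
    have e1 : pm σ (n + (i : ℕ)) = n + i := pm_ge σ _ (by omega)
    have e2 : pm σ (((1 : Equiv.Perm (Fin n)) i : Fin n) : ℕ) = σ i := pm_lt σ i
    rw [opL_cons, opL_cons, ren_E _ (pm_inj σ), ih, e1, e2]

theorem opL_count {n : ℕ} (L : List (Fin n)) (g : FA K)
    (hg : g ∈ MS K fun m => ∀ j < n, cnt j m = 0) :
    opL K 1 L g ∈ MS K fun m => ∀ j : Fin n, cnt j m = L.count j := by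
  induction L with
  | nil =>
    rw [opL_nil]
    exact MS_mono (fun m hm j => by rw [hm j j.2]; rfl) hg
  | cons i L ih =>
    rw [opL_cons]
    refine map_MS (E _ _) _ (fun m hm => ?_) ih
    refine MS_mono (fun m' hm' j => ?_) (E_mon_mem _ _ m)
    have h1 := hm' j
    have h2 := hm j
    rw [List.count_cons, ← h2]
    rw [if_neg (by have := j.2; omega)] at h1
    simp only [Equiv.Perm.coe_one, id_eq] at h1
    rw [add_zero] at h1
    rw [h1]
    congr 1
    by_cases h : i = j
    · rw [h]; simp
    · have h3 : ¬ ((j : ℕ) = i) := fun h4 => h (Fin.ext h4.symm)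
      rw [if_neg h3, if_neg]
      simpa using h

open scoped IsMulCommutative in
/-- The commutative ring generated by the polarisations `x_{n+b} ↦ x_a`. -/
theorem exists_ring (n : ℕ) : ∃ (R : Type u) (_ : CommRing R) (φ : R →+* Module.End K (FA K))
    (B : Matrix (Fin n) (Fin n) R), ∀ a b, φ (B a b) = E (a : ℕ) (n + b : ℕ) := by
  have h : ∀ p ∈ (Set.range fun p : Fin n × Fin n => E (K := K) (p.1 : ℕ) (n + p.2 : ℕ)),
      ∀ q ∈ (Set.range fun p : Fin n × Fin n => E (K := K) (p.1 : ℕ) (n + p.2 : ℕ)),
      p * q = q * p := by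
    rintro _ ⟨p, rfl⟩ _ ⟨q, rfl⟩
    have h1 := p.1.2
    have h2 := q.1.2
    exact E_glrel.comm (by omega) (by omega)
  have := Algebra.isMulCommutative_adjoin K h
  refine ⟨Algebra.adjoin K (Set.range fun p : Fin n × Fin n => E (K := K) (p.1 : ℕ) (n + p.2 : ℕ)),
    inferInstance, (Subalgebra.val _ : _ →ₐ[K] _).toRingHom,
    Matrix.of fun a b => ⟨E (a : ℕ) (n + b : ℕ), Algebra.subset_adjoin ⟨(a, b), rfl⟩⟩, ?_⟩
  intro a b
  rfl

theorem DD_alt {n : ℕ} {R : Type u} [CommRing R] (φ : R →+* Module.End K (FA K))
    (B : Matrix (Fin n) (Fin n) R) (hφ : ∀ a b, φ (B a b) = E (a : ℕ) (n + b : ℕ))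
    (g : FA K) :
    DD φ B id id g = ∑ σ : Equiv.Perm (Fin n), (Equiv.Perm.sign σ : ℤ) •
      opL K σ (List.finRange n) g := by
  unfold DD
  rw [Matrix.submatrix_id_id, Matrix.det_apply, map_sum, LinearMap.sum_apply]
  refine Finset.sum_congr rfl fun σ _ => ?_
  have h1 : φ (∏ i, B (σ i) i) = opL K σ (List.finRange n) := by
    rw [← List.prod_ofFn, map_list_prod, List.map_ofFn, opL, List.ofFn_eq_map]
    congr 1
    refine List.map_congr_left fun i _ => ?_
    exact hφ _ _
  rw [Units.smul_def, map_zsmul, h1]
  rfl

end Alternation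

section Main

variable {K : Type u} [Field K] [CharZero K]

/-- The Capelli step for T-ideals. -/
theorem capelli_T {I' : Submodule K (FA K)} (hI' : IsTIdeal K I') (n : ℕ)
    (h2 : ∀ m : FreeMagma ℕ, (∀ i < n, cnt i m = 1) →
      ∑ σ : Equiv.Perm (Fin n), (Equiv.Perm.sign σ : ℤ) • lift K
        (fun j => if h : j < n then of K (σ ⟨j, h⟩ : ℕ) else of K j) (mon K m) ∈ I')
    (d : ℕ → ℕ) (f : FA K) (hf : f ∈ MS K fun m => ∀ i, cnt i m = d i)
    (hE : ∀ i j, i < j → j < n → E i j f ∈ I') :
    (∏ i : Fin n, ((d i : K) + (n - 1 - (i : ℕ) : ℤ))) • f ∈ I' := by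
  have hadd : Function.Injective fun x : ℕ => n + x := fun a b h => Nat.add_left_cancel h
  set g : FA K := ren K (fun x => n + x) f with hg
  have hg0 : g ∈ MS K fun m => ∀ j < n, cnt j m = 0 := by
    refine map_MS _ _ (fun m hm => ?_) hf
    rw [ren_mon]
    refine mon_mem_MS fun j hj => cnt_rename_zero _ _ (fun x => ?_) _
    omega
  obtain ⟨R, hR, φ, B, hφ⟩ := exists_ring (K := K) n
  -- the determinant lies in `I'`
  have hD : DD φ B id id g ∈ I' := by
    rw [DD_alt φ B hφ]
    have h3 : ∑ σ : Equiv.Perm (Fin n), (Equiv.Perm.sign σ : ℤ) • opL K σ (List.finRange n) g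
        = (∑ σ : Equiv.Perm (Fin n), (Equiv.Perm.sign σ : ℤ) • ren K (pm σ))
          (opL K 1 (List.finRange n) g) := by
      rw [LinearMap.sum_apply]
      refine Finset.sum_congr rfl fun σ _ => ?_
      rw [LinearMap.smul_apply, opL_ren σ _ g hg0]
    rw [h3]
    refine map_MS (p := fun m => ∀ i < n, cnt i m = 1) _ _ (fun m hm => ?_) ?_
    · have h4 := h2 m hm
      rw [LinearMap.sum_apply]
      convert h4 using 2 with σ
      rw [LinearMap.smul_apply]
      congr 1
      unfold ren
      rw [sbs_apply]
      congr 2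
      funext j
      unfold pm
      split_ifs <;> rfl
    · refine MS_mono (fun m hm i hi => ?_) (opL_count (List.finRange n) g hg0)
      rw [hm ⟨i, hi⟩]
      exact List.count_eq_one_of_mem (List.nodup_finRange n) (List.mem_finRange _)
  have hdiag : ∀ i : Fin n, E (K := K) (n + (i : ℕ)) (n + (i : ℕ)) g = (d i : K) • g := by
    intro i
    have h3 : E (K := K) (i : ℕ) (i : ℕ) f = (d i : K) • f := by
      have := eq_on_MS (K := K) (E (i : ℕ) (i : ℕ)) ((d i : K) • LinearMap.id) (fun m hm => ?_) hf
      · exact this
      · rw [E_diag, hm i]; rfl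
    rw [hg, ← ren_E _ hadd, h3, map_smul]
  have hfin := capelli φ B (Z := fun i : Fin n => (i : ℕ)) (X := fun i : Fin n => n + (i : ℕ))
    E_glrel hφ (fun a b h => Fin.ext h) (fun a b h => Fin.ext (Nat.add_left_cancel h))
    (fun a b => by have := a.2; omega) I' (fun i j v hv => E_mem hI' i j hv) id id
    (fun a b h => h) (fun a b h => h) (fun i => (d i : K)) g hdiag
    (fun i j hij => by
      simp only [id_eq]
      rw [hg, ← ren_E _ hadd]
      exact ren_mem hI' _ (hE i j hij j.2))
    (fun a j => by
      simp only [id_eq]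
      have := eq_on_MS (K := K) (E a (j : ℕ)) 0 (fun m hm => ?_) hg0
      · exact this
      · rw [E_zero _ _ _ (hm j j.2)]; rfl) hD
  have h5 := ren_mem hI' (fun x => x - n) hfin
  rw [map_smul, hg, ren_ren] at h5
  simp only [Nat.add_sub_cancel_left] at h5
  rw [ren_id] at h5
  exact h5

/-- **Rank reduction.** -/
theorem G2 {I I' : Submodule K (FA K)} (hI : IsTIdeal K I) (hI' : IsTIdeal K I') (N : ℕ)
    (h1 : ∀ f ∈ I, (∀ m ∈ f.coeff.support, ∀ i, N ≤ i → cnt i m = 0) → f ∈ I')
    (h2 : ∀ k, N < k → ∀ m : FreeMagma ℕ, (∀ i < k, cnt i m = 1) →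
      ∑ σ : Equiv.Perm (Fin k), (Equiv.Perm.sign σ : ℤ) • lift K
        (fun j => if h : j < k then of K (σ ⟨j, h⟩ : ℕ) else of K j) (mon K m) ∈ I') :
    I ≤ I' := by
  have key : ∀ k, ∀ f ∈ I, (∀ m ∈ f.coeff.support, ∀ i, k ≤ i → cnt i m = 0) → f ∈ I' := by
    intro k
    induction k with
    | zero => exact fun f hf h => h1 f hf fun m hm i _ => h m hm i (Nat.zero_le i)
    | succ k ihk =>
      by_cases hk : N ≤ k
      · have hw : ∀ w, ∀ f ∈ I, f ∈ MS K (fun m => (∀ i, k + 1 ≤ i → cnt i m = 0) ∧
            wt (fun j => j) m < w) → f ∈ I' := by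
          intro w
          induction w with
          | zero =>
            intro f _ hf
            have := eq_on_MS (K := K) LinearMap.id 0
              (fun m hm => absurd hm.2 (Nat.not_lt_zero _)) hf
            rw [LinearMap.id_apply] at this
            rw [this]; exact Submodule.zero_mem _
          | succ w ihw =>
            refine hom_reduce hI _ fun d f hf hp hd => ?_
            by_cases hdk : d k = 0
            · refine ihk f hf fun m hm i hi => ?_
              rcases Nat.eq_or_lt_of_le hi with h3 | h3
              · rw [← h3, hd m hm k, hdk]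
              · exact (hp m hm).1 i h3
            · have hcap := capelli_T hI' (k + 1) (h2 (k + 1) (by omega)) d f hd
                (fun i j hij hj => by
                  refine ihw _ (E_mem hI i j hf) ?_
                  refine map_MS _ _ (fun m hm => ?_) hp
                  intro m' hm'
                  have e1 := E_mon_mem i j m m' hm'
                  have e2 := E_mon_wt (fun j => j) i j m m' hm'
                  refine ⟨fun l hl => ?_, ?_⟩
                  · have e3 := e1 l
                    rw [hm.1 l hl, if_neg (by omega), if_neg (by omega)] at e3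
                    omega
                  · have e3 := hm.2
                    simp only at e2
                    omega)
              have hne : (∏ i : Fin (k + 1), ((d i : K) + (((k + 1 : ℕ) : ℤ) - 1 - (i : ℕ) : ℤ)))
                  ≠ 0 := by
                rw [Finset.prod_ne_zero_iff]
                intro i _
                have h4 : ((d i : K) + (((k + 1 : ℕ) : ℤ) - 1 - (i : ℕ) : ℤ))
                    = ((d i + (k - (i : ℕ)) : ℕ) : K) := by
                  have := i.2
                  have h5 : (((k + 1 : ℕ) : ℤ) - 1 - (i : ℕ) : ℤ) = ((k - (i : ℕ) : ℕ) : ℤ) := by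
                    omega
                  rw [h5]
                  push_cast
                  rfl
                rw [h4, Nat.cast_ne_zero]
                have := i.2
                by_cases h5 : (i : ℕ) = k
                · rw [h5]; omega
                · omega
              have h6 := Submodule.smul_mem I' (∏ i : Fin (k + 1),
                ((d i : K) + (((k + 1 : ℕ) : ℤ) - 1 - (i : ℕ) : ℤ)))⁻¹ hcap
              rwa [smul_smul, inv_mul_cancel₀ hne, one_smul] at h6
        intro f hf hfk
        refine hw (f.coeff.support.sup (wt fun j => j) + 1) f hf fun m hm => ⟨hfk m hm, ?_⟩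
        exact Nat.lt_succ_of_le (Finset.le_sup (f := wt fun j => j) hm)
      · intro f hf h
        exact h1 f hf fun m hm i hi => h m hm i (by omega)
  intro f hf
  obtain ⟨n, hn⟩ := exists_letters f
  exact key n f hf hn

omit [CharZero K] in
theorem ren_back (n i : ℕ) (m : FreeMagma ℕ) (h : cnt n m = 0) :
    ren K (fun l => if l = n then i else l) (mon K m) = mon K m ∧
    ren K (fun l => if l = n then i else l) (E n i (mon K m)) = (cnt i m : K) • mon K m := by
  induction m with
  | ih1 x =>
    have hx : x ≠ n := by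
      intro h1
      rw [cnt_of, if_pos h1] at h
      exact one_ne_zero h
    constructor
    · rw [mon_of, ren_of, if_neg hx]
    · rw [mon_of, E_of, cnt_of]
      by_cases h1 : x = i
      · rw [if_pos h1, if_pos h1, ren_of, if_pos rfl, h1]; simp
      · rw [if_neg h1, if_neg h1]; simp
  | ih2 a b ha hb =>
    rw [cnt_mul, Nat.add_eq_zero_iff] at h
    obtain ⟨ha1, ha2⟩ := ha h.1
    obtain ⟨hb1, hb2⟩ := hb h.2
    constructor
    · rw [mon_mul, ren_mul, ha1, hb1]
    · rw [E_mon_mul, map_add, ren_mul, ren_mul, ha1, ha2, hb1, hb2, cnt_mul, Nat.cast_add,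
        add_smul, mon_mul, smul_mul_assoc, mul_smul_comm]

/-- **Linearisation.** -/
theorem G1 {I : Submodule K (FA K)} (hI : IsTIdeal K I) {f : FA K} (hf : f ∈ I) :
    f ∈ Submodule.span K {g | ∃ (J : Finset ℕ) (w : FA K) (s : ℕ → FA K), w ∈ I ∧
      (∀ m ∈ w.coeff.support, ∀ i, cnt i m = if i ∈ J then 1 else 0) ∧ g = lift K s w} := by
  classical
  set T := Submodule.span K {g | ∃ (J : Finset ℕ) (w : FA K) (s : ℕ → FA K), w ∈ I ∧
      (∀ m ∈ w.coeff.support, ∀ i, cnt i m = if i ∈ J then 1 else 0) ∧ g = lift K s w} with hT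
  have hTs : ∀ (t : ℕ → FA K), ∀ g ∈ T, sbs t g ∈ T := by
    intro t g hg
    induction hg using Submodule.span_induction with
    | mem g hg =>
      obtain ⟨J, w, s, hw, hJ, rfl⟩ := hg
      refine Submodule.subset_span ⟨J, w, fun i => lift K t (s i), hw, hJ, ?_⟩
      rw [sbs_apply, lift_lift]
    | zero => rw [map_zero]; exact Submodule.zero_mem _
    | add a b _ _ ha hb => rw [map_add]; exact Submodule.add_mem _ ha hb
    | smul c a _ ha => rw [map_smul]; exact Submodule.smul_mem _ _ ha
  have key : ∀ e n : ℕ, ∀ d : ℕ → ℕ, (∀ i, n ≤ i → d i = 0) →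
      ∑ i ∈ Finset.range n, (d i - 1) ≤ e → ∀ f ∈ I, f ∈ MS K (fun m => ∀ i, cnt i m = d i) →
      f ∈ T := by
    intro e
    induction e with
    | zero =>
      intro n d hd he f hf hfd
      refine Submodule.subset_span ⟨(Finset.range n).filter fun i => d i = 1, f,
        fun x => of K x, hf, ?_, (lift_of_self f).symm⟩
      intro m hm i
      rw [hfd m hm i]
      by_cases hi : i < n
      · have h1 : d i - 1 = 0 := by
          have := Finset.sum_eq_zero_iff.1 (Nat.le_zero.1 he) i (Finset.mem_range.2 hi)
          exact this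
        by_cases h2 : d i = 1
        · rw [if_pos (by simp [hi, h2]), h2]
        · rw [if_neg (by simp [h2])]; omega
      · rw [hd i (by omega), if_neg (by simp [hi])]
    | succ e ih =>
      intro n d hd he f hf hfd
      by_cases hex : ∃ i < n, 2 ≤ d i
      · obtain ⟨i, hi, hdi⟩ := hex
        have hin : i ≠ n := by omega
        have h1 : E n i f ∈ T := by
          refine ih (n + 1) (fun l => if l = i then d i - 1 else if l = n then 1 else d l) ?_ ?_ _
            (E_mem hI n i hf) ?_
          · intro l hl
            rw [if_neg (by omega), if_neg (by omega)]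
            exact hd l (by omega)
          · rw [Finset.sum_range_succ]
            rw [if_neg (Ne.symm hin), if_pos rfl]
            have h2 : ∑ l ∈ Finset.range n,
                ((if l = i then d i - 1 else if l = n then 1 else d l) - 1) + 1
                = ∑ l ∈ Finset.range n, (d l - 1) := by
              rw [← Finset.add_sum_erase _ _ (Finset.mem_range.2 hi),
                ← Finset.add_sum_erase _ (fun l => d l - 1) (Finset.mem_range.2 hi)]
              rw [if_pos rfl]
              have h3 : ∑ l ∈ (Finset.range n).erase i,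
                  ((if l = i then d i - 1 else if l = n then 1 else d l) - 1)
                  = ∑ l ∈ (Finset.range n).erase i, (d l - 1) := by
                refine Finset.sum_congr rfl fun l hl => ?_
                rw [Finset.mem_erase, Finset.mem_range] at hl
                rw [if_neg hl.1, if_neg (by omega)]
              rw [h3]
              omega
            omega
          · refine map_MS _ _ (fun m hm => ?_) hfd
            refine MS_mono (fun m' hm' l => ?_) (E_mon_mem n i m)
            have h2 := hm' l
            rw [hm l] at h2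
            by_cases h3 : l = i
            · rw [if_pos h3, if_neg (by omega)] at h2
              rw [if_pos h3]
              rw [h3] at h2 ⊢
              omega
            · rw [if_neg h3] at h2 ⊢
              by_cases h4 : l = n
              · rw [if_pos h4, hd l (by omega)] at h2
                rw [if_pos h4]
                omega
              · rw [if_neg h4] at h2 ⊢
                omega
        have h2 : ren K (fun l => if l = n then i else l) (E n i f) = (d i : K) • f := by
          have := eq_on_MS (K := K) (ren K (fun l => if l = n then i else l) ∘ₗ E n i)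
            ((d i : K) • LinearMap.id) (fun m hm => ?_) hfd
          · exact this
          · rw [LinearMap.comp_apply,
              (ren_back n i m (by rw [hm n]; exact hd n le_rfl)).2, hm i]
            rfl
        have h3 := hTs (fun x => of K (if x = n then i else x)) _ h1
        have h4 : (d i : K) • f ∈ T := by rw [← h2]; exact h3
        have h5 : (d i : K) ≠ 0 := Nat.cast_ne_zero.2 (by omega)
        have h6 := Submodule.smul_mem T ((d i : K))⁻¹ h4
        rwa [smul_smul, inv_mul_cancel₀ h5, one_smul] at h6
      · refine ih n d hd ?_ f hf hfd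
        rw [Finset.sum_eq_zero]
        · exact Nat.zero_le _
        · intro i hi
          by_contra h
          exact hex ⟨i, Finset.mem_range.1 hi, by omega⟩
  refine hom_reduce hI (fun _ => True) (fun d f hf _ hd => ?_) f hf (fun _ _ => trivial)
  by_cases h0 : f = 0
  · rw [h0]; exact Submodule.zero_mem _
  · obtain ⟨n, hn⟩ := exists_letters f
    obtain ⟨m, hm⟩ : ∃ m, m ∈ f.coeff.support := by
      by_contra h
      push Not at h
      apply h0
      rw [eq_sum K f, Finset.eq_empty_of_forall_notMem h, Finset.sum_empty]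
    exact key _ n d (fun i hi => by rw [← hd m hm i]; exact hn m hm i hi) le_rfl f hf hd

end Main

end Pool.Agent.Lib.MP_cad252_al.Z.G86

namespace Pool.Agent.Lib.MP_cad252_al.Z

open FreeNonUnitalNonAssocAlgebra Pool.Agent.Lib.MP_cad252_al.H89

universe u

variable {K : Type u} [Field K] [CharZero K]

/-- T-ideals are closed under components with respect to the degree in a letter. -/
theorem component_mem {I : Submodule K (FA K)} (hI : IsTIdeal K I) (i d : ℕ) {f : FA K}
    (hf : f ∈ I) : (∑ m ∈ f.coeff.support, if cnt i m = d then f.coeff m • mon K m else 0) ∈ I := by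
  have h1 := G86.wproj_mem hI (fun j => if j = i then 1 else 0) d hf
  rw [G86.lin_apply] at h1
  convert h1 using 2 with m
  rw [G86.proj_mon, G86.wt_single]
  split_ifs <;> simp

/-- T-ideals are closed under the derivations `x_j ↦ s j`. -/
theorem derivation_mem {I : Submodule K (FA K)} (hI : IsTIdeal K I) (D : FA K →ₗ[K] FA K)
    (hD : ∀ f g, D (f * g) = D f * g + f * D g) {f : FA K} (hf : f ∈ I) : D f ∈ I := by
  have h1 : D = G86.der fun j => D (of K j) := by
    apply G86.lin_ext
    intro m
    induction m with
    | ih1 x => rw [G86.der_of, mon_of]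
    | ih2 a b ha hb => rw [mon_mul, hD, G86.der_mul, ha, hb]
  rw [h1]
  exact G86.der_mem hI _ hf

/-- **Linearisation**: in characteristic zero every element of a T-ideal is a combination of
substitution instances of multilinear elements of it. -/
theorem G1 {I : Submodule K (FA K)} (hI : IsTIdeal K I) {f : FA K} (hf : f ∈ I) :
    f ∈ Submodule.span K {g | ∃ (J : Finset ℕ) (w : FA K) (s : ℕ → FA K), w ∈ I ∧
      (∀ m ∈ w.coeff.support, ∀ i, cnt i m = if i ∈ J then 1 else 0) ∧ g = lift K s w} :=
  G86.G1 hI hf

/-- **Rank reduction**: if the T-ideal `I'` contains all elements of the T-ideal `I` in the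
letters `< N` and all polynomials which alternate in more than `N` letters, then `I ≤ I'`. -/
theorem G2 {I I' : Submodule K (FA K)} (hI : IsTIdeal K I) (hI' : IsTIdeal K I') (N : ℕ)
    (h1 : ∀ f ∈ I, (∀ m ∈ f.coeff.support, ∀ i, N ≤ i → cnt i m = 0) → f ∈ I')
    (h2 : ∀ k, N < k → ∀ m : FreeMagma ℕ, (∀ i < k, cnt i m = 1) →
      ∑ σ : Equiv.Perm (Fin k), (Equiv.Perm.sign σ : ℤ) • lift K
        (fun j => if h : j < k then of K (σ ⟨j, h⟩ : ℕ) else of K j) (mon K m) ∈ I') :
    I ≤ I' := G86.G2 hI hI' N h1 h2

end Pool.Agent.Lib.MP_cad252_al.Z
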