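import Pool.Agent.Lib.MP_cad252_al.Z.Rep3
import Pool.Agent.Lib.MP_cad252_al.H89.Span

/-!
The Jacobian ideal of a Malcev algebra of characteristic zero.
-/

set_option linter.unusedSimpArgs false
set_option linter.unusedSectionVars false

namespace Pool.Agent.Lib.MP_cad252_al.Z

open Pool.Agent.Lib.MP_cad252_al.H89

section rep

variable {K A R : Type*} [Field K] [CharZero K] [NonUnitalNonAssocRing A] [Module K A] [Ring R]
  [Algebra K R] {L : A →ₗ[K] R}

theorem P_eq (h : MRep L) (x u v : A) :
    (2 : K) • (L x * D L u v) = D L x u * L v - D L x v * L u + D L (u * v) x := by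
  have Dsmu : ∀ p q : A, D L u (p * q) = -D L (p * q) u := fun p q => D_swap h _ _
  have Dsmv : ∀ p q : A, D L v (p * q) = -D L (p * q) v := fun p q => D_swap h _ _
  have Dsmx : ∀ p q : A, D L x (p * q) = -D L (p * q) x := fun p q => D_swap h _ _
  have Dswuv : D L v u = -D L u v := D_swap h _ _
  have Dswux : D L x u = -D L u x := D_swap h _ _
  have Dswvx : D L x v = -D L v x := D_swap h _ _
  have j0 := S_eq h u v x
  have j1 := S_eq h x u v
  simp only [Mo, L_mul, D_mul_left h, Jac, D_add_left, D_add_right, D_neg_left, D_neg_right,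
    map_add, map_neg, map_smul, D_self h, neg_mul, mul_neg, neg_neg, mul_add, add_mul, mul_sub,
      sub_mul,
    mul_assoc, mul_zero, zero_mul, neg_zero, smul_add, smul_sub, smul_neg, smul_zero,
    smul_mul_assoc, mul_smul_comm, smul_smul,
    Dsmu, Dsmv, Dsmx, Dswuv, Dswux, Dswvx]
    at j0 j1 ⊢
  linear_combination (norm := module) (1 / 2 : K) • j0 + (1 : K) • j1

theorem LJ_eq (h : MRep L) (x y z : A) :
    (2 : K) • L (Jac x y z) = D L (x * y) z + D L (y * z) x + D L (z * x) y := by
  have a1 : D L y x = -D L x y := D_swap h _ _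
  have a2 : D L z x = -D L x z := D_swap h _ _
  have a3 : D L z y = -D L y z := D_swap h _ _
  simp only [Jac, map_add, D_mul_left h, L_mul, a1, a2, a3, mul_add, add_mul, mul_sub, sub_mul,
    neg_mul, mul_neg, mul_assoc]
  module

theorem M_sub (x y z : A) : Mo L (x + y) z = Mo L x z + Mo L y z := by
  simp only [Mo, add_mul, map_add, D_add_left]
  module

theorem M_neg (x z : A) : Mo L (-x) z = -Mo L x z := by
  simp only [Mo, neg_mul, map_neg, D_neg_left]
  module

end rep

section alg

variable (K : Type*) {A : Type*} [Field K] [CharZero K] [NonUnitalNonAssocRing A] [Module K A]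
  [IsScalarTower K A A] [SMulCommClass K A A]

/-- Left multiplications. -/
noncomputable def Lm : A →ₗ[K] Module.End K A := LinearMap.mul K A

theorem Lm_apply (x y : A) : Lm K x y = x * y := rfl

theorem Jac_cyc (x y z : A) : Jac y z x = Jac x y z := by
  unfold Jac; abel

theorem Jac_swap (hA : IsMalcev A) (x y z : A) : Jac y x z = -Jac x y z := by
  have a := hA.anticomm
  unfold Jac
  rw [a y x, a x z, a z y]
  simp only [neg_mul]
  abel

theorem D_apply (hA : IsMalcev A) (x y z : A) : D (Lm K) x y z = Jac x y z := by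
  have a := hA.anticomm
  simp only [D, LinearMap.add_apply, LinearMap.sub_apply, Module.End.mul_apply, Lm_apply, Jac]
  rw [a (y * z) x, a (z * x) y, a z x]
  simp only [mul_neg]
  abel

theorem mrep (hA : IsMalcev A) : MRep (Lm K (A := A)) where
  sq := hA.sq
  m1 := by
    intro x y t
    ext z
    simp only [LinearMap.add_apply, Module.End.mul_apply, D_apply K hA, Lm_apply,
      LinearMap.zero_apply]
    have e := hA.lin x y z t
    have a := hA.anticomm
    rw [a (Jac x y z) t, a (Jac t y z) x] at e
    linear_combination (norm := abel) e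
  m3 := by
    intro t y z
    ext w
    simp only [LinearMap.add_apply, LinearMap.sub_apply, Module.End.mul_apply, D_apply K hA,
      Lm_apply, LinearMap.zero_apply]
    have e := hA.lin w y z t
    have a := hA.anticomm
    have e1 : Jac w y (t * z) = Jac y (t * z) w := (Jac_cyc w y (t * z)).symm
    have e2 : Jac t y (w * z) = -Jac t y (z * w) := by
      rw [a w z]; unfold Jac; simp only [mul_neg, neg_mul]; abel
    have e3 : Jac w y z = Jac y z w := (Jac_cyc w y z).symm
    rw [e1, e2, e3, a (Jac y z w) t] at e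
    linear_combination (norm := abel) e

theorem jac_mul (hA : IsMalcev A) (x u v w : A) :
    x * Jac u v w = (1 / 2 : K) • (D (Lm K) x u (v * w) + D (Lm K) x v (w * u)
      + D (Lm K) x w (u * v)) := by
  have h := mrep K hA
  have e := congrArg (fun T : Module.End K A => T w) (P_eq h x u v)
  simp only [LinearMap.add_apply, LinearMap.sub_apply, LinearMap.smul_apply,
    Module.End.mul_apply, Lm_apply, D_apply K hA] at e ⊢
  have a := hA.anticomm
  have e1 : Jac (u * v) x w = Jac x w (u * v) := (Jac_cyc (u * v) x w).symm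
  have e2 : Jac x v (w * u) = -Jac x v (u * w) := by
    rw [a w u]; unfold Jac; simp only [mul_neg, neg_mul]; abel
  rw [e2]
  rw [e1] at e
  linear_combination (norm := module) (1 / 2 : K) • e

theorem jacobianSubspace_eq_span0 (hA : IsMalcev A) :
    jacobianSubspace K A = Submodule.span K {j | ∃ x y z : A, j = Jac x y z} := by
  apply le_antisymm
  · refine jacobianSubspace_le K A _ (fun x y z => Submodule.subset_span ⟨x, y, z, rfl⟩) ?_
    have hr : ∀ a : A, ∀ x ∈ Submodule.span K {j | ∃ x y z : A, j = Jac x y z},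
        a * x ∈ Submodule.span K {j | ∃ x y z : A, j = Jac x y z} := by
      intro a x hx
      induction hx using Submodule.span_induction with
      | mem x hx =>
        obtain ⟨p, q, r, rfl⟩ := hx
        rw [jac_mul K hA]
        simp only [D_apply K hA]
        exact Submodule.smul_mem _ _ (Submodule.add_mem _ (Submodule.add_mem _
          (Submodule.subset_span ⟨_, _, _, rfl⟩)
          (Submodule.subset_span ⟨_, _, _, rfl⟩)) (Submodule.subset_span ⟨_, _, _, rfl⟩))
      | zero => rw [mul_zero]; exact Submodule.zero_mem _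
      | add x y _ _ hx hy => rw [mul_add]; exact Submodule.add_mem _ hx hy
      | smul c x _ hx => rw [mul_smul_comm]; exact Submodule.smul_mem _ _ hx
    intro a x hx
    refine ⟨hr a x hx, ?_⟩
    rw [hA.anticomm]
    exact Submodule.neg_mem _ (hr a x hx)
  · refine Submodule.span_le.2 ?_
    rintro _ ⟨x, y, z, rfl⟩
    exact Jac_mem K A x y z

/-- An operator that kills all Jacobians kills `J(A)`. -/
theorem kill_of (hA : IsMalcev A) (T : Module.End K A)
    (hT : ∀ u v w : A, T (Jac u v w) = 0) (p : A) (hp : p ∈ jacobianSubspace K A) : T p = 0 := by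
  rw [jacobianSubspace_eq_span0 K hA] at hp
  induction hp using Submodule.span_induction with
  | mem x hx => obtain ⟨u, v, w, rfl⟩ := hx; exact hT u v w
  | zero => exact map_zero _
  | add x y _ _ hx hy => rw [map_add, hx, hy, add_zero]
  | smul c x _ hx => rw [map_smul, hx, smul_zero]

theorem f1_kill (hA : IsMalcev A) (x y : A) (p : A) (hp : p ∈ jacobianSubspace K A) :
    (Lm K x * Mo (Lm K) x y * Lm K x) p = 0 := by
  refine kill_of K hA _ (fun u v w => ?_) p hp
  have h := mrep K hA
  have e : ∀ a b : A, (Lm K x * Mo (Lm K) x y) (D (Lm K) x a b) = 0 := by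
    intro a b
    have := congrArg (fun T : Module.End K A => T b) (Q_eq h x y a)
    simpa only [Module.End.mul_apply, LinearMap.zero_apply] using this
  rw [Module.End.mul_apply, Lm_apply, jac_mul K hA, map_smul, map_add, map_add, e, e, e]
  simp

theorem Fl_kill (hA : IsMalcev A) (a d c : A) (p : A) (hp : p ∈ jacobianSubspace K A) :
    Fl (Lm K) a d c p = 0 := by
  have e1 := f1_kill K hA (a + d) c p hp
  have e2 := f1_kill K hA (a + -d) c p hp
  have e3 := f1_kill K hA d c p hp
  simp only [M_sub, M_neg, map_add, map_neg, add_mul, mul_add, neg_mul, mul_neg,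
    LinearMap.add_apply, LinearMap.neg_apply] at e1 e2
  simp only [Fl, LinearMap.add_apply]
  linear_combination (norm := module) (1 / 2 : K) • e1 - (1 / 2 : K) • e2 - (1 : K) • e3

theorem F2_kill (hA : IsMalcev A) (a c d : A) (p : A) (hp : p ∈ jacobianSubspace K A) :
    F2 (Lm K) a c d p = 0 := by
  refine kill_of K hA _ (fun u v w => ?_) p hp
  have h := mrep K hA
  have e : ∀ u w : A, (Lm K c * Mo (Lm K) a d) (D (Lm K) a u w)
      - (Mo (Lm K) c d * Lm K a) (D (Lm K) a u w) + (Mo (Lm K) a d * Lm K a) (D (Lm K) c u w)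
      + (Lm K a * Mo (Lm K) a c) (D (Lm K) d u w) - (Mo (Lm K) a c * Lm K a) (D (Lm K) d u w)
      + Mo (Lm K) a d (D (Lm K) (a * c) u w) - Mo (Lm K) a c (D (Lm K) (a * d) u w) = 0 := by
    intro u w
    have := congrArg (fun T : Module.End K A => T w) (R_eq h a c d u)
    simpa only [Module.End.mul_apply, LinearMap.zero_apply, LinearMap.add_apply,
      LinearMap.sub_apply] using this
  have e1 := e u (v * w)
  have e2 := e v (w * u)
  have e3 := e w (u * v)
  have g : ∀ t : A, ∀ T : Module.End K A, (T * Lm K t) (Jac u v w) =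
      (1 / 2 : K) • (T (D (Lm K) t u (v * w)) + T (D (Lm K) t v (w * u))
      + T (D (Lm K) t w (u * v))) := by
    intro t T
    rw [Module.End.mul_apply, Lm_apply, jac_mul K hA, map_smul, map_add, map_add]
  simp only [F2, LinearMap.add_apply, LinearMap.sub_apply, g]
  linear_combination (norm := module) (1 / 2 : K) • e1 + (1 / 2 : K) • e2 + (1 / 2 : K) • e3

/-! ### The operation `q` and the operators -/

theorem Mo_apply (hA : IsMalcev A) (x y z : A) : Mo (Lm K) x y z = Me K x y z := by
  simp only [Mo, LinearMap.sub_apply, LinearMap.smul_apply, Lm_apply, D_apply K hA, Me]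

theorem Q2_apply (hA : IsMalcev A) (x w a b : A) : Q2 (Lm K) x a b w = q K x w a b := by
  simp only [Q2, LinearMap.smul_apply, LinearMap.sub_apply, Module.End.mul_apply, Lm_apply,
    Mo_apply K hA, q]

theorem Mp_apply (hA : IsMalcev A) (x y p : A) : Mp (Lm K) x y p = Me K x p y := by
  simp only [Mp, LinearMap.sub_apply, LinearMap.neg_apply, LinearMap.smul_apply,
    Module.End.mul_apply, Lm_apply, D_apply K hA, Me]
  rw [hA.anticomm (x * p) y, ← Jac_cyc x p y, ← Jac_cyc p y x]

theorem Q3_apply (hA : IsMalcev A) (x y p b : A) : Q3 (Lm K) x y b p = q K x y p b := by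
  simp only [Q3, LinearMap.sub_apply, LinearMap.neg_apply, LinearMap.smul_apply,
    Module.End.mul_apply, Lm_apply, Mp_apply K hA, q]
  rw [hA.anticomm p]

theorem q_symm (hA : IsMalcev A) (x y a b : A) : q K x y a b = q K y x a b := by
  have h := mrep K hA
  have e := congrArg (fun T : Module.End K A => T y) (V1_eq h x a b)
  simp only [Q2_apply K hA] at e
  rw [e]
  simp only [q, LinearMap.sub_apply, LinearMap.add_apply, LinearMap.neg_apply,
    LinearMap.smul_apply, Module.End.mul_apply, Lm_apply, D_apply K hA, Me]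
  have c1 : Jac b x y = Jac y b x := (Jac_cyc b x y).symm.trans (Jac_cyc _ _ _).symm
  have c2 : Jac a x y = Jac y a x := (Jac_cyc a x y).symm.trans (Jac_cyc _ _ _).symm
  have a0 := hA.anticomm
  have d1 : x * (b * y) = (y * b) * x := by rw [a0 b y, mul_neg, a0 x, neg_neg]
  have d2 : x * (a * y) = (y * a) * x := by rw [a0 a y, mul_neg, a0 x, neg_neg]
  rw [c1, c2, d1, d2]
  rw [a0 y ((b * a) * x - (1 / 3 : K) • Jac b a x)]
  module

end alg

end Pool.Agent.Lib.MP_cad252_al.Z
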