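import Pool.Agent.Lib.MP_cad252_al.Z.Ops

/-!
The normal form of words.
-/

set_option linter.unusedSimpArgs false
set_option linter.unusedSectionVars false

namespace Pool.Agent.Lib.MP_cad252_al.Z

open Pool.Agent.Lib.MP_cad252_al.H89 FreeNonUnitalNonAssocAlgebra

universe u v w

section nf

variable {K : Type u} [Field K] [CharZero K] {I : Submodule K (FA K)} (hI : IsTIdeal K I)
  (hS : ∀ f ∈ S0 K, f ∈ I) (hL : Lin I)

/-- The image of a word. -/
noncomputable def mm (hI : IsTIdeal K I) (m : FreeMagma ℕ) : Qt hI := pj hI (mon K m)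

theorem mm_mul (a b : FreeMagma ℕ) : mm hI (a * b) = mm hI a * mm hI b := by
  rw [mm, mon_mul, pj_mul]; rfl

theorem exists_mul {m : FreeMagma ℕ} (h : 2 ≤ m.length) : ∃ a b, m = a * b := by
  induction m with
  | ih1 i => rw [length_of] at h; omega
  | ih2 a b _ _ => exact ⟨a, b, rfl⟩

/-- The words of the form `((ab)c)d` with the same content as `m`. -/
def LN (hI : IsTIdeal K I) (m : FreeMagma ℕ) : Set (Qt hI) :=
  {z | ∃ a b c d : FreeMagma ℕ, z = mm hI (((a * b) * c) * d) ∧
    (((a * b) * c) * d).length = m.length ∧ ∀ i, cnt i (((a * b) * c) * d) = cnt i m}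

theorem LN_congr {m m' : FreeMagma ℕ} (h1 : m.length = m'.length) (h2 : ∀ i, cnt i m = cnt i m') :
    LN hI m = LN hI m' := by
  unfold LN
  simp only [h1, h2]

include hS in
theorem mm_swap (a b : FreeMagma ℕ) : mm hI (a * b) = -mm hI (b * a) := by
  rw [mm_mul, mm_mul, (isW_Qt hI hS).mal.anticomm]

theorem mem_LN {m : FreeMagma ℕ} (a b c d : FreeMagma ℕ)
    (h1 : (((a * b) * c) * d).length = m.length)
    (h2 : ∀ i, cnt i (((a * b) * c) * d) = cnt i m) :
    mm hI (((a * b) * c) * d) ∈ Submodule.span K (LN hI m) :=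
  Submodule.subset_span ⟨a, b, c, d, rfl, h1, h2⟩

include hS in
theorem L4a (y₁ y₂ : FreeMagma ℕ) (h : 3 ≤ y₁.length) :
    mm hI (y₁ * y₂) ∈ Submodule.span K (LN hI (y₁ * y₂)) := by
  obtain ⟨z₁, z₂, rfl⟩ := exists_mul (by omega : 2 ≤ y₁.length)
  rw [length_mul] at h
  by_cases h1 : 2 ≤ z₁.length
  · obtain ⟨a, b, rfl⟩ := exists_mul h1
    exact mem_LN hI _ _ _ _ rfl (fun _ => rfl)
  · obtain ⟨a, b, rfl⟩ := exists_mul (by omega : 2 ≤ z₂.length)
    have e : mm hI ((z₁ * (a * b)) * y₂) = -mm hI (((a * b) * z₁) * y₂) := by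
      rw [mm_mul, mm_swap hI hS, neg_mul, ← mm_mul]
    rw [e]
    refine Submodule.neg_mem _ (mem_LN hI _ _ _ _ ?_ ?_)
    · simp only [length_mul]; omega
    · intro i; simp only [cnt_mul]; omega

include hS in
theorem L4 (m : FreeMagma ℕ) (h : 4 ≤ m.length) : mm hI m ∈ Submodule.span K (LN hI m) := by
  obtain ⟨y₁, y₂, rfl⟩ := exists_mul (by omega : 2 ≤ m.length)
  rw [length_mul] at h
  by_cases h1 : 3 ≤ y₁.length
  · exact L4a hI hS y₁ y₂ h1
  · by_cases h2 : 3 ≤ y₂.length
    · rw [mm_swap hI hS]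
      have e : LN hI (y₁ * y₂) = LN hI (y₂ * y₁) := by
        apply LN_congr
        · simp only [length_mul]; omega
        · intro i; simp only [cnt_mul]; omega
      rw [e]
      exact Submodule.neg_mem _ (L4a hI hS y₂ y₁ h2)
    · obtain ⟨x, z, rfl⟩ := exists_mul (by omega : 2 ≤ y₁.length)
      obtain ⟨y, t, rfl⟩ := exists_mul (by omega : 2 ≤ y₂.length)
      have e := sagle K (isW_Qt hI hS).mal (mm hI x) (mm hI y) (mm hI z) (mm hI t)
      simp only [← mm_mul] at e
      rw [e]
      refine Submodule.add_mem _ (Submodule.add_mem _ (Submodule.add_mem _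
        (mem_LN hI _ _ _ _ ?_ ?_) (mem_LN hI _ _ _ _ ?_ ?_)) (mem_LN hI _ _ _ _ ?_ ?_))
        (mem_LN hI _ _ _ _ ?_ ?_)
      all_goals first
        | (simp only [length_mul]; omega)
        | (intro i; simp only [cnt_mul]; omega)

/-- The elements `t a b w` with the same content as `m`. -/
def TS (hI : IsTIdeal K I) (hS : ∀ f ∈ S0 K, f ∈ I) (hL : Lin I) (m : FreeMagma ℕ) :
    Set (Qt hI) :=
  {z | ∃ a b w : FreeMagma ℕ, z = tt hI hS hL (mm hI a) (mm hI b) (mm hI w) ∧ 2 ≤ w.length ∧
    a.length + b.length + w.length = m.length ∧ ∀ i, cnt i a + cnt i b + cnt i w = cnt i m}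

theorem mem_TS {m : FreeMagma ℕ} (a b c d : FreeMagma ℕ)
    (h1 : a.length + b.length + (c * d).length = m.length)
    (h2 : ∀ i, cnt i a + cnt i b + cnt i (c * d) = cnt i m) :
    q K (mm hI a) (mm hI b) (mm hI c) (mm hI d) ∈ Submodule.span K (TS hI hS hL m) := by
  refine Submodule.subset_span ⟨a, b, c * d, ?_, ?_, h1, h2⟩
  · rw [mm_mul, tt_mul]
  · have := c.length_pos
    have := d.length_pos
    rw [length_mul]; omega

theorem L7a (y e : FreeMagma ℕ) (h : 4 ≤ y.length) :
    mm hI (y * e) ∈ Submodule.span K (TS hI hS hL (y * e)) := by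
  rw [mm_mul]
  have h1 := L4 hI hS y h
  refine Submodule.span_induction (p := fun z _ => z * mm hI e ∈ Submodule.span K
    (TS hI hS hL (y * e))) ?_ ?_ ?_ ?_ h1
  · rintro z ⟨a, b, c, d, rfl, hl, hc⟩
    simp only [length_mul] at hl
    simp only [cnt_mul] at hc
    have e5 := E5 K (isW_Qt hI hS) (mm hI a) (mm hI b) (mm hI c) (mm hI d) (mm hI e)
    simp only [← mm_mul] at e5
    rw [← mm_mul, e5]
    refine Submodule.sub_mem _ (Submodule.sub_mem _ (Submodule.sub_mem _ (Submodule.add_mem _
      (Submodule.add_mem _ (Submodule.add_mem _ (Submodule.sub_mem _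
      (mem_TS hI hS hL _ _ _ _ ?_ ?_) (mem_TS hI hS hL _ _ _ _ ?_ ?_))
      (mem_TS hI hS hL _ _ _ _ ?_ ?_)) (mem_TS hI hS hL _ _ _ _ ?_ ?_))
      (mem_TS hI hS hL _ _ _ _ ?_ ?_)) (mem_TS hI hS hL _ _ _ _ ?_ ?_))
      (mem_TS hI hS hL _ _ _ _ ?_ ?_)) (mem_TS hI hS hL _ _ _ _ ?_ ?_)
    all_goals first
      | (simp only [length_mul]; omega)
      | (intro i; have := hc i; simp only [cnt_mul]; omega)
  · rw [zero_mul]; exact Submodule.zero_mem _
  · intro a b _ _ ha hb; rw [add_mul]; exact Submodule.add_mem _ ha hb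
  · intro c a _ ha; rw [smul_mul_assoc]; exact Submodule.smul_mem _ _ ha

theorem L7 (m : FreeMagma ℕ) (h : 7 ≤ m.length) :
    mm hI m ∈ Submodule.span K (TS hI hS hL m) := by
  obtain ⟨y, e, rfl⟩ := exists_mul (by omega : 2 ≤ m.length)
  rw [length_mul] at h
  by_cases h1 : 4 ≤ y.length
  · exact L7a hI hS hL y e h1
  · have e1 : TS hI hS hL (y * e) = TS hI hS hL (e * y) := by
      unfold TS
      simp only [length_mul, cnt_mul, add_comm y.length, add_comm (cnt _ y)]
    rw [e1, mm_swap hI hS]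
    exact Submodule.neg_mem _ (L7a hI hS hL e y (by omega))

/-! ### Products of operators -/

/-- The operator attached to a list of pairs of words. -/
noncomputable def opv (hI : IsTIdeal K I) (hS : ∀ f ∈ S0 K, f ∈ I) (hL : Lin I)
    (l : List (FreeMagma ℕ × FreeMagma ℕ)) : Module.End K (Qt hI) :=
  (l.map fun p => (tt hI hS hL (mm hI p.1) (mm hI p.2) : Module.End K (Qt hI))).prod

/-- The content of a list of pairs of words. -/
def conL (l : List (FreeMagma ℕ × FreeMagma ℕ)) (i : ℕ) : ℕ :=
  (l.map fun p => cnt i p.1 + cnt i p.2).sum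

theorem opv_append (l l' : List (FreeMagma ℕ × FreeMagma ℕ)) :
    opv hI hS hL (l ++ l') = opv hI hS hL l * opv hI hS hL l' := by
  rw [opv, List.map_append, List.prod_append]; rfl

theorem opv_cons (p : FreeMagma ℕ × FreeMagma ℕ) (l : List (FreeMagma ℕ × FreeMagma ℕ)) :
    opv hI hS hL (p :: l) = (tt hI hS hL (mm hI p.1) (mm hI p.2) : Module.End K (Qt hI)) *
      opv hI hS hL l := by
  rw [opv, List.map_cons, List.prod_cons]; rfl

theorem conL_append (l l' : List (FreeMagma ℕ × FreeMagma ℕ)) (i : ℕ) :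
    conL (l ++ l') i = conL l i + conL l' i := by
  rw [conL, List.map_append, List.sum_append]; rfl

theorem conL_cons (p : FreeMagma ℕ × FreeMagma ℕ) (l : List (FreeMagma ℕ × FreeMagma ℕ)) (i : ℕ) :
    conL (p :: l) i = cnt i p.1 + cnt i p.2 + conL l i := by
  rw [conL, List.map_cons, List.sum_cons]; rfl

/-- Short lists. -/
def Short (l : List (FreeMagma ℕ × FreeMagma ℕ)) : Prop :=
  ∀ p ∈ l, p.1.length ≤ 6 ∧ p.2.length ≤ 6

theorem Short.append {l l' : List (FreeMagma ℕ × FreeMagma ℕ)} (h : Short l) (h' : Short l') :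
    Short (l ++ l') := by
  intro p hp
  rcases List.mem_append.1 hp with h1 | h1
  · exact h p h1
  · exact h' p h1

/-- Operators of content `c`. -/
def OpS (hI : IsTIdeal K I) (hS : ∀ f ∈ S0 K, f ∈ I) (hL : Lin I) (c : ℕ → ℕ) :
    Set (Module.End K (Qt hI)) :=
  {T | ∃ l, T = opv hI hS hL l ∧ Short l ∧ ∀ i, conL l i = c i}

/-- Normal form elements of content `c`. -/
def NFS (hI : IsTIdeal K I) (hS : ∀ f ∈ S0 K, f ∈ I) (hL : Lin I) (c : ℕ → ℕ) : Set (Qt hI) :=
  {z | ∃ l b, z = opv hI hS hL l (mm hI b) ∧ Short l ∧ 2 ≤ b.length ∧ b.length ≤ 6 ∧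
    ∀ i, conL l i + cnt i b = c i}

theorem OpS_mul {c c' d : ℕ → ℕ} (hd : ∀ i, c i + c' i = d i) {T T' : Module.End K (Qt hI)}
    (h : T ∈ Submodule.span K (OpS hI hS hL c)) (h' : T' ∈ Submodule.span K (OpS hI hS hL c')) :
    T * T' ∈ Submodule.span K (OpS hI hS hL d) := by
  have h1 := Submodule.mul_mem_mul h h'
  rw [Submodule.span_mul_span] at h1
  refine Submodule.span_mono ?_ h1
  rintro _ ⟨T, ⟨l, rfl, hl, hc⟩, T', ⟨l', rfl, hl', hc'⟩, rfl⟩
  refine ⟨l ++ l', (opv_append hI hS hL l l').symm, hl.append hl', fun i => ?_⟩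
  rw [conL_append, hc, hc', hd]

theorem NFS_apply {c c' d : ℕ → ℕ} (hd : ∀ i, c i + c' i = d i) {T : Module.End K (Qt hI)}
    {z : Qt hI} (h : T ∈ Submodule.span K (OpS hI hS hL c))
    (h' : z ∈ Submodule.span K (NFS hI hS hL c')) :
    T z ∈ Submodule.span K (NFS hI hS hL d) := by
  induction h using Submodule.span_induction with
  | zero => exact Submodule.zero_mem _
  | add a b _ _ ha hb => rw [LinearMap.add_apply]; exact Submodule.add_mem _ ha hb
  | smul c a _ ha => rw [LinearMap.smul_apply]; exact Submodule.smul_mem _ _ ha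
  | mem T hT =>
    obtain ⟨l, rfl, hl, hc⟩ := hT
    induction h' using Submodule.span_induction with
    | zero => rw [map_zero]; exact Submodule.zero_mem _
    | add a b _ _ ha hb => rw [map_add]; exact Submodule.add_mem _ ha hb
    | smul c a _ ha => rw [map_smul]; exact Submodule.smul_mem _ _ ha
    | mem z hz =>
      obtain ⟨l', b, rfl, hl', hb, hb', hc'⟩ := hz
      refine Submodule.subset_span ⟨l ++ l', b, ?_, hl.append hl', hb, hb', fun i => ?_⟩
      · rw [opv_append]; rfl
      · rw [conL_append, hc, add_assoc, hc', hd]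

theorem tt_mem_OpS (n : ℕ) : ∀ u v : FreeMagma ℕ, u.length + v.length ≤ n →
    (tt hI hS hL (mm hI u) (mm hI v) : Module.End K (Qt hI)) ∈
      Submodule.span K (OpS hI hS hL (fun i => cnt i u + cnt i v)) := by
  induction n with
  | zero => intro u v h; have := u.length_pos; omega
  | succ n ih =>
    have key : ∀ u v : FreeMagma ℕ, u.length + v.length ≤ n + 1 → 7 ≤ u.length →
        (tt hI hS hL (mm hI u) (mm hI v) : Module.End K (Qt hI)) ∈
          Submodule.span K (OpS hI hS hL (fun i => cnt i u + cnt i v)) := by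
      intro u v h hu
      have h7 := L7 hI hS hL u hu
      refine Submodule.span_induction (p := fun z _ =>
        (tt hI hS hL z (mm hI v) : Module.End K (Qt hI)) ∈
          Submodule.span K (OpS hI hS hL (fun i => cnt i u + cnt i v))) ?_ ?_ ?_ ?_ h7
      · rintro z ⟨a, b, w, rfl, hw, hl, hc⟩
        have ha := a.length_pos
        have hb := b.length_pos
        have hv := v.length_pos
        obtain ⟨w₁, w₂, rfl⟩ := exists_mul hw
        have e : (tt hI hS hL (tt hI hS hL (mm hI a) (mm hI b) (mm hI (w₁ * w₂))) (mm hI v) :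
            Module.End K (Qt hI))
            = (tt hI hS hL (mm hI a) (mm hI b) : Module.End K (Qt hI)) *
              (tt hI hS hL (mm hI (w₁ * w₂)) (mm hI v) : Module.End K (Qt hI)) := by
          apply LinearMap.ext
          intro x
          rw [mm_mul, tt_tt]; rfl
        rw [e]
        refine OpS_mul hI hS hL (fun i => ?_) (ih a b (by omega)) (ih (w₁ * w₂) v (by omega))
        have := hc i
        omega
      · rw [map_zero]; exact Submodule.zero_mem _
      · intro a b _ _ ha hb; rw [map_add]; exact Submodule.add_mem _ ha hb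
      · intro c a _ ha; rw [map_smul]; exact Submodule.smul_mem _ _ ha
    intro u v h
    by_cases hu : 7 ≤ u.length
    · exact key u v h hu
    · by_cases hv : 7 ≤ v.length
      · have e : (tt hI hS hL (mm hI u) (mm hI v) : Module.End K (Qt hI))
            = tt hI hS hL (mm hI v) (mm hI u) := by
          apply LinearMap.ext
          intro x
          exact tt_symm hI hS hL _ _ _
        rw [e]
        have := key v u (by omega) hv
        simp only [add_comm (cnt _ v)] at this
        exact this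
      · refine Submodule.subset_span ⟨[(u, v)], ?_, ?_, ?_⟩
        · simp [opv]
        · intro p hp
          rw [List.mem_singleton] at hp
          subst hp
          constructor <;> simp only <;> omega
        · intro i; simp [conL]

/-- The normal form theorem. -/
theorem mm_mem_NFS (n : ℕ) : ∀ m : FreeMagma ℕ, 2 ≤ m.length → m.length ≤ n →
    mm hI m ∈ Submodule.span K (NFS hI hS hL (fun i => cnt i m)) := by
  induction n with
  | zero => intro m h1 h2; omega
  | succ n ih =>
    intro m h1 h2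
    by_cases h7 : 7 ≤ m.length
    · have h := L7 hI hS hL m h7
      refine Submodule.span_induction (p := fun z _ => z ∈ Submodule.span K
        (NFS hI hS hL (fun i => cnt i m))) ?_ ?_ ?_ ?_ h
      · rintro z ⟨a, b, w, rfl, hw, hl, hc⟩
        have ha := a.length_pos
        have hb := b.length_pos
        refine NFS_apply hI hS hL (fun i => ?_) (tt_mem_OpS hI hS hL _ a b le_rfl)
          (ih w hw (by omega))
        exact hc i
      · exact Submodule.zero_mem _
      · intro a b _ _ ha hb; exact Submodule.add_mem _ ha hb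
      · intro c a _ ha; exact Submodule.smul_mem _ _ ha
    · refine Submodule.subset_span ⟨[], m, ?_, ?_, h1, by omega, ?_⟩
      · simp [opv]
      · intro p hp; simp at hp
      · intro i; simp [conL]

end nf

end Pool.Agent.Lib.MP_cad252_al.Z
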