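import Pool.Agent.Lib.MP_cad252_al.Z.NF
import Pool.Agent.Lib.MP_cad252_al.Z.G

/-!
The finite basis theorem, reduced to the vanishing of long alternations.
-/

set_option linter.unusedSimpArgs false
set_option linter.unusedSectionVars false

namespace Pool.Agent.Lib.MP_cad252_al.Z

open Pool.Agent.Lib.MP_cad252_al.H89 FreeNonUnitalNonAssocAlgebra

universe u v w

open scoped IsMulCommutative in
theorem noeth_adjoin {K E : Type*} [Field K] [Ring E] [Algebra K E] (S : Set E) (hfin : S.Finite)
    (hc : ∀ a ∈ S, ∀ b ∈ S, a * b = b * a) : IsNoetherianRing (Algebra.adjoin K S) := by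
  have hft : Algebra.FiniteType K (Algebra.adjoin K S) := by
    rw [← Subalgebra.fg_iff_finiteType]
    exact ⟨hfin.toFinset, by simp⟩
  have := Algebra.isMulCommutative_adjoin K hc
  exact Algebra.FiniteType.isNoetherianRing K _

section T0

variable (K : Type u) [Field K]

/-- The T-ideal generated by the defining polynomials. -/
noncomputable def T0 : Submodule K (FA K) :=
  sInf {I | IsTIdeal K I ∧ ∀ f ∈ S0 K, f ∈ I}

theorem isTIdeal_T0 : IsTIdeal K (T0 K) where
  mul_left g f hf := Submodule.mem_sInf.2 fun I hI => hI.1.mul_left g f (Submodule.mem_sInf.1 hf I hI)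
  mul_right g f hf :=
    Submodule.mem_sInf.2 fun I hI => hI.1.mul_right g f (Submodule.mem_sInf.1 hf I hI)
  subst σ f hf := Submodule.mem_sInf.2 fun I hI => hI.1.subst σ f (Submodule.mem_sInf.1 hf I hI)

theorem S0_T0 : ∀ f ∈ S0 K, f ∈ T0 K := fun f hf => Submodule.mem_sInf.2 fun _ hI => hI.2 f hf

theorem T0_le {I : Submodule K (FA K)} (hI : IsTIdeal K I) (h : ∀ f ∈ S0 K, f ∈ I) : T0 K ≤ I :=
  sInf_le ⟨hI, h⟩

theorem lin_of [CharZero K] {I : Submodule K (FA K)} (hI : IsTIdeal K I) : Lin I :=
  fun _ hf => G1 hI hf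

end T0

section stable

variable {K : Type u} [Field K] [CharZero K] {I : Submodule K (FA K)} (hI : IsTIdeal K I)
  (hS : ∀ f ∈ S0 K, f ∈ I)

/-- T-ideals containing `I` are stable under the operators. -/
theorem stable {I' : Submodule K (FA K)} (hI' : IsTIdeal K I') (hle : I ≤ I') (x y : Qt hI)
    (z : Qt hI) (hz : z ∈ I'.map (pj hI)) :
    tt hI hS (lin_of K hI) x y z ∈ I'.map (pj hI) := by
  have hS' : ∀ f ∈ S0 K, f ∈ I' := fun f hf => hle (hS f hf)
  obtain ⟨f, hf, rfl⟩ := hz
  have hf' : f ∈ I' := hf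
  obtain ⟨x, rfl⟩ := pj_surjective hI x
  obtain ⟨y, rfl⟩ := pj_surjective hI y
  have e1 := map_tw (pja hI) x y (fun i => of K i) f
  have e2 := map_tw (pja hI') x y (fun i => of K i) f
  refine ⟨tw K x y (fun i => of K i) f, ?_, ?_⟩
  · have e3 := T1ideal hI' hS' (lin_of K hI') (pj hI' x) (pj hI' y) f hf'
    have e4 : pj hI' (tw K x y (fun i => of K i) f) = 0 := by
      rw [← e3]; exact e2
    exact (pj_eq_zero hI').1 e4
  · rw [tt_pj]
    exact e1

end stable

section noeth

variable {K : Type u} [Field K] [CharZero K] {I : Submodule K (FA K)} (hI : IsTIdeal K I)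
  (hS : ∀ f ∈ S0 K, f ∈ I)

/-- Generators of the algebra of operators. -/
def OG (hI : IsTIdeal K I) (hS : ∀ f ∈ S0 K, f ∈ I) (N : ℕ) : Set (Module.End K (Qt hI)) :=
  {T | ∃ u ∈ words N 6, ∃ v ∈ words N 6, T = tt hI hS (lin_of K hI) (mm hI u) (mm hI v)}

theorem OG_finite (N : ℕ) : (OG hI hS N).Finite := by
  refine ((finite_words N 6).image2 (fun u v => (tt hI hS (lin_of K hI) (mm hI u) (mm hI v) :
    Module.End K (Qt hI))) (finite_words N 6)).subset ?_
  rintro _ ⟨u, hu, v, hv, rfl⟩
  exact ⟨u, hu, v, hv, rfl⟩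

theorem OG_comm (N : ℕ) : ∀ a ∈ OG hI hS N, ∀ b ∈ OG hI hS N, a * b = b * a := by
  rintro _ ⟨u, _, v, _, rfl⟩ _ ⟨u', _, v', _, rfl⟩
  apply LinearMap.ext
  intro x
  exact tt_comm hI hS _ _ _ _ _ _

/-- The algebra of operators. -/
noncomputable def RN (hI : IsTIdeal K I) (hS : ∀ f ∈ S0 K, f ∈ I) (N : ℕ) :
    Subalgebra K (Module.End K (Qt hI)) := Algebra.adjoin K (OG hI hS N)

instance (N : ℕ) : IsNoetherianRing (RN hI hS N) :=
  noeth_adjoin _ (OG_finite hI hS N) (OG_comm hI hS N)

/-- The module of normal forms in the letters `< N`. -/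
noncomputable def MN (hI : IsTIdeal K I) (hS : ∀ f ∈ S0 K, f ∈ I) (N : ℕ) :
    Submodule (RN hI hS N) (Qt hI) := Submodule.span _ (mm hI '' words N 6)

theorem isNoetherian_MN (N : ℕ) : IsNoetherian (RN hI hS N) (MN hI hS N) :=
  isNoetherian_span_of_finite _ ((finite_words N 6).image _)

/-- The image of a larger T-ideal as a module over the operators. -/
noncomputable def NI (hI : IsTIdeal K I) (hS : ∀ f ∈ S0 K, f ∈ I) (N : ℕ)
    {I' : Submodule K (FA K)} (hI' : IsTIdeal K I') (hle : I ≤ I') :
    Submodule (RN hI hS N) (Qt hI) where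
  carrier := I'.map (pj hI)
  add_mem' := Submodule.add_mem _
  zero_mem' := Submodule.zero_mem _
  smul_mem' := by
    rintro ⟨r, hr⟩ x hx
    change r x ∈ I'.map (pj hI)
    have hx' : x ∈ I'.map (pj hI) := hx
    clear hx
    unfold RN at hr
    induction hr using Algebra.adjoin_induction generalizing x with
    | mem T hT =>
      obtain ⟨u, _, v, _, rfl⟩ := hT
      exact stable hI hS hI' hle _ _ x hx'
    | algebraMap c => exact Submodule.smul_mem _ c hx'
    | add a b _ _ ha hb => exact Submodule.add_mem _ (ha hx') (hb hx')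
    | mul a b _ _ ha hb => exact ha (hb hx')

theorem mem_NI {N : ℕ} {I' : Submodule K (FA K)} (hI' : IsTIdeal K I') (hle : I ≤ I')
    {x : Qt hI} : x ∈ NI hI hS N hI' hle ↔ x ∈ I'.map (pj hI) := Iff.rfl

theorem mem_words_of {N : ℕ} {m : FreeMagma ℕ} (h : ∀ i, N ≤ i → cnt i m = 0)
    (hl : m.length ≤ 6) : m ∈ words N 6 := by
  refine ⟨hl, fun i hi => ?_⟩
  rw [Finset.mem_range]
  by_contra hlt
  have h0 := h i (by omega)
  clear h hl
  induction m with
  | ih1 x =>
    rw [wvars_of, Finset.mem_singleton] at hi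
    subst hi
    rw [cnt_of, if_pos rfl] at h0
    omega
  | ih2 a b ha hb =>
    rw [wvars_mul, Finset.mem_union] at hi
    rw [cnt_mul] at h0
    rcases hi with h | h
    · exact ha h (by omega)
    · exact hb h (by omega)

theorem opv_mem_RN {N : ℕ} (l : List (FreeMagma ℕ × FreeMagma ℕ)) (hl : Short l)
    (hc : ∀ i, N ≤ i → conL l i = 0) : opv hI hS (lin_of K hI) l ∈ RN hI hS N := by
  induction l with
  | nil => exact Subalgebra.one_mem _
  | cons p l ih =>
    rw [opv_cons]
    have h1 := hl p (by simp)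
    refine Subalgebra.mul_mem _ (Algebra.subset_adjoin ⟨p.1, mem_words_of ?_ h1.1, p.2,
      mem_words_of ?_ h1.2, rfl⟩) (ih (fun q hq => hl q (by simp [hq])) ?_)
    all_goals
      intro i hi
      have := hc i hi
      rw [conL_cons] at this
      omega

theorem mm_mem_MN {N : ℕ} (m : FreeMagma ℕ) (hl : 2 ≤ m.length) (hc : ∀ i, N ≤ i → cnt i m = 0) :
    mm hI m ∈ MN hI hS N := by
  have h := mm_mem_NFS hI hS (lin_of K hI) _ m hl le_rfl
  refine Submodule.span_induction (p := fun z _ => z ∈ MN hI hS N) ?_ ?_ ?_ ?_ h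
  · rintro _ ⟨l, b, rfl, hl, hb, hb', hcc⟩
    have h1 : opv hI hS (lin_of K hI) l ∈ RN hI hS N := by
      refine opv_mem_RN hI hS l hl fun i hi => ?_
      have : conL l i + cnt i b = cnt i m := hcc i
      rw [hc i hi] at this
      omega
    have h2 : mm hI b ∈ MN hI hS N := Submodule.subset_span ⟨b, mem_words_of (fun i hi => by
      have : conL l i + cnt i b = cnt i m := hcc i
      rw [hc i hi] at this
      omega) hb', rfl⟩
    exact (MN hI hS N).smul_mem ⟨_, h1⟩ h2
  · exact Submodule.zero_mem _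
  · intro a b _ _ ha hb; exact Submodule.add_mem _ ha hb
  · intro c a _ ha
    exact (MN hI hS N).smul_mem ⟨algebraMap K _ c, Subalgebra.algebraMap_mem _ c⟩ ha

end noeth

section final

variable {K : Type u} [Field K] [CharZero K]

/-- The vanishing of long alternations. -/
def Alt (K : Type u) [Field K] (N : ℕ) : Prop :=
  ∀ k, N < k → ∀ m : FreeMagma ℕ, (∀ i < k, cnt i m = 1) →
    ∑ σ : Equiv.Perm (Fin k), (Equiv.Perm.sign σ : ℤ) • lift K
      (fun j => if h : j < k then of K (σ ⟨j, h⟩ : ℕ) else of K j) (mon K m) ∈ T0 K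

theorem ev_single {B : Type v} [NonUnitalNonAssocRing B] (hsq : ∀ x : B, x * x = 0) (x : B)
    (i : ℕ) (m : FreeMagma ℕ) : (ev (fun j => if j = i then x else 0) m = 0 ∨
      ev (fun j => if j = i then x else 0) m = x) ∧
    (2 ≤ m.length → ev (fun j => if j = i then x else 0) m = 0) := by
  induction m with
  | ih1 j =>
    rw [ev_of, length_of]
    refine ⟨?_, fun h => by omega⟩
    split_ifs
    · exact Or.inr rfl
    · exact Or.inl rfl
  | ih2 a b ha hb =>
    have h : ev (fun j => if j = i then x else 0) (a * b) = 0 := by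
      rw [ev_mul]
      rcases ha.1 with h1 | h1 <;> rcases hb.1 with h2 | h2 <;> rw [h1, h2]
      · exact zero_mul _
      · exact zero_mul _
      · exact mul_zero _
      · exact hsq x
    exact ⟨Or.inl h, fun _ => h⟩

/-- The finite basis theorem for `W`-algebras, given the vanishing of long alternations. -/
theorem finitelyBased_of_alt {N : ℕ} (hN : Alt K N) (B : Type v) [NonUnitalNonAssocRing B]
    [Module K B] [IsScalarTower K B B] [SMulCommClass K B B] (hB : IsW K B) :
    FinitelyBased K B := by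
  classical
  by_cases h0 : ∀ x : B, x = 0
  · refine ⟨{of K 0}, fun f _ s => h0 _, fun I hI hSI f _ => ?_⟩
    have := eq_top_of_mem_of hI (hSI (of K 0) (by simp))
    rw [this]; trivial
  · obtain ⟨x, hx⟩ := not_forall.1 h0
    -- no linear part
    have hlen : ∀ f ∈ identities K B, ∀ m ∈ f.coeff.support, 2 ≤ m.length := by
      intro f hf m hm
      by_contra hlt
      have h1 := m.length_pos
      obtain ⟨i, rfl⟩ := eq_of_length (by omega : m.length = 1)
      have e : lift K (fun j => if j = i then x else 0) f = 0 := hf _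
      rw [lift_eq, Finset.sum_eq_single (FreeMagma.of i)] at e
      · rw [ev_of, if_pos rfl] at e
        rcases smul_eq_zero.1 e with h | h
        · exact Finsupp.mem_support_iff.1 hm h
        · exact hx h
      · intro b _ hne
        have e2 : ev (fun j => if j = i then x else 0) b = 0 := by
          by_cases hb : 2 ≤ b.length
          · exact (ev_single hB.mal.sq x i b).2 hb
          · have h1 := b.length_pos
            obtain ⟨j, rfl⟩ := eq_of_length (by omega : b.length = 1)
            rw [ev_of, if_neg]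
            rintro rfl
            exact hne rfl
        rw [e2, smul_zero]
      · intro h; exact absurd hm h
    set hI := isTIdeal_T0 K with hIdef
    have hS := S0_T0 K
    have hIB := isTIdeal_identities K B
    have hle : T0 K ≤ identities K B := T0_le K hIB (fun f hf => hB.satisfies f hf)
    have := isNoetherian_MN hI hS (N + 1)
    obtain ⟨G, hG⟩ : (NI hI hS (N + 1) hIB hle ⊓ MN hI hS (N + 1)).FG := by
      have h1 := IsNoetherian.noetherian
        ((NI hI hS (N + 1) hIB hle ⊓ MN hI hS (N + 1)).comap (MN hI hS (N + 1)).subtype)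
      have h2 := h1.map (MN hI hS (N + 1)).subtype
      rw [Submodule.map_comap_eq_of_le] at h2
      · exact h2
      · rw [Submodule.range_subtype]; exact inf_le_right
    have hG2 : ∀ g ∈ G, ∃ f ∈ identities K B, pj hI f = g := by
      intro g hg
      have : g ∈ NI hI hS (N + 1) hIB hle ⊓ MN hI hS (N + 1) := by
        rw [← hG]; exact Submodule.subset_span hg
      obtain ⟨f, hf, rfl⟩ := this.1
      exact ⟨f, hf, rfl⟩
    choose! φ hφ using hG2
    refine ⟨S0 K ∪ G.image φ, ?_, ?_⟩
    · intro f hf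
      rcases Finset.mem_union.1 hf with h | h
      · exact hB.satisfies f h
      · obtain ⟨g, hg, rfl⟩ := Finset.mem_image.1 h
        exact (hφ g hg).1
    · intro I' hI' hSI' f hf
      have hle' : T0 K ≤ I' := T0_le K hI' (fun f hf => hSI' f (Finset.mem_union_left _ hf))
      have hJ : NI hI hS (N + 1) hIB hle ⊓ MN hI hS (N + 1) ≤ NI hI hS (N + 1) hI' hle' := by
        rw [← hG]
        refine Submodule.span_le.2 fun g hg => ?_
        exact ⟨φ g, hSI' _ (Finset.mem_union_right _ (Finset.mem_image_of_mem φ hg)),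
          (hφ g hg).2⟩
      refine G2 hIB hI' N ?_ (fun k hk m hm => hle' (hN k hk m hm)) hf
      intro f hf hcf
      have h1 : pj hI f ∈ NI hI hS (N + 1) hIB hle ⊓ MN hI hS (N + 1) := by
        refine ⟨⟨f, hf, rfl⟩, ?_⟩
        rw [eq_sum K f, map_sum]
        refine Submodule.sum_mem _ fun m hm => ?_
        rw [map_smul]
        exact (MN hI hS (N + 1)).smul_mem ⟨algebraMap K _ (f.coeff m),
          Subalgebra.algebraMap_mem _ _⟩ (mm_mem_MN hI hS m (hlen f hf m hm)
            (fun i hi => hcf m hm i (by omega)))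
      obtain ⟨f', hf', e⟩ := hJ h1
      have h2 : f - f' ∈ T0 K := by
        rw [← pj_eq hI]; exact e.symm
      have h3 := Submodule.add_mem _ (hle' h2) hf'
      rwa [sub_add_cancel] at h3

end final

end Pool.Agent.Lib.MP_cad252_al.Z
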