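import Pool.Agent.Lib.MP_cad252_al.Z.V

/-!
Operators extending `q`.
-/

namespace Pool.Agent.Lib.MP_cad252_al.Z

open Pool.Agent.Lib.MP_cad252_al.H89

variable {K : Type*} {F : Type*} [Field K] [NonUnitalNonAssocRing F] [Module K F]

/-- A symmetric commuting family of operators `t x y` with `t x y (a * b) = q K x y a b`. -/
structure TOps (t : F →ₗ[K] F →ₗ[K] F →ₗ[K] F) : Prop where
  symm : ∀ x y w, t x y w = t y x w
  mul : ∀ x y a b, t x y (a * b) = q K x y a b
  comm : ∀ x y u v w, t x y (t u v w) = t u v (t x y w)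
  w4 : ∀ x y z w, t (x * y) z w = t x (y * z) w

end Pool.Agent.Lib.MP_cad252_al.Z
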