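import Pool.Agent.Lib.MP_cad252_al.Z.T1
import Pool.Agent.Lib.MP_cad252_al.Z.TOps

/-!
The operators on the quotient of the free algebra by a T-ideal.
-/

set_option linter.unusedSimpArgs false
set_option linter.unusedSectionVars false

namespace Pool.Agent.Lib.MP_cad252_al.Z

open Pool.Agent.Lib.MP_cad252_al.H89 FreeNonUnitalNonAssocAlgebra

universe u v w

section tw

variable {K : Type u} [Field K] {A : Type v} [NonUnitalNonAssocRing A] [Module K A]
  [IsScalarTower K A A] [SMulCommClass K A A]

variable (K) in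
/-- `q x y` as a bilinear map. -/
noncomputable def qL (x y : A) : A →ₗ[K] A →ₗ[K] A :=
  LinearMap.mk₂ K (q K x y) (q_add3 K x y) (fun c a b => q_smul3 K c x y a b)
    (q_add4 K x y) (fun c a b => q_smul4 K c x y a b)

theorem qL_apply (x y a b : A) : qL K x y a b = q K x y a b := rfl

theorem tw_mon (x y : A) (s : ℕ → A) (m : FreeMagma ℕ) : tw K x y s (mon K m) = Tm K x y s m :=
  lext_mon K _ m

theorem tw_mul (x y : A) (s : ℕ → A) (f g : FA K) :
    tw K x y s (f * g) = q K x y (lift K s f) (lift K s g) := by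
  have h1 : ∀ b : FreeMagma ℕ, ∀ f : FA K,
      tw K x y s (f * mon K b) = q K x y (lift K s f) (lift K s (mon K b)) := by
    intro b f
    have := LinearMap.congr_fun (lin_ext K (g := (tw K x y s).comp (LinearMap.mulRight K (mon K b)))
      (h := ((qL K x y).flip (lift K s (mon K b))).comp
        ((lift K s : FA K →ₙₐ[K] A) : FA K →ₗ[K] A)) (by
        intro a
        change tw K x y s (mon K a * mon K b) = q K x y (lift K s (mon K a)) (lift K s (mon K b))
        rw [← mon_mul, tw_mon, Tm_mul, lift_mon, lift_mon])) f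
    exact this
  have := LinearMap.congr_fun (lin_ext K (g := (tw K x y s).comp (LinearMap.mulLeft K f))
      (h := (qL K x y (lift K s f)).comp
        ((lift K s : FA K →ₙₐ[K] A) : FA K →ₗ[K] A)) (by
        intro b
        exact h1 b f)) g
  exact this

theorem tw_of (x y : A) (s : ℕ → A) (i : ℕ) : tw K x y s (of K i) = 0 := by
  rw [← mon_of, tw_mon]; rfl

theorem Tm_add1 (x x' y : A) (s : ℕ → A) (m : FreeMagma ℕ) :
    Tm K (x + x') y s m = Tm K x y s m + Tm K x' y s m := by
  induction m with
  | ih1 i => simp only [Tm_of, add_zero]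
  | ih2 a b _ _ => simp only [Tm_mul, q_add1]

theorem Tm_smul1 (c : K) (x y : A) (s : ℕ → A) (m : FreeMagma ℕ) :
    Tm K (c • x) y s m = c • Tm K x y s m := by
  induction m with
  | ih1 i => simp only [Tm_of, smul_zero]
  | ih2 a b _ _ => simp only [Tm_mul, q_smul1]

theorem Tm_add2 (x y y' : A) (s : ℕ → A) (m : FreeMagma ℕ) :
    Tm K x (y + y') s m = Tm K x y s m + Tm K x y' s m := by
  induction m with
  | ih1 i => simp only [Tm_of, add_zero]
  | ih2 a b _ _ => simp only [Tm_mul, q_add2]

theorem Tm_smul2 (c : K) (x y : A) (s : ℕ → A) (m : FreeMagma ℕ) :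
    Tm K x (c • y) s m = c • Tm K x y s m := by
  induction m with
  | ih1 i => simp only [Tm_of, smul_zero]
  | ih2 a b _ _ => simp only [Tm_mul, q_smul2]

variable {B : Type w} [NonUnitalNonAssocRing B] [Module K B]

theorem map_ev (φ : A →ₙₐ[K] B) (s : ℕ → A) (m : FreeMagma ℕ) :
    φ (ev s m) = ev (fun i => φ (s i)) m := by
  induction m with
  | ih1 i => rfl
  | ih2 a b ha hb => rw [ev_mul, map_mul, ha, hb, ev_mul]

theorem map_tw (φ : A →ₙₐ[K] B) (x y : A) (s : ℕ → A) (f : FA K) :
    φ (tw K x y s f) = tw K (φ x) (φ y) (fun i => φ (s i)) f := by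
  simp only [tw, lext_apply, map_sum, map_smul]
  refine Finset.sum_congr rfl fun m _ => ?_
  congr 1
  induction m with
  | ih1 i => simp only [Tm_of, map_zero]
  | ih2 a b _ _ => simp only [Tm_mul, map_q, map_ev]

theorem tw_lift [CharZero K] (x y : A) (s : ℕ → A) (σ : ℕ → FA K) (w : FA K)
    (hl : ∀ m ∈ w.coeff.support, 2 ≤ m.length) :
    tw K x y s (lift K σ w) = tw K x y (fun i => lift K s (σ i)) w := by
  rw [lift_eq, map_sum, tw, tw, lext_apply]
  refine Finset.sum_congr rfl fun m hm => ?_
  rw [map_smul]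
  congr 1
  have h2 := hl m hm
  induction m with
  | ih1 i => rw [length_of] at h2; omega
  | ih2 a b _ _ =>
    rw [ev_mul]
    have := tw_mul x y s (ev σ a) (ev σ b)
    rw [tw] at this
    rw [this, Tm_mul, map_ev, map_ev]

end tw

section ideal

variable {K : Type u} [Field K] [CharZero K] {I : Submodule K (FA K)} (hI : IsTIdeal K I)

/-- The linearisation property. -/
def Lin (I : Submodule K (FA K)) : Prop := ∀ f ∈ I, f ∈ Submodule.span K
  {g | ∃ (J : Finset ℕ) (w : FA K) (s : ℕ → FA K), w ∈ I ∧ IsMul J w ∧ g = lift K s w}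

theorem exists_cnt (m : FreeMagma ℕ) : ∃ i, cnt i m ≠ 0 := by
  induction m with
  | ih1 i => exact ⟨i, by simp [cnt_of]⟩
  | ih2 a b ha _ =>
    obtain ⟨i, hi⟩ := ha
    exact ⟨i, by rw [cnt_mul]; omega⟩

theorem sum_cnt_le (m : FreeMagma ℕ) (J : Finset ℕ) : ∑ i ∈ J, cnt i m ≤ m.length := by
  induction m with
  | ih1 j =>
    simp only [cnt_of, length_of]
    rw [Finset.sum_ite_eq]
    split_ifs <;> omega
  | ih2 a b ha hb =>
    simp only [cnt_mul, length_mul, Finset.sum_add_distrib]
    omega

theorem length_le_sum_cnt (m : FreeMagma ℕ) (J : Finset ℕ) (h : ∀ i, i ∉ J → cnt i m = 0) :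
    m.length ≤ ∑ i ∈ J, cnt i m := by
  induction m with
  | ih1 j =>
    simp only [cnt_of, length_of]
    rw [Finset.sum_ite_eq]
    have : j ∈ J := by
      by_contra hj
      have := h j hj
      rw [cnt_of, if_pos rfl] at this
      omega
    rw [if_pos this]
  | ih2 a b ha hb =>
    simp only [cnt_mul, length_mul, Finset.sum_add_distrib]
    have h1 := ha (fun i hi => by have := h i hi; rw [cnt_mul] at this; omega)
    have h2 := hb (fun i hi => by have := h i hi; rw [cnt_mul] at this; omega)
    omega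

theorem IsMul.length {J : Finset ℕ} {w : FA K} (hw : IsMul J w) {m : FreeMagma ℕ}
    (hm : m ∈ w.coeff.support) : m.length = J.card := by
  have h1 := sum_cnt_le m J
  have h2 := length_le_sum_cnt m J (fun i hi => by rw [hw m hm i, if_neg hi])
  have h3 : ∑ i ∈ J, cnt i m = J.card := by
    rw [Finset.card_eq_sum_ones]
    exact Finset.sum_congr rfl fun i hi => by rw [hw m hm i, if_pos hi]
  omega

/-- A T-ideal which contains a nonzero polynomial of degree one is everything. -/
theorem eq_top_of_mem_of {i : ℕ} (hI : IsTIdeal K I) (h : of K i ∈ I) : I = ⊤ := by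
  rw [eq_top_iff]
  intro f _
  have := hI.subst (fun _ => f) _ h
  rwa [lift_of_apply] at this

theorem eq_of_length {m : FreeMagma ℕ} (h : m.length = 1) : ∃ i, m = FreeMagma.of i := by
  induction m with
  | ih1 i => exact ⟨i, rfl⟩
  | ih2 c d _ _ =>
    have h1 := c.length_pos
    have h2 := d.length_pos
    rw [length_mul] at h; omega

theorem T1ideal (hS : ∀ f ∈ S0 K, f ∈ I) (hL : Lin I) (x y : Qt hI) (f : FA K) (hf : f ∈ I) :
    tw K x y (fun i => pj hI (of K i)) f = 0 := by
  have hW := isW_Qt hI hS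
  by_cases htop : I = ⊤
  · have h0 : ∀ z : Qt hI, z = 0 := by
      intro z
      obtain ⟨z, rfl⟩ := pj_surjective hI z
      rw [pj_eq_zero, htop]; trivial
    exact h0 _
  · have hfs := hL f hf
    clear hf
    induction hfs using Submodule.span_induction with
    | zero => exact map_zero _
    | add a b _ _ ha hb => rw [map_add, ha, hb, add_zero]
    | smul c a _ ha => rw [map_smul, ha, smul_zero]
    | mem g hg =>
      obtain ⟨J, w, σ, hwI, hw, rfl⟩ := hg
      have hlen : ∀ m ∈ w.coeff.support, 2 ≤ m.length := by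
        intro m hm
        have h1 := m.length_pos
        by_contra hlt
        have hm1 : m.length = 1 := by omega
        have hJ : J.card = 1 := by rw [← hw.length hm, hm1]
        obtain ⟨i, rfl⟩ := Finset.card_eq_one.1 hJ
        have hsupp : ∀ m' ∈ w.coeff.support, m' = FreeMagma.of i := by
          intro m' hm'
          obtain ⟨j, rfl⟩ := eq_of_length (by rw [hw.length hm', hJ] : m'.length = 1)
          have := hw _ hm' i
          rw [cnt_of, if_pos (Finset.mem_singleton_self i)] at this
          have h3 : j = i := by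
            by_contra h; rw [if_neg h] at this; omega
          rw [h3]
        have hmi := hsupp m hm
        have hw2 : w = w.coeff (FreeMagma.of i) • of K i := by
          conv_lhs => rw [eq_sum K w]
          rw [Finset.sum_eq_single (FreeMagma.of i)]
          · rw [mon_of]
          · intro b hb hne; exact absurd (hsupp b hb) hne
          · intro h; exact absurd (hmi ▸ hm) h
        have hc : w.coeff (FreeMagma.of i) ≠ 0 := by
          rw [← hmi]; exact Finsupp.mem_support_iff.1 hm
        apply htop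
        apply eq_top_of_mem_of hI (i := i)
        rw [hw2] at hwI
        exact (Submodule.smul_mem_iff _ hc).1 hwI
      rw [tw_lift _ _ _ _ _ hlen]
      exact T1core hW J w hw (Qt_satisfies hI hwI) hlen x y _

end ideal

section ops

variable {K : Type u} [Field K] [CharZero K] {I : Submodule K (FA K)} (hI : IsTIdeal K I)
  (hS : ∀ f ∈ S0 K, f ∈ I) (hL : Lin I)

/-- The operators on the quotient algebra. -/
noncomputable def tt (hI : IsTIdeal K I) (hS : ∀ f ∈ S0 K, f ∈ I) (hL : Lin I) :
    Qt hI →ₗ[K] Qt hI →ₗ[K] Qt hI →ₗ[K] Qt hI :=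
  LinearMap.mk₂ K (fun x y => (Submodule.liftQ I (tw K x y (fun i => pj hI (of K i)))
      (fun f hf => T1ideal hI hS hL x y f hf) : Qt hI →ₗ[K] Qt hI))
    (by
      intro x x' y
      apply LinearMap.ext
      intro f
      obtain ⟨f, rfl⟩ := pj_surjective hI f
      change tw K (x + x') y _ f = tw K x y _ f + tw K x' y _ f
      simp only [tw, lext_apply, Tm_add1, smul_add, Finset.sum_add_distrib])
    (by
      intro c x y
      apply LinearMap.ext
      intro f
      obtain ⟨f, rfl⟩ := pj_surjective hI f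
      change tw K (c • x) y _ f = c • tw K x y _ f
      simp only [tw, lext_apply, Tm_smul1, Finset.smul_sum]
      exact Finset.sum_congr rfl fun m _ => smul_comm _ _ _)
    (by
      intro x y y'
      apply LinearMap.ext
      intro f
      obtain ⟨f, rfl⟩ := pj_surjective hI f
      change tw K x (y + y') _ f = tw K x y _ f + tw K x y' _ f
      simp only [tw, lext_apply, Tm_add2, smul_add, Finset.sum_add_distrib])
    (by
      intro c x y
      apply LinearMap.ext
      intro f
      obtain ⟨f, rfl⟩ := pj_surjective hI f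
      change tw K x (c • y) _ f = c • tw K x y _ f
      simp only [tw, lext_apply, Tm_smul2, Finset.smul_sum]
      exact Finset.sum_congr rfl fun m _ => smul_comm _ _ _)

theorem tt_pj (x y : Qt hI) (f : FA K) :
    tt hI hS hL x y (pj hI f) = tw K x y (fun i => pj hI (of K i)) f := rfl

theorem lift_of_self (f : FA K) : lift K (fun i => of K i) f = f := by
  have : lift K (fun i => of K i) = NonUnitalAlgHom.id K (FA K) := by
    apply FreeNonUnitalNonAssocAlgebra.hom_ext
    intro x; simp
  rw [this]; rfl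

theorem lift_pj_of (f : FA K) : lift K (fun i => pj hI (of K i)) f = pj hI f := by
  rw [lift_pj, lift_of_self]

theorem tt_mul (x y a b : Qt hI) : tt hI hS hL x y (a * b) = q K x y a b := by
  obtain ⟨a, rfl⟩ := pj_surjective hI a
  obtain ⟨b, rfl⟩ := pj_surjective hI b
  rw [← pj_mul, tt_pj, tw_mul, lift_pj_of, lift_pj_of]

theorem tt_of (x y : Qt hI) (i : ℕ) : tt hI hS hL x y (pj hI (of K i)) = 0 := by
  rw [tt_pj, tw_of]

/-- Linear maps on the quotient that agree on words are equal. -/
theorem Qt_ext {V : Type w} [AddCommGroup V] [Module K V] {g h : Qt hI →ₗ[K] V}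
    (H1 : ∀ i, g (pj hI (of K i)) = h (pj hI (of K i)))
    (H2 : ∀ a b : Qt hI, g (a * b) = h (a * b)) : g = h := by
  apply LinearMap.ext
  intro x
  obtain ⟨f, rfl⟩ := pj_surjective hI x
  refine LinearMap.congr_fun (lin_ext K (g := g.comp (pj hI)) (h := h.comp (pj hI)) ?_) f
  intro m
  induction m with
  | ih1 i => exact H1 i
  | ih2 a b _ _ =>
    rw [mon_mul]
    exact H2 (pj hI (mon K a)) (pj hI (mon K b))

theorem tt_symm (x y w : Qt hI) : tt hI hS hL x y w = tt hI hS hL y x w := by
  refine LinearMap.congr_fun (Qt_ext hI (fun i => ?_) (fun a b => ?_)) w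
  · rw [tt_of, tt_of]
  · rw [tt_mul, tt_mul, q_symm K (isW_Qt hI hS).mal]

theorem tt_w4 (x y z w : Qt hI) : tt hI hS hL (x * y) z w = tt hI hS hL x (y * z) w := by
  refine LinearMap.congr_fun (Qt_ext hI (fun i => ?_) (fun a b => ?_)) w
  · rw [tt_of, tt_of]
  · rw [tt_mul, tt_mul, (isW_Qt hI hS).w4]

theorem tt_R (x y a b c : Qt hI) :
    tt hI hS hL x y (a * b) * c = tt hI hS hL x y ((a * b) * c) := by
  rw [tt_mul, tt_mul, (isW_Qt hI hS).w3]

theorem tt_L (x y a b c : Qt hI) :
    c * tt hI hS hL x y (a * b) = tt hI hS hL x y (c * (a * b)) := by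
  have a0 := (isW_Qt hI hS).mal.anticomm
  rw [a0, tt_R, a0 c, map_neg]

/-- The key formula for polynomials. -/
def FCt (s : ℕ → Qt hI) (i : ℕ) (f : FA K) : Prop := ∀ x y : Qt hI,
  lift K (Function.update s i (x * (y * s i) + y * (x * s i))) f
    = -(2 : K) • tt hI hS hL x y (lift K s f)
      + tt hI hS hL x (s i) (lift K (Function.update s i y) f)
      + tt hI hS hL y (s i) (lift K (Function.update s i x) f)

theorem Tm_eq_tt (x y : Qt hI) (s : ℕ → Qt hI) (m : FreeMagma ℕ) (hl : 2 ≤ m.length) :
    Tm K x y s m = tt hI hS hL x y (ev s m) := by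
  induction m with
  | ih1 i => rw [length_of] at hl; omega
  | ih2 a b _ _ => rw [Tm_mul, ev_mul, tt_mul]

theorem FCt_mon (s : ℕ → Qt hI) (i : ℕ) (m : FreeMagma ℕ) (hc : cnt i m = 1)
    (hl : 2 ≤ m.length) : FCt hI hS hL s i (mon K m) := by
  intro x y
  have h := lemC (isW_Qt hI hS) x y s i m hc hl
  rw [FC, Tm_eq_tt hI hS hL _ _ _ _ hl, Tm_eq_tt hI hS hL _ _ _ _ hl,
    Tm_eq_tt hI hS hL _ _ _ _ hl] at h
  rw [lift_mon, lift_mon, lift_mon, lift_mon, h]

theorem FCt_add {s : ℕ → Qt hI} {i : ℕ} {f g : FA K} (hf : FCt hI hS hL s i f)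
    (hg : FCt hI hS hL s i g) : FCt hI hS hL s i (f + g) := by
  intro x y
  have h1 := hf x y
  have h2 := hg x y
  simp only [map_add] at h1 h2 ⊢
  linear_combination (norm := module) h1 + h2

theorem FCt_smul {s : ℕ → Qt hI} {i : ℕ} {f : FA K} (c : K) (hf : FCt hI hS hL s i f) :
    FCt hI hS hL s i (c • f) := by
  intro x y
  have h1 := hf x y
  simp only [map_smul] at h1 ⊢
  linear_combination (norm := module) c • h1

theorem FCt_sub {s : ℕ → Qt hI} {i : ℕ} {f g : FA K} (hf : FCt hI hS hL s i f)
    (hg : FCt hI hS hL s i g) : FCt hI hS hL s i (f - g) := by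
  intro x y
  have h1 := hf x y
  have h2 := hg x y
  simp only [map_sub] at h1 h2 ⊢
  linear_combination (norm := module) h1 - h2

theorem FCt_q (s : ℕ → Qt hI) :
    FCt hI hS hL s 2 (q K (of K 0) (of K 1) (of K 2) (of K 3)) := by
  simp only [q, Me, Jac, mul_sub, mul_add, mul_smul_comm, smul_sub, ← mon_of, ← mon_mul]
  have T : ∀ m₁ m₂ m₃ : FreeMagma ℕ, cnt 2 m₁ = 1 → cnt 2 m₂ = 1 → cnt 2 m₃ = 1 →
      2 ≤ m₁.length → 2 ≤ m₂.length → 2 ≤ m₃.length → FCt hI hS hL s 2
        ((1 / 2 : K) • mon K m₁ - (1 / 2 : K) • (1 / 3 : K) •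
          (mon K m₁ + mon K m₂ + mon K m₃)) := by
    intro m₁ m₂ m₃ h1 h2 h3 l1 l2 l3
    have M1 := FCt_mon hI hS hL s 2 m₁ h1 l1
    have M2 := FCt_mon hI hS hL s 2 m₂ h2 l2
    have M3 := FCt_mon hI hS hL s 2 m₃ h3 l3
    exact FCt_sub hI hS hL (FCt_smul hI hS hL _ M1) (FCt_smul hI hS hL _ (FCt_smul hI hS hL _
      (FCt_add hI hS hL (FCt_add hI hS hL M1 M2) M3)))
  refine FCt_sub hI hS hL (FCt_sub hI hS hL (T _ _ _ ?_ ?_ ?_ ?_ ?_ ?_)
    (T _ _ _ ?_ ?_ ?_ ?_ ?_ ?_)) (T _ _ _ ?_ ?_ ?_ ?_ ?_ ?_)
  all_goals decide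

theorem tt_comm (x y u v w : Qt hI) : tt hI hS hL x y (tt hI hS hL u v w)
    = tt hI hS hL u v (tt hI hS hL x y w) := by
  have hW := isW_Qt hI hS
  have key : ∀ a b : Qt hI, tt hI hS hL x y (tt hI hS hL u v (a * b))
      = tt hI hS hL u v (tt hI hS hL x y (a * b)) := by
    obtain ⟨Y, hY⟩ : ∃ Y : Qt hI → Qt hI → Qt hI → Qt hI → Qt hI, ∀ x y a b, Y x y a b
      = tt hI hS hL x y (tt hI hS hL u v (a * b)) - tt hI hS hL u v (tt hI hS hL x y (a * b)) :=
      ⟨_, fun _ _ _ _ => rfl⟩
    have s1 : ∀ x y a b, Y x y a b = Y y x a b := by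
      intro x y a b
      rw [hY, hY, tt_symm hI hS hL x y, tt_symm hI hS hL x y (a * b)]
    have s2 : ∀ x y a b, Y x y a b = -Y x y b a := by
      intro x y a b
      rw [hY, hY, hW.mal.anticomm a b]
      simp only [map_neg]
      abel
    have s3 : ∀ x y a b, (2 : K) • Y x y a b = Y x a y b + Y y a x b := by
      intro x y a b
      have e := FCt_q hI hS hL (sub5 u v a b b) x y
      simp only [map_q, lift_of_apply] at e
      have u1 : ∀ c : Qt hI, Function.update (sub5 u v a b b) 2 c 0 = u := fun c => rfl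
      have u2 : ∀ c : Qt hI, Function.update (sub5 u v a b b) 2 c 1 = v := fun c => rfl
      have u3 : ∀ c : Qt hI, Function.update (sub5 u v a b b) 2 c 2 = c := fun c => rfl
      have u4 : ∀ c : Qt hI, Function.update (sub5 u v a b b) 2 c 3 = b := fun c => rfl
      have u5 : sub5 u v a b b 0 = u := rfl
      have u6 : sub5 u v a b b 1 = v := rfl
      have u7 : sub5 u v a b b 2 = a := rfl
      have u8 : sub5 u v a b b 3 = b := rfl
      simp only [u1, u2, u3, u4, u5, u6, u7, u8] at e
      rw [← tt_mul hI hS hL u v _ b, V3 K hW.mal x y a b, ← tt_mul hI hS hL u v a b,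
        ← tt_mul hI hS hL u v y b, ← tt_mul hI hS hL u v x b, ← tt_mul hI hS hL x y a b,
        ← tt_mul hI hS hL x a y b, ← tt_mul hI hS hL y a x b] at e
      simp only [map_add, map_neg, map_smul, neg_smul] at e
      simp only [hY]
      linear_combination (norm := module) e
    have s4 : ∀ x y a b, Y x y a b = Y x a y b := by
      intro x y a b
      have e1 := s3 x y a b
      have e2 := s3 x a y b
      rw [s1 a y x b] at e2
      have e4 : (3 : K) • (Y x y a b - Y x a y b) = 0 := by
        linear_combination (norm := module) e1 - e2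
      rcases smul_eq_zero.1 e4 with h | h
      · exact absurd h three_ne_zero
      · exact sub_eq_zero.1 h
    have s5 : ∀ x y a b, Y x y a b = 0 := by
      intro x y a b
      have e : Y x y a b = -Y x y a b := by
        conv_lhs => rw [s2, s4, s2, neg_neg, s4, s2, s4]
      have e2 : (2 : K) • Y x y a b = 0 := by
        rw [two_smul]; nth_rewrite 1 [e]; exact neg_add_cancel _
      rcases smul_eq_zero.1 e2 with h | h
      · exact absurd h two_ne_zero
      · exact h
    intro a b
    have := s5 x y a b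
    rw [hY] at this
    exact sub_eq_zero.1 this
  refine LinearMap.congr_fun (f := (tt hI hS hL x y).comp (tt hI hS hL u v))
    (g := (tt hI hS hL u v).comp (tt hI hS hL x y))
    (Qt_ext hI (fun i => ?_) (fun a b => ?_)) w
  · rw [LinearMap.comp_apply, LinearMap.comp_apply, tt_of, tt_of, map_zero, map_zero]
  · exact key a b

theorem tOps : TOps (tt hI hS hL) where
  symm := tt_symm hI hS hL
  mul := tt_mul hI hS hL
  comm := tt_comm hI hS hL
  w4 := tt_w4 hI hS hL

theorem tt_tt (x y a b z w : Qt hI) : tt hI hS hL (tt hI hS hL x y (a * b)) z w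
    = tt hI hS hL x y (tt hI hS hL (a * b) z w) := by
  refine LinearMap.congr_fun (f := tt hI hS hL (tt hI hS hL x y (a * b)) z)
    (g := (tt hI hS hL x y).comp (tt hI hS hL (a * b) z))
    (Qt_ext hI (fun i => ?_) (fun c d => ?_)) w
  · rw [LinearMap.comp_apply, tt_of, tt_of, map_zero]
  · rw [LinearMap.comp_apply, tt_mul hI hS hL (tt hI hS hL x y (a * b)) z c d,
      tt_mul hI hS hL (a * b) z c d]
    simp only [q, Me, Jac, mul_sub, mul_add, mul_smul_comm, tt_R, tt_L, map_sub, map_add,
      map_smul]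

end ops

end Pool.Agent.Lib.MP_cad252_al.Z
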