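import Pool.Agent.Lib.MP_cad252_al.Z.V
import Pool.Agent.Lib.MP_cad252_al.Z.Cnt

/-!
Linear extension from words, the quotient by a T-ideal, the four defining polynomials.
-/

set_option linter.unusedSimpArgs false
set_option linter.unusedSectionVars false

namespace Pool.Agent.Lib.MP_cad252_al.Z

open Pool.Agent.Lib.MP_cad252_al.H89 FreeNonUnitalNonAssocAlgebra

universe u v w

section ext

variable (K : Type u) [Field K] {V : Type v} [AddCommGroup V] [Module K V]

/-- Linear extension of a function on words. -/
noncomputable def lext (φ : FreeMagma ℕ → V) : FA K →ₗ[K] V where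
  toFun f := f.coeff.sum fun m c => c • φ m
  map_add' f g := by
    rw [MonoidAlgebra.coeff_add, Finsupp.sum_add_index']
    · intro m; exact zero_smul _ _
    · intro m b c; exact add_smul _ _ _
  map_smul' c f := by
    rw [MonoidAlgebra.coeff_smul, Finsupp.sum_smul_index', Finsupp.smul_sum]
    · refine Finsupp.sum_congr fun m _ => ?_
      rw [smul_assoc]; rfl
    · intro m; exact zero_smul _ _

theorem lext_mon (φ : FreeMagma ℕ → V) (m : FreeMagma ℕ) : lext K φ (mon K m) = φ m := by
  change (mon K m).coeff.sum (fun m c => c • φ m) = φ m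
  rw [mon, MonoidAlgebra.coeff_single, Finsupp.sum_single_index]
  · exact one_smul _ _
  · exact zero_smul _ _

theorem lin_ext {g h : FA K →ₗ[K] V} (H : ∀ m, g (mon K m) = h (mon K m)) : g = h := by
  apply LinearMap.ext
  intro f
  rw [eq_sum K f, map_sum, map_sum]
  refine Finset.sum_congr rfl fun m _ => ?_
  rw [map_smul, map_smul, H]

theorem lext_apply (φ : FreeMagma ℕ → V) (f : FA K) :
    lext K φ f = ∑ m ∈ f.coeff.support, f.coeff m • φ m := rfl

end ext

section quotient

variable {K : Type u} [Field K] {I : Submodule K (FA K)}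

/-- The quotient algebra of `FA K` by a T-ideal. -/
def Qt (_ : IsTIdeal K I) : Type u := FA K ⧸ I

variable (hI : IsTIdeal K I)

noncomputable instance : AddCommGroup (Qt hI) := inferInstanceAs (AddCommGroup (FA K ⧸ I))

noncomputable instance : Module K (Qt hI) := inferInstanceAs (Module K (FA K ⧸ I))

/-- The projection. -/
noncomputable def pj (hI : IsTIdeal K I) : FA K →ₗ[K] Qt hI := Submodule.mkQ I

theorem pj_surjective : Function.Surjective (pj hI) := Submodule.mkQ_surjective I

theorem pj_eq_zero {f : FA K} : pj hI f = 0 ↔ f ∈ I := Submodule.Quotient.mk_eq_zero I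

theorem pj_eq {f g : FA K} : pj hI f = pj hI g ↔ f - g ∈ I := by
  rw [← pj_eq_zero hI, map_sub, sub_eq_zero]

/-- The product of the quotient as a bilinear map. -/
noncomputable def mulQ (hI : IsTIdeal K I) : Qt hI →ₗ[K] Qt hI →ₗ[K] Qt hI :=
  Submodule.liftQ I
    { toFun := fun f => Submodule.liftQ I ((pj hI).comp (LinearMap.mulLeft K f)) (by
        intro g hg
        rw [LinearMap.mem_ker]
        exact (pj_eq_zero hI).2 (hI.mul_left f g hg))
      map_add' := by
        intro f g
        apply LinearMap.ext
        intro x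
        obtain ⟨x, rfl⟩ := pj_surjective hI x
        change pj hI ((f + g) * x) = pj hI (f * x) + pj hI (g * x)
        rw [add_mul, map_add]
      map_smul' := by
        intro c f
        apply LinearMap.ext
        intro x
        obtain ⟨x, rfl⟩ := pj_surjective hI x
        change pj hI ((c • f) * x) = c • pj hI (f * x)
        rw [smul_mul_assoc, map_smul] }
    (by
      intro f hf
      rw [LinearMap.mem_ker]
      apply LinearMap.ext
      intro x
      obtain ⟨x, rfl⟩ := pj_surjective hI x
      exact (pj_eq_zero hI).2 (hI.mul_right x f hf))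

noncomputable instance : Mul (Qt hI) := ⟨fun a b => mulQ hI a b⟩

theorem pj_mul (f g : FA K) : pj hI (f * g) = pj hI f * pj hI g := rfl

noncomputable instance : NonUnitalNonAssocRing (Qt hI) where
  left_distrib a b c := map_add (mulQ hI a) b c
  right_distrib a b c := by
    change mulQ hI (a + b) c = mulQ hI a c + mulQ hI b c
    rw [map_add]; rfl
  zero_mul a := by
    change mulQ hI 0 a = 0
    rw [map_zero]; rfl
  mul_zero a := map_zero (mulQ hI a)

noncomputable instance : IsScalarTower K (Qt hI) (Qt hI) where
  smul_assoc c a b := by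
    change mulQ hI (c • a) b = c • mulQ hI a b
    rw [map_smul]; rfl

noncomputable instance : SMulCommClass K (Qt hI) (Qt hI) where
  smul_comm c a b := by
    change c • mulQ hI a b = mulQ hI a (c • b)
    rw [map_smul]

/-- The projection as a homomorphism of algebras. -/
noncomputable def pja : FA K →ₙₐ[K] Qt hI where
  toFun := pj hI
  map_smul' := map_smul (pj hI)
  map_zero' := map_zero (pj hI)
  map_add' := map_add (pj hI)
  map_mul' := pj_mul hI

theorem pja_apply (f : FA K) : pja hI f = pj hI f := rfl

theorem lift_pj (σ : ℕ → FA K) (f : FA K) :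
    lift K (fun i => pj hI (σ i)) f = pj hI (lift K σ f) := by
  have h2 : (pja hI).comp (lift K σ) = lift K (fun i => pj hI (σ i)) := by
    apply FreeNonUnitalNonAssocAlgebra.hom_ext
    intro x
    simp [pja_apply]
  rw [← h2]; rfl

theorem Qt_satisfies {f : FA K} (hf : f ∈ I) : Satisfies K (Qt hI) f := by
  intro s
  have : s = fun i => pj hI ((fun i => Function.surjInv (pj_surjective hI) (s i)) i) := by
    funext i
    exact (Function.surjInv_eq (pj_surjective hI) (s i)).symm
  rw [this, lift_pj, pj_eq_zero]
  exact hI.subst _ _ hf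

end quotient

section maps

variable {K : Type u} [Field K] {A : Type v} {B : Type w} [NonUnitalNonAssocRing A] [Module K A]
  [NonUnitalNonAssocRing B] [Module K B] (φ : A →ₙₐ[K] B)

theorem map_Jac' (x y z : A) : φ (Jac x y z) = Jac (φ x) (φ y) (φ z) := by
  simp only [Jac, map_add, map_mul]

theorem map_Me (x y z : A) : φ (Me K x y z) = Me K (φ x) (φ y) (φ z) := by
  simp only [Me, map_sub, map_mul, map_smul, map_Jac']

theorem map_q (x y a b : A) : φ (q K x y a b) = q K (φ x) (φ y) (φ a) (φ b) := by
  simp only [q, map_sub, map_mul, map_smul, map_Me]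

end maps

section basis

variable (K : Type u) [Field K]

/-- The defining polynomials of the variety. -/
noncomputable def P1 : FA K := of K 0 * of K 0

/-- The defining polynomials of the variety. -/
noncomputable def P2 : FA K :=
  Jac (of K 0) (of K 1) (of K 0 * of K 2) - Jac (of K 0) (of K 1) (of K 2) * of K 0

/-- The defining polynomials of the variety. -/
noncomputable def P3 : FA K :=
  q K (of K 0) (of K 1) (of K 2) (of K 3) * of K 4
    - q K (of K 0) (of K 1) (of K 2 * of K 3) (of K 4)

/-- The defining polynomials of the variety. -/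
noncomputable def P4 : FA K :=
  q K (of K 0 * of K 1) (of K 2) (of K 3) (of K 4)
    - q K (of K 0) (of K 1 * of K 2) (of K 3) (of K 4)

open Classical in
/-- The defining polynomials of the variety. -/
noncomputable def S0 : Finset (FA K) := {P1 K, P2 K, P3 K, P4 K}

/-- A substitution with five given values. -/
def sub5 {A : Type v} (a b c d e : A) : ℕ → A
  | 0 => a
  | 1 => b
  | 2 => c
  | 3 => d
  | _ => e

variable {K} {A : Type v} [NonUnitalNonAssocRing A] [Module K A]
  [IsScalarTower K A A] [SMulCommClass K A A]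

theorem lift_P1 (s : ℕ → A) : lift K s (P1 K) = s 0 * s 0 := by
  simp only [P1, map_mul, lift_of_apply]

theorem lift_P2 (s : ℕ → A) :
    lift K s (P2 K) = Jac (s 0) (s 1) (s 0 * s 2) - Jac (s 0) (s 1) (s 2) * s 0 := by
  simp only [P2, map_mul, map_sub, map_Jac', lift_of_apply]

theorem lift_P3 (s : ℕ → A) :
    lift K s (P3 K) = q K (s 0) (s 1) (s 2) (s 3) * s 4 - q K (s 0) (s 1) (s 2 * s 3) (s 4) := by
  simp only [P3, map_mul, map_sub, map_q, lift_of_apply]

theorem lift_P4 (s : ℕ → A) :
    lift K s (P4 K) = q K (s 0 * s 1) (s 2) (s 3) (s 4) - q K (s 0) (s 1 * s 2) (s 3) (s 4) := by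
  simp only [P4, map_mul, map_sub, map_q, lift_of_apply]

theorem IsW.satisfies (h : IsW K A) : ∀ f ∈ S0 K, Satisfies K A f := by
  intro f hf s
  simp only [S0, Finset.mem_insert, Finset.mem_singleton] at hf
  rcases hf with rfl | rfl | rfl | rfl
  · rw [lift_P1]; exact h.mal.sq _
  · rw [lift_P2, h.mal.malcev, sub_self]
  · rw [lift_P3, h.w3, sub_self]
  · rw [lift_P4, h.w4, sub_self]

theorem isW_of_satisfies (h : ∀ f ∈ S0 K, Satisfies K A f) : IsW K A := by
  have m1 : P1 K ∈ S0 K := by simp [S0]
  have m2 : P2 K ∈ S0 K := by simp [S0]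
  have m3 : P3 K ∈ S0 K := by simp [S0]
  have m4 : P4 K ∈ S0 K := by simp [S0]
  refine ⟨⟨fun x => ?_, fun x y z => ?_⟩, fun x y a b c => ?_, fun x y z a b => ?_⟩
  · have := h _ m1 (sub5 x x x x x); rwa [lift_P1] at this
  · have := h _ m2 (sub5 x y z z z); rw [lift_P2] at this; exact sub_eq_zero.1 this
  · have := h _ m3 (sub5 x y a b c); rw [lift_P3] at this; exact sub_eq_zero.1 this
  · have := h _ m4 (sub5 x y z a b); rw [lift_P4] at this; exact sub_eq_zero.1 this

theorem isW_Qt {I : Submodule K (FA K)} (hI : IsTIdeal K I) (h : ∀ f ∈ S0 K, f ∈ I) :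
    IsW K (Qt hI) :=
  isW_of_satisfies fun f hf => Qt_satisfies hI (h f hf)

end basis

end Pool.Agent.Lib.MP_cad252_al.Z
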