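import Mathlib
import Pool.Agent.Lib.MP_cad252_al.H89.FreeMalcev

/-!
Representations of Malcev algebras in characteristic zero: the basic operator identities.
-/

set_option linter.unusedSimpArgs false

namespace Pool.Agent.Lib.MP_cad252_al.Z

open Pool.Agent.Lib.MP_cad252_al.H89

section rep

variable {K A R : Type*} [Field K] [CharZero K] [NonUnitalNonAssocRing A] [Module K A] [Ring R]
  [Algebra K R]

/-- `D x y = L (xy) - [L x, L y]`. -/
def D (L : A →ₗ[K] R) (x y : A) : R := L (x * y) - L x * L y + L y * L x

/-- `M x y = L (xy) - D x y / 3`. -/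
def Mo (L : A →ₗ[K] R) (x y : A) : R := L (x * y) - (1 / 3 : K) • D L x y

/-- The operator identities satisfied by the left multiplications of a Malcev algebra. -/
structure MRep (L : A →ₗ[K] R) : Prop where
  sq : ∀ x : A, x * x = 0
  m1 : ∀ x y t, D L x y * L t + D L t y * L x + L t * D L x y + L x * D L t y = 0
  m3 : ∀ t y z, D L y (t * z) - D L t y * L z + L t * D L y z - L (Jac t y z) = 0

variable {L : A →ₗ[K] R}

theorem anti (h : MRep L) (x y : A) : y * x = -(x * y) := by
  have e := h.sq (x + y)
  rw [mul_add, add_mul, add_mul, h.sq, h.sq, zero_add, add_zero] at e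
  rw [eq_neg_iff_add_eq_zero]
  exact e

theorem D_swap (h : MRep L) (x y : A) : D L y x = - D L x y := by
  unfold D
  rw [anti h x y, map_neg]
  abel

theorem D_self (h : MRep L) (x : A) : D L x x = 0 := by
  unfold D
  rw [h.sq, map_zero]
  abel

theorem D_add_left (x y z : A) : D L (x + y) z = D L x z + D L y z := by
  unfold D
  simp only [add_mul, mul_add, map_add]
  abel

theorem D_add_right (x y z : A) : D L x (y + z) = D L x y + D L x z := by
  unfold D
  simp only [add_mul, mul_add, map_add]
  abel

theorem D_neg_left (x y : A) : D L (-x) y = - D L x y := by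
  unfold D
  simp only [neg_mul, mul_neg, map_neg]
  abel

theorem D_neg_right (x y : A) : D L x (-y) = - D L x y := by
  unfold D
  simp only [neg_mul, mul_neg, map_neg]
  abel

theorem L_mul (x y : A) : L (x * y) = D L x y + L x * L y - L y * L x := by
  unfold D
  abel

theorem S_eq (h : MRep L) (x y z : A) :
    L x * D L y z + D L y z * L x - L y * D L z x - D L z x * L y = 0 := by
  have e := h.m1 x z y
  rw [← e, D_swap h x z]
  simp only [neg_mul, mul_neg]
  abel

theorem D_mul_left (h : MRep L) (x y z : A) : D L (x * y) z =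
    L z * D L x y - D L x y * L z
      + (1 / 2 : K) • (L x * D L y z - D L y z * L x)
      + (1 / 2 : K) • (L y * D L z x - D L z x * L y) := by
  have e1 := h.m3 x y z
  have e2 := h.m3 x z y
  have e3 := h.m3 z x y
  have a1 : z * x = -(x * z) := anti h x z
  have a2 : y * x = -(x * y) := anti h x y
  have a3 : z * y = -(y * z) := anti h y z
  have a4 : z * (x * y) = -((x * y) * z) := anti h _ _
  have a5 : y * (x * z) = -((x * z) * y) := anti h _ _
  have a6 : x * (y * z) = -((y * z) * x) := anti h _ _
  unfold Jac at e1 e2 e3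
  unfold D at *
  simp only [a1, a2, a3, a4, a5, a6, map_add, map_neg, neg_mul, mul_neg, mul_add, add_mul, mul_sub,
    sub_mul, mul_assoc, neg_neg] at e1 e2 e3 ⊢
  linear_combination (norm := module) (-(1 / 2 : K)) • e1 + (-(1 / 2 : K)) • e2
    + (-(1 / 2 : K)) • e3

end rep

end Pool.Agent.Lib.MP_cad252_al.Z
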