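import Pool.Agent.Lib.MP_cad252_al.Z.Rep

/-!
Operator identities of degrees four and five.
-/

set_option linter.unusedSimpArgs false
set_option linter.unusedSectionVars false

namespace Pool.Agent.Lib.MP_cad252_al.Z

open Pool.Agent.Lib.MP_cad252_al.H89

section rep

variable {K A R : Type*} [Field K] [CharZero K] [NonUnitalNonAssocRing A] [Module K A] [Ring R]
  [Algebra K R] {L : A →ₗ[K] R}

theorem N_eq (h : MRep L) (x z y u : A) :
    Mo L x y * D L z u + Mo L z y * D L x u + Mo L x u * D L z y + Mo L z u * D L x y = 0 := by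
  have Dsmu : ∀ p q : A, D L u (p * q) = -D L (p * q) u := fun p q => D_swap h _ _
  have Dsmx : ∀ p q : A, D L x (p * q) = -D L (p * q) x := fun p q => D_swap h _ _
  have Dsmy : ∀ p q : A, D L y (p * q) = -D L (p * q) y := fun p q => D_swap h _ _
  have Dsmz : ∀ p q : A, D L z (p * q) = -D L (p * q) z := fun p q => D_swap h _ _
  have Dswux : D L x u = -D L u x := D_swap h _ _
  have Dswuy : D L y u = -D L u y := D_swap h _ _
  have Dswuz : D L z u = -D L u z := D_swap h _ _
  have Dswxy : D L y x = -D L x y := D_swap h _ _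
  have Dswxz : D L z x = -D L x z := D_swap h _ _
  have Dswyz : D L z y = -D L y z := D_swap h _ _
  have j0 := congrArg (fun t => (L y) * t) (S_eq h u x z)
  have j1 := congrArg (fun t => t * (L y)) (S_eq h x u z)
  have j2 := S_eq h x (z * u) y
  have j3 := S_eq h x (z * y) u
  have j4 := congrArg (fun t => t * (L z)) (S_eq h y u x)
  have j5 := congrArg (fun t => (L z) * t) (S_eq h y u x)
  have j6 := congrArg (fun t => t * (L x)) (S_eq h y u z)
  have j7 := congrArg (fun t => (L x) * t) (S_eq h y u z)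
  have j8 := congrArg (fun t => t * (L y)) (S_eq h z u x)
  have j9 := congrArg (fun t => (L y) * t) (S_eq h z u x)
  have j10 := congrArg (fun t => t * (L u)) (S_eq h z x y)
  have j11 := congrArg (fun t => (L u) * t) (S_eq h z x y)
  have j12 := S_eq h z (x * u) y
  have j13 := S_eq h z (y * x) u
  simp only [Mo, L_mul, D_mul_left h, Jac, D_add_left, D_add_right, D_neg_left, D_neg_right,
    map_add, map_neg, map_smul, D_self h, neg_mul, mul_neg, neg_neg, mul_add, add_mul, mul_sub,
      sub_mul,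
    mul_assoc, mul_zero, zero_mul, neg_zero, smul_add, smul_sub, smul_neg, smul_zero,
    smul_mul_assoc, mul_smul_comm, smul_smul,
    Dsmu, Dsmx, Dsmy, Dsmz, Dswux, Dswuy, Dswuz, Dswxy, Dswxz, Dswyz]
    at j0 j1 j2 j3 j4 j5 j6 j7 j8 j9 j10 j11 j12 j13 ⊢
  linear_combination (norm := module) (2 / 3 : K) • j0 + (1 / 3 : K) • j1 + (1 / 3 : K) • j2
      + (1 / 3 : K) • j3 + (-1 / 2 : K) • j4 + (-1 / 2 : K) • j5 + (-1 / 2 : K) • j6
      + (-1 / 2 : K) • j7 + (1 / 3 : K) • j8 + (2 / 3 : K) • j9 + (-1 / 3 : K) • j10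
      + (-2 / 3 : K) • j11 + (1 / 3 : K) • j12 + (-1 / 3 : K) • j13

theorem R_eq (h : MRep L) (a c d u : A) :
    L c * Mo L a d * D L a u - Mo L c d * L a * D L a u + Mo L a d * L a * D L c u
      + L a * Mo L a c * D L d u - Mo L a c * L a * D L d u
      + Mo L a d * D L (a * c) u - Mo L a c * D L (a * d) u = 0 := by
  have Dsma : ∀ p q : A, D L a (p * q) = -D L (p * q) a := fun p q => D_swap h _ _
  have Dsmc : ∀ p q : A, D L c (p * q) = -D L (p * q) c := fun p q => D_swap h _ _
  have Dsmd : ∀ p q : A, D L d (p * q) = -D L (p * q) d := fun p q => D_swap h _ _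
  have Dsmu : ∀ p q : A, D L u (p * q) = -D L (p * q) u := fun p q => D_swap h _ _
  have Dswac : D L c a = -D L a c := D_swap h _ _
  have Dswad : D L d a = -D L a d := D_swap h _ _
  have Dswau : D L u a = -D L a u := D_swap h _ _
  have Dswcd : D L d c = -D L c d := D_swap h _ _
  have Dswcu : D L u c = -D L c u := D_swap h _ _
  have Dswdu : D L u d = -D L d u := D_swap h _ _
  have j0 := congrArg (fun t => (L c * L d) * t) (S_eq h a a u)
  have j1 := congrArg (fun t => (L d * L c) * t) (S_eq h a a u)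
  have j2 := congrArg (fun t => (D L c d) * t) (S_eq h a a u)
  have j3 := congrArg (fun t => t * (L d)) (N_eq h a a c u)
  have j4 := congrArg (fun t => (L d) * t) (N_eq h a a c u)
  have j5 := congrArg (fun t => t * (L a)) (N_eq h a d c u)
  have j6 := congrArg (fun t => (L a) * t) (N_eq h a d c u)
  have j7 := congrArg (fun t => (L a * L d) * t) (S_eq h a c u)
  have j8 := congrArg (fun t => (L d * L a) * t) (S_eq h a c u)
  have j9 := congrArg (fun t => (D L a d) * t) (S_eq h a c u)
  have j10 := congrArg (fun t => t * (L c)) (N_eq h a a d u)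
  have j11 := congrArg (fun t => (L c) * t) (N_eq h a a d u)
  have j12 := N_eq h a u (c * a) d
  have j13 := N_eq h a a (u * d) c
  have j14 := N_eq h (d * a) a c u
  have j15 := N_eq h (u * a) c a d
  have j16 := N_eq h (u * c) d a a
  simp only [Mo, L_mul, D_mul_left h, Jac, D_add_left, D_add_right, D_neg_left, D_neg_right,
    map_add, map_neg, map_smul, D_self h, neg_mul, mul_neg, neg_neg, mul_add, add_mul, mul_sub,
      sub_mul,
    mul_assoc, mul_zero, zero_mul, neg_zero, smul_add, smul_sub, smul_neg, smul_zero,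
    smul_mul_assoc, mul_smul_comm, smul_smul,
    Dsma, Dsmc, Dsmd, Dsmu, Dswac, Dswad, Dswau, Dswcd, Dswcu, Dswdu]
    at j0 j1 j2 j3 j4 j5 j6 j7 j8 j9 j10 j11 j12 j13 j14 j15 j16 ⊢
  linear_combination (norm := module) (-1 / 4 : K) • j0 + (1 / 4 : K) • j1 + (-1 / 6 : K) • j2
      + (1 / 6 : K) • j3 + (-1 / 6 : K) • j4 + (-1 / 3 : K) • j5 + (1 / 3 : K) • j6
      + (1 / 2 : K) • j7 + (-1 / 2 : K) • j8 + (1 / 3 : K) • j9 + (-1 / 3 : K) • j10
      + (1 / 3 : K) • j11 + (2 / 3 : K) • j12 + (-1 / 6 : K) • j13 + (2 / 3 : K) • j14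
      + (1 / 3 : K) • j15 + (1 / 3 : K) • j16

theorem Q_eq (h : MRep L) (x y u : A) :
    L x * Mo L x y * D L x u = 0 := by
  have Dsmu : ∀ p q : A, D L u (p * q) = -D L (p * q) u := fun p q => D_swap h _ _
  have Dsmx : ∀ p q : A, D L x (p * q) = -D L (p * q) x := fun p q => D_swap h _ _
  have Dsmy : ∀ p q : A, D L y (p * q) = -D L (p * q) y := fun p q => D_swap h _ _
  have Dswux : D L x u = -D L u x := D_swap h _ _
  have Dswuy : D L y u = -D L u y := D_swap h _ _
  have Dswxy : D L y x = -D L x y := D_swap h _ _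
  have j0 := congrArg (fun t => t * (L x * L x)) (S_eq h u x y)
  have j1 := congrArg (fun t => (L x * L x) * t) (S_eq h u x y)
  have j2 := congrArg (fun t => (L x) * t) (N_eq h u y x x)
  have j3 := congrArg (fun t => t * (L x)) (S_eq h u (y * x) x)
  have j4 := congrArg (fun t => (L x) * t) (S_eq h u (y * x) x)
  have j5 := congrArg (fun t => (L x * L y) * t) (S_eq h x u x)
  have j6 := congrArg (fun t => (L y * L x) * t) (S_eq h x u x)
  have j7 := congrArg (fun t => t * (D L x y)) (S_eq h x u x)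
  have j8 := congrArg (fun t => t * (L u * L x)) (S_eq h x x y)
  have j9 := congrArg (fun t => (L u) * t * (L x)) (S_eq h x x y)
  have j10 := congrArg (fun t => (L u * L x) * t) (S_eq h x x y)
  have j11 := congrArg (fun t => t * (L x * L u)) (S_eq h x x y)
  have j12 := congrArg (fun t => (L x) * t * (L u)) (S_eq h x x y)
  have j13 := congrArg (fun t => (L x * L u) * t) (S_eq h x x y)
  have j14 := congrArg (fun t => t * (D L u x)) (S_eq h x x y)
  have j15 := congrArg (fun t => (D L u x) * t) (S_eq h x x y)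
  have j16 := N_eq h x x (x * u) y
  have j17 := S_eq h x (x * u) (y * x)
  have j18 := congrArg (fun t => t * (L x)) (S_eq h x (y * u) x)
  have j19 := N_eq h x x (y * x) u
  have j20 := congrArg (fun t => (L x) * t * (L x)) (S_eq h y u x)
  have j21 := congrArg (fun t => (L x * L x) * t) (S_eq h y u x)
  simp only [Mo, L_mul, D_mul_left h, Jac, D_add_left, D_add_right, D_neg_left, D_neg_right,
    map_add, map_neg, map_smul, D_self h, neg_mul, mul_neg, neg_neg, mul_add, add_mul, mul_sub,
      sub_mul,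
    mul_assoc, mul_zero, zero_mul, neg_zero, smul_add, smul_sub, smul_neg, smul_zero,
    smul_mul_assoc, mul_smul_comm, smul_smul,
    Dsmu, Dsmx, Dsmy, Dswux, Dswuy, Dswxy]
    at j0 j1 j2 j3 j4 j5 j6 j7 j8 j9 j10 j11 j12 j13 j14 j15 j16 j17 j18 j19 j20 j21 ⊢
  linear_combination (norm := module) (1 / 52 : K) • j0 + (-1 / 52 : K) • j1 + (1 / 4 : K) • j2
      + (1 / 13 : K) • j3 + (1 / 13 : K) • j4 + (-1 / 26 : K) • j5 + (1 / 13 : K) • j6
      + (1 / 39 : K) • j7 + (-1 / 104 : K) • j8 + (-3 / 104 : K) • j9 + (7 / 52 : K) • j10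
      + (-1 / 52 : K) • j11 + (1 / 104 : K) • j12 + (-11 / 104 : K) • j13
      + (-1 / 156 : K) • j14 + (11 / 156 : K) • j15 + (-3 / 13 : K) • j16 + (-1 / 13 : K) • j17
      + (-1 / 26 : K) • j18 + (-2 / 13 : K) • j19 + (-1 / 52 : K) • j20 + (-1 / 52 : K) • j21

end rep

end Pool.Agent.Lib.MP_cad252_al.Z
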