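import Pool.Agent.Lib.MP_cad252_al.Z.Rep2

/-!
Operator identities used for the Jacobian ideal (characteristic zero).
-/

set_option linter.unusedSimpArgs false
set_option linter.unusedSectionVars false

namespace Pool.Agent.Lib.MP_cad252_al.Z

open Pool.Agent.Lib.MP_cad252_al.H89

section elements

variable (K : Type*) {A : Type*} [Field K] [NonUnitalNonAssocRing A] [Module K A]

/-- `M(x,y)z = (xy)z - J(x,y,z)/3`. -/
def Me (x y z : A) : A := (x * y) * z - (1 / 3 : K) • Jac x y z

/-- The operation `q`. -/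
def q (x w a b : A) : A := (1 / 2 : K) • (a * Me K x b w - b * Me K x a w - x * Me K b a w)

end elements

section rep

variable {K A R : Type*} [Field K] [CharZero K] [NonUnitalNonAssocRing A] [Module K A] [Ring R]
  [Algebra K R] [IsScalarTower K A A] [SMulCommClass K A A] {L : A →ₗ[K] R}

/-- The operator `p ↦ M(x,p)y`. -/
def Mp (L : A →ₗ[K] R) (x y : A) : R := -(L y * L x) - (1 / 3 : K) • D L y x

/-- The operator `p ↦ q(x,y;p,b)`. -/
def Q3 (L : A →ₗ[K] R) (x y b : A) : R :=
  (1 / 2 : K) • (-L (Me K x b y) - L b * Mp L x y - L x * Mp L b y)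

/-- The operator `w ↦ q(x,w;z,y)`. -/
def Q2 (L : A →ₗ[K] R) (x z y : A) : R :=
  (1 / 2 : K) • (L z * Mo L x y - L y * Mo L x z - L x * Mo L y z)

/-- The linearised operator `L a M(a,c) L a`. -/
def Fl (L : A →ₗ[K] R) (a d c : A) : R :=
  L a * Mo L a c * L d + L a * Mo L d c * L a + L d * Mo L a c * L a

/-- The operator of `R_eq` with the last `D`s removed. -/
def F2 (L : A →ₗ[K] R) (a c d : A) : R :=
  L c * Mo L a d * L a - Mo L c d * L a * L a + Mo L a d * L a * L c
    + L a * Mo L a c * L d - Mo L a c * L a * L d + Mo L a d * L (a * c) - Mo L a c * L (a * d)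

theorem K3_eq (h : MRep L) (a c d : A) :
    L a * Q3 L c d a - Q3 L c d a * L a = (1 / 2 : K) • Fl L a d c
      + (1 / 2 : K) • Fl L a c d := by
  have Dsma : ∀ p q : A, D L a (p * q) = -D L (p * q) a := fun p q => D_swap h _ _
  have Dsmc : ∀ p q : A, D L c (p * q) = -D L (p * q) c := fun p q => D_swap h _ _
  have Dsmd : ∀ p q : A, D L d (p * q) = -D L (p * q) d := fun p q => D_swap h _ _
  have Dswac : D L c a = -D L a c := D_swap h _ _
  have Dswad : D L d a = -D L a d := D_swap h _ _
  have Dswcd : D L d c = -D L c d := D_swap h _ _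
  have j0 := congrArg (fun t => t * (L a)) (S_eq h a c d)
  have j1 := congrArg (fun t => (L a) * t) (S_eq h a c d)
  have j2 := congrArg (fun t => t * (L a)) (S_eq h d a c)
  have j3 := congrArg (fun t => (L a) * t) (S_eq h d a c)
  simp only [Mo, L_mul, D_mul_left h, Jac, D_add_left, D_add_right, D_neg_left, D_neg_right,
    map_add, map_neg, map_smul, D_self h, neg_mul, mul_neg, neg_neg, mul_add, add_mul, mul_sub,
      sub_mul,
    mul_assoc, mul_zero, zero_mul, neg_zero, smul_add, smul_sub, smul_neg, smul_zero,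
    smul_mul_assoc, mul_smul_comm, smul_smul, map_sub, Me, q, Mp, Q3, Q2, Fl, F2,
    Dsma, Dsmc, Dsmd, Dswac, Dswad, Dswcd]
    at j0 j1 j2 j3 ⊢
  linear_combination (norm := module) (-1 / 12 : K) • j0 + (-1 / 4 : K) • j1
      + (-1 / 6 : K) • j2 + (-1 / 6 : K) • j3

theorem K4_eq (h : MRep L) (a c d : A) :
    L (q K a a c d) + Q3 L a a (c * d) - L d * Q3 L a a c
      + Q3 L a a d * L c = (1 / 2 : K) • Fl L a d c + Fl L a c d - (1 / 2 : K) • F2 L a c d := by
  have Dsma : ∀ p q : A, D L a (p * q) = -D L (p * q) a := fun p q => D_swap h _ _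
  have Dsmc : ∀ p q : A, D L c (p * q) = -D L (p * q) c := fun p q => D_swap h _ _
  have Dsmd : ∀ p q : A, D L d (p * q) = -D L (p * q) d := fun p q => D_swap h _ _
  have Dswac : D L c a = -D L a c := D_swap h _ _
  have Dswad : D L d a = -D L a d := D_swap h _ _
  have Dswcd : D L d c = -D L c d := D_swap h _ _
  have j0 := congrArg (fun t => t * (L d)) (S_eq h a a c)
  have j1 := congrArg (fun t => (L d) * t) (S_eq h a a c)
  have j2 := congrArg (fun t => t * (L c)) (S_eq h a a d)
  have j3 := congrArg (fun t => (L c) * t) (S_eq h a a d)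
  have j4 := N_eq h a a c d
  have j5 := S_eq h a (d * a) c
  have j6 := S_eq h a (d * c) a
  have j7 := congrArg (fun t => t * (L a)) (S_eq h d a c)
  have j8 := congrArg (fun t => (L a) * t) (S_eq h d a c)
  simp only [Mo, L_mul, D_mul_left h, Jac, D_add_left, D_add_right, D_neg_left, D_neg_right,
    map_add, map_neg, map_smul, D_self h, neg_mul, mul_neg, neg_neg, mul_add, add_mul, mul_sub,
      sub_mul,
    mul_assoc, mul_zero, zero_mul, neg_zero, smul_add, smul_sub, smul_neg, smul_zero,
    smul_mul_assoc, mul_smul_comm, smul_smul, map_sub, Me, q, Mp, Q3, Q2, Fl, F2,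
    Dsma, Dsmc, Dsmd, Dswac, Dswad, Dswcd]
    at j0 j1 j2 j3 j4 j5 j6 j7 j8 ⊢
  linear_combination (norm := module) (1 / 144 : K) • j0 + (-19 / 144 : K) • j1
      + (-5 / 48 : K) • j2 + (-1 / 48 : K) • j3 + (1 / 24 : K) • j4 + (1 / 18 : K) • j5
      + (-1 / 18 : K) • j6 + (-1 / 12 : K) • j7 + (-1 / 12 : K) • j8

theorem K5_eq (h : MRep L) (a c d : A) :
    Q2 L a c d * L a - Q3 L (a * c) a d = -(3 / 4 : K) • Fl L a d c
      + (1 / 4 : K) • F2 L a c d := by
  have Dsma : ∀ p q : A, D L a (p * q) = -D L (p * q) a := fun p q => D_swap h _ _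
  have Dsmc : ∀ p q : A, D L c (p * q) = -D L (p * q) c := fun p q => D_swap h _ _
  have Dsmd : ∀ p q : A, D L d (p * q) = -D L (p * q) d := fun p q => D_swap h _ _
  have Dswac : D L c a = -D L a c := D_swap h _ _
  have Dswad : D L d a = -D L a d := D_swap h _ _
  have Dswcd : D L d c = -D L c d := D_swap h _ _
  have j0 := congrArg (fun t => t * (L d)) (S_eq h a a c)
  have j1 := N_eq h a a c d
  have j2 := S_eq h a (c * a) d
  have j3 := S_eq h d (c * a) a
  simp only [Mo, L_mul, D_mul_left h, Jac, D_add_left, D_add_right, D_neg_left, D_neg_right,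
    map_add, map_neg, map_smul, D_self h, neg_mul, mul_neg, neg_neg, mul_add, add_mul, mul_sub,
      sub_mul,
    mul_assoc, mul_zero, zero_mul, neg_zero, smul_add, smul_sub, smul_neg, smul_zero,
    smul_mul_assoc, mul_smul_comm, smul_smul, map_sub, Me, q, Mp, Q3, Q2, Fl, F2,
    Dsma, Dsmc, Dsmd, Dswac, Dswad, Dswcd]
    at j0 j1 j2 j3 ⊢
  linear_combination (norm := module) (-1 / 12 : K) • j0 + (1 / 8 : K) • j1 + (1 / 6 : K) • j2
      + (-1 / 12 : K) • j3

theorem V1_eq (h : MRep L) (x a b : A) :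
    Q2 L x a b = (1 / 2 : K) • (L a * (L x * L b - (1 / 3 : K) • D L b x) - L b * (L x * L a - (1 / 3 : K) • D L a x) + L (Me K b a x)) := by
  have Dsma : ∀ p q : A, D L a (p * q) = -D L (p * q) a := fun p q => D_swap h _ _
  have Dsmb : ∀ p q : A, D L b (p * q) = -D L (p * q) b := fun p q => D_swap h _ _
  have Dsmx : ∀ p q : A, D L x (p * q) = -D L (p * q) x := fun p q => D_swap h _ _
  have Dswab : D L b a = -D L a b := D_swap h _ _
  have Dswax : D L x a = -D L a x := D_swap h _ _
  have Dswbx : D L x b = -D L b x := D_swap h _ _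
  have j0 := S_eq h a b x
  have j1 := S_eq h x a b
  simp only [Mo, L_mul, D_mul_left h, Jac, D_add_left, D_add_right, D_neg_left, D_neg_right,
    map_add, map_neg, map_smul, D_self h, neg_mul, mul_neg, neg_neg, mul_add, add_mul, mul_sub,
      sub_mul,
    mul_assoc, mul_zero, zero_mul, neg_zero, smul_add, smul_sub, smul_neg, smul_zero,
    smul_mul_assoc, mul_smul_comm, smul_smul, map_sub, Me, q, Mp, Q3, Q2, Fl, F2,
    Dsma, Dsmb, Dsmx, Dswab, Dswax, Dswbx]
    at j0 j1 ⊢
  linear_combination (norm := module) (1 / 12 : K) • j0 + (1 / 6 : K) • j1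

end rep

end Pool.Agent.Lib.MP_cad252_al.Z
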