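import Pool.Agent.Lib.MP_cad252_al.Z.Quo

/-!
A multilinear identity of a `W`-algebra is killed by all operators `tw x y s`.
-/

set_option linter.unusedSimpArgs false
set_option linter.unusedSectionVars false

namespace Pool.Agent.Lib.MP_cad252_al.Z

open Pool.Agent.Lib.MP_cad252_al.H89 FreeNonUnitalNonAssocAlgebra

universe u v w

section T1

variable (K : Type u) [Field K] {A : Type v} [NonUnitalNonAssocRing A] [Module K A]

/-- `q x y` applied to the last multiplication of a word. -/
def Tm (x y : A) (s : ℕ → A) : FreeMagma ℕ → A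
  | FreeMagma.of _ => 0
  | FreeMagma.mul a b => q K x y (ev s a) (ev s b)

theorem Tm_of (x y : A) (s : ℕ → A) (i : ℕ) : Tm K x y s (FreeMagma.of i) = 0 := rfl

theorem Tm_mul (x y : A) (s : ℕ → A) (a b : FreeMagma ℕ) :
    Tm K x y s (a * b) = q K x y (ev s a) (ev s b) := rfl

/-- The linear extension of `Tm`. -/
noncomputable def tw (x y : A) (s : ℕ → A) : FA K →ₗ[K] A := lext K (Tm K x y s)

theorem ev_congr_cnt {s t : ℕ → A} (m : FreeMagma ℕ) (h : ∀ i, cnt i m ≠ 0 → s i = t i) :
    ev s m = ev t m := by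
  induction m with
  | ih1 x => exact h x (by simp [cnt_of])
  | ih2 a b ha hb =>
    rw [ev_mul, ev_mul, ha (fun i hi => h i (by rw [cnt_mul]; omega)),
      hb (fun i hi => h i (by rw [cnt_mul]; omega))]

theorem ev_update {s : ℕ → A} {i : ℕ} (m : FreeMagma ℕ) (h : cnt i m = 0) (u : A) :
    ev (Function.update s i u) m = ev s m := by
  refine ev_congr_cnt m fun j hj => ?_
  have : j ≠ i := by rintro rfl; exact hj h
  rw [Function.update_of_ne this]

theorem ev_swap {s : ℕ → A} {i j : ℕ} (m : FreeMagma ℕ) (hi : cnt i m = 0) (hj : cnt j m = 0) :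
    ev (s ∘ Equiv.swap i j) m = ev s m := by
  refine ev_congr_cnt m fun k hk => ?_
  have h1 : k ≠ i := by rintro rfl; exact hk hi
  have h2 : k ≠ j := by rintro rfl; exact hk hj
  rw [Function.comp_apply, Equiv.swap_apply_of_ne_of_ne h1 h2]

variable [CharZero K] [IsScalarTower K A A] [SMulCommClass K A A]

section C

variable {K}

/-- The statement of the key formula. -/
def FC (K : Type u) [Field K] {A : Type v} [NonUnitalNonAssocRing A] [Module K A]
    (x y : A) (s : ℕ → A) (i : ℕ) (m : FreeMagma ℕ) : Prop :=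
  ev (Function.update s i (x * (y * s i) + y * (x * s i))) m
    = -(2 : K) • Tm K x y s m + Tm K x (s i) (Function.update s i y) m
      + Tm K y (s i) (Function.update s i x) m

theorem FC_swap (hA : IsMalcev A) (x y : A) (s : ℕ → A) (i : ℕ) (a b : FreeMagma ℕ)
    (h : FC K x y s i (a * b)) : FC K x y s i (b * a) := by
  unfold FC at *
  rw [ev_mul] at h ⊢
  simp only [Tm_mul] at h ⊢
  rw [hA.anticomm, h, q_skew K hA x y (ev s a) (ev s b), q_skew K hA x (s i) (ev _ a) (ev _ b),
    q_skew K hA y (s i) (ev _ a) (ev _ b)]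
  module

theorem FC_left_of (hA : IsMalcev A) (x y : A) (s : ℕ → A) (i : ℕ) (b : FreeMagma ℕ)
    (hb : cnt i b = 0) : FC K x y s i (FreeMagma.of i * b) := by
  unfold FC
  rw [ev_mul, ev_update b hb]
  simp only [Tm_mul, ev_of, ev_update b hb, Function.update_self]
  exact V3 K hA x y (s i) (ev s b)

theorem FC_left (hW : IsW K A) (x y : A) (s : ℕ → A) (i : ℕ) (a₁ a₂ b : FreeMagma ℕ)
    (hb : cnt i b = 0) (h : FC K x y s i (a₁ * a₂)) : FC K x y s i ((a₁ * a₂) * b) := by
  unfold FC at *
  rw [ev_mul, h, ev_update b hb]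
  simp only [Tm_mul, add_mul, smul_mul_assoc, hW.w3]
  simp only [ev_mul, ev_update b hb]

theorem lemC (hW : IsW K A) (x y : A) (s : ℕ → A) (i : ℕ) (m : FreeMagma ℕ)
    (hc : cnt i m = 1) (hl : 2 ≤ m.length) : FC K x y s i m := by
  have left : ∀ a b : FreeMagma ℕ, cnt i a = 1 → cnt i b = 0 →
      (2 ≤ a.length → FC K x y s i a) → FC K x y s i (a * b) := by
    intro a b ha hb ih
    induction a with
    | ih1 j =>
      rw [cnt_of] at ha
      have : j = i := by
        by_contra h
        rw [if_neg h] at ha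
        omega
      subst this
      exact FC_left_of hW.mal x y s j b hb
    | ih2 a₁ a₂ _ _ =>
      refine FC_left hW x y s i a₁ a₂ b hb (ih ?_)
      have h1 := a₁.length_pos
      have h2 := a₂.length_pos
      rw [length_mul]; omega
  induction m with
  | ih1 j => rw [length_of] at hl; omega
  | ih2 a b iha ihb =>
    rw [cnt_mul] at hc
    rcases Nat.eq_zero_or_pos (cnt i b) with hb | hb
    · exact left a b (by omega) hb (fun h => iha (by omega) h)
    · exact FC_swap hW.mal x y s i b a
        (left b a (by omega) (by omega) (fun h => ihb (by omega) h))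

end C

/-- A word whose letters occur at most once has two sibling leaves. -/
theorem exists_sib (hA : IsMalcev A) (m : FreeMagma ℕ) (h1 : ∀ i, cnt i m ≤ 1)
    (hl : 2 ≤ m.length) : ∃ i j, i ≠ j ∧ cnt i m = 1 ∧ cnt j m = 1 ∧
      (∀ s : ℕ → A, ev (s ∘ Equiv.swap i j) m = -ev s m) ∧
      (∀ x y : A, ∀ s : ℕ → A, Tm K x y (s ∘ Equiv.swap i j) m = -Tm K x y s m) := by
  induction m with
  | ih1 x => rw [length_of] at hl; omega
  | ih2 a b iha ihb =>
    simp only [cnt_mul] at h1
    by_cases ha : 2 ≤ a.length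
    · obtain ⟨i, j, hij, hi, hj, e, t⟩ := iha (fun i => by have := h1 i; omega) ha
      have bi : cnt i b = 0 := by have := h1 i; omega
      have bj : cnt j b = 0 := by have := h1 j; omega
      refine ⟨i, j, hij, ?_, ?_, ?_, ?_⟩
      · rw [cnt_mul]; omega
      · rw [cnt_mul]; omega
      · intro s; rw [ev_mul, ev_mul, e, ev_swap b bi bj, neg_mul]
      · intro x y s; rw [Tm_mul, Tm_mul, e, ev_swap b bi bj, q_neg3]
    · by_cases hb : 2 ≤ b.length
      · obtain ⟨i, j, hij, hi, hj, e, t⟩ := ihb (fun i => by have := h1 i; omega) hb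
        have bi : cnt i a = 0 := by have := h1 i; omega
        have bj : cnt j a = 0 := by have := h1 j; omega
        refine ⟨i, j, hij, ?_, ?_, ?_, ?_⟩
        · rw [cnt_mul]; omega
        · rw [cnt_mul]; omega
        · intro s; rw [ev_mul, ev_mul, e, ev_swap a bi bj, mul_neg]
        · intro x y s; rw [Tm_mul, Tm_mul, e, ev_swap a bi bj, q_neg4]
      · have key : ∀ c : FreeMagma ℕ, ¬ 2 ≤ c.length → ∃ i, c = FreeMagma.of i := by
          intro c hc
          induction c with
          | ih1 i => exact ⟨i, rfl⟩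
          | ih2 c d _ _ =>
            have h1 := c.length_pos
            have h2 := d.length_pos
            rw [length_mul] at hc; omega
        obtain ⟨i, rfl⟩ := key a ha
        obtain ⟨j, rfl⟩ := key b hb
        have hij : i ≠ j := by
          rintro rfl
          have := h1 i
          simp [cnt_of] at this
        refine ⟨i, j, hij, ?_, ?_, ?_, ?_⟩
        · rw [cnt_mul, cnt_of, cnt_of, if_pos rfl, if_neg hij.symm]
        · rw [cnt_mul, cnt_of, cnt_of, if_neg hij, if_pos rfl]
        · intro s
          rw [ev_mul, ev_mul]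
          simp only [ev_of, Function.comp_apply, Equiv.swap_apply_left, Equiv.swap_apply_right]
          exact hA.anticomm _ _
        · intro x y s
          rw [Tm_mul, Tm_mul]
          simp only [ev_of, Function.comp_apply, Equiv.swap_apply_left, Equiv.swap_apply_right]
          exact q_skew K hA _ _ _ _

variable {K}

/-- Multilinear polynomials in the letters `J`. -/
def IsMul (J : Finset ℕ) (w : FA K) : Prop :=
  ∀ m ∈ w.coeff.support, ∀ i, cnt i m = if i ∈ J then 1 else 0

theorem lift_eq (s : ℕ → A) (w : FA K) :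
    lift K s w = ∑ m ∈ w.coeff.support, w.coeff m • ev s m := by
  conv_lhs => rw [eq_sum K w]
  rw [map_sum]
  refine Finset.sum_congr rfl fun m _ => ?_
  rw [map_smul, lift_mon]

theorem length_ge_two {m : FreeMagma ℕ} {i j : ℕ} (hij : i ≠ j) (hi : cnt i m ≠ 0)
    (hj : cnt j m ≠ 0) : 2 ≤ m.length := by
  induction m with
  | ih1 x =>
    rw [cnt_of] at hi hj
    have h1 : x = i := by by_contra h; exact hi (if_neg h)
    have h2 : x = j := by by_contra h; exact hj (if_neg h)
    exact absurd (h1.symm.trans h2) hij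
  | ih2 a b _ _ =>
    have h1 := a.length_pos
    have h2 := b.length_pos
    rw [length_mul]; omega

section core

variable (hW : IsW K A) (J : Finset ℕ) (w : FA K) (hw : IsMul J w)
  (hid : ∀ s : ℕ → A, lift K s w = 0) (hl : ∀ m ∈ w.coeff.support, 2 ≤ m.length)

include hW in
theorem z1 (x y : A) (s : ℕ → A) : tw K x y s w = tw K y x s w := by
  simp only [tw, lext_apply]
  refine Finset.sum_congr rfl fun m _ => ?_
  congr 1
  induction m with
  | ih1 x => rfl
  | ih2 a b _ _ => exact q_symm K hW.mal _ _ _ _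

include hW hw hid hl in
theorem z2 (x y : A) (s : ℕ → A) (i : ℕ) (hi : i ∈ J) :
    (2 : K) • tw K x y s w = tw K x (s i) (Function.update s i y) w
      + tw K y (s i) (Function.update s i x) w := by
  have e := hid (Function.update s i (x * (y * s i) + y * (x * s i)))
  rw [lift_eq] at e
  simp only [tw, lext_apply]
  rw [Finset.smul_sum, ← Finset.sum_add_distrib, ← sub_eq_zero, ← Finset.sum_sub_distrib,
    ← neg_eq_zero, ← Finset.sum_neg_distrib, ← e]
  refine Finset.sum_congr rfl fun m hm => ?_
  have h1 : cnt i m = 1 := by rw [hw m hm i, if_pos hi]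
  have h2 := lemC hW x y s i m h1 (hl m hm)
  rw [FC] at h2
  rw [h2]
  module

include hW hw hid hl in
theorem z3 (x y : A) (s : ℕ → A) (i : ℕ) (hi : i ∈ J) :
    tw K x y s w = tw K x (s i) (Function.update s i y) w := by
  have e1 := z2 hW J w hw hid hl x y s i hi
  have e2 := z2 hW J w hw hid hl x (s i) (Function.update s i y) i hi
  have e3 := z2 hW J w hw hid hl y (s i) (Function.update s i x) i hi
  simp only [Function.update_self, Function.update_idem, Function.update_eq_self] at e2 e3
  rw [z1 hW w (s i) y] at e2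
  rw [z1 hW w (s i) x, z1 hW w y x] at e3
  have e4 : (3 : K) • (tw K x y s w - tw K x (s i) (Function.update s i y) w) = 0 := by
    linear_combination (norm := module) e1 - e2
  rcases smul_eq_zero.1 e4 with h | h
  · exact absurd h three_ne_zero
  · exact sub_eq_zero.1 h

include hW hw hid hl in
theorem z4 (x y : A) (s : ℕ → A) (i j : ℕ) (hi : i ∈ J) (hj : j ∈ J) (hij : i ≠ j) :
    tw K x y (s ∘ Equiv.swap i j) w = tw K x y s w := by
  have g : ∀ s : ℕ → A, tw K x y s w
      = tw K (s i) (s j) (Function.update (Function.update s i y) j x) w := by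
    intro s
    rw [z3 hW J w hw hid hl x y s i hi, z1 hW w x (s i),
      z3 hW J w hw hid hl (s i) x (Function.update s i y) j hj, Function.update_of_ne hij.symm]
  rw [g, g s]
  simp only [Function.comp_apply, Equiv.swap_apply_left, Equiv.swap_apply_right]
  rw [z1 hW]
  congr 2
  funext k
  by_cases hk : k = j
  · subst hk; simp
  · by_cases hk2 : k = i
    · subst hk2; simp [hij]
    · simp only [Function.update_of_ne hk, Function.update_of_ne hk2, Function.comp_apply,
        Equiv.swap_apply_of_ne_of_ne hk2 hk]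

include hW hw hid hl in
theorem z5 (x y : A) (π : Equiv.Perm J) (s : ℕ → A) :
    tw K x y (s ∘ Equiv.Perm.ofSubtype π) w = tw K x y s w := by
  induction π using Equiv.Perm.swap_induction_on generalizing s with
  | one => rw [map_one]; rfl
  | swap_mul f a b hab ih =>
    rw [map_mul, Equiv.Perm.ofSubtype_swap_eq, Equiv.Perm.coe_mul, ← Function.comp_assoc, ih]
    exact z4 hW J w hw hid hl x y s a b a.2 b.2 (fun h => hab (Subtype.ext h))

include hW hw in
theorem z6 (x y : A) (s : ℕ → A) (m : FreeMagma ℕ) (hm : m ∈ w.coeff.support)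
    (hl : 2 ≤ m.length) :
    ∑ π : Equiv.Perm J, Tm K x y (s ∘ Equiv.Perm.ofSubtype π) m = 0 := by
  obtain ⟨i, j, hij, hi, hj, -, t⟩ := exists_sib K hW.mal m
    (fun i => by rw [hw m hm i]; split_ifs <;> omega) hl
  have hiJ : i ∈ J := by
    by_contra h
    rw [hw m hm i, if_neg h] at hi; omega
  have hjJ : j ∈ J := by
    by_contra h
    rw [hw m hm j, if_neg h] at hj; omega
  have e := Equiv.sum_comp (Equiv.mulRight (Equiv.swap (⟨i, hiJ⟩ : J) ⟨j, hjJ⟩))
    (fun π : Equiv.Perm J => Tm K x y (s ∘ Equiv.Perm.ofSubtype π) m)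
  have e2 : ∀ π : Equiv.Perm J, Tm K x y (s ∘ Equiv.Perm.ofSubtype
      ((Equiv.mulRight (Equiv.swap (⟨i, hiJ⟩ : J) ⟨j, hjJ⟩)) π)) m
      = -Tm K x y (s ∘ Equiv.Perm.ofSubtype π) m := by
    intro π
    rw [Equiv.coe_mulRight, map_mul, Equiv.Perm.ofSubtype_swap_eq, Equiv.Perm.coe_mul,
      ← Function.comp_assoc]
    exact t _ _ _
  simp only [e2, Finset.sum_neg_distrib] at e
  have e3 : (2 : K) • ∑ π : Equiv.Perm J, Tm K x y (s ∘ Equiv.Perm.ofSubtype π) m = 0 := by
    rw [two_smul]
    nth_rewrite 1 [← e]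
    exact neg_add_cancel _
  rcases smul_eq_zero.1 e3 with h | h
  · exact absurd h two_ne_zero
  · exact h

include hW hw hid hl in
/-- Operators kill multilinear identities. -/
theorem T1core (x y : A) (s : ℕ → A) : tw K x y s w = 0 := by
  have e1 : ∑ π : Equiv.Perm J, tw K x y (s ∘ Equiv.Perm.ofSubtype π) w
      = (Fintype.card (Equiv.Perm J) : K) • tw K x y s w := by
    rw [Finset.sum_congr rfl (fun π _ => z5 hW J w hw hid hl x y π s), Finset.sum_const,
      Finset.card_univ, Nat.cast_smul_eq_nsmul]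
  have e2 : ∑ π : Equiv.Perm J, tw K x y (s ∘ Equiv.Perm.ofSubtype π) w = 0 := by
    simp only [tw, lext_apply]
    rw [Finset.sum_comm]
    refine Finset.sum_eq_zero fun m hm => ?_
    rw [← Finset.smul_sum, z6 hW J w hw x y s m hm (hl m hm), smul_zero]
  rw [e2] at e1
  rcases smul_eq_zero.1 e1.symm with h | h
  · exact absurd h (Nat.cast_ne_zero.2 Fintype.card_ne_zero)
  · exact h

end core

end T1

end Pool.Agent.Lib.MP_cad252_al.Z
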