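import Pool.Agent.Lib.MP_cad252_al.Z.W

/-!
Consequences of the basic identities.
-/

set_option linter.unusedSimpArgs false
set_option linter.unusedSectionVars false

namespace Pool.Agent.Lib.MP_cad252_al.Z

open Pool.Agent.Lib.MP_cad252_al.H89

section alg

variable (K : Type*) {A : Type*} [Field K] [CharZero K] [NonUnitalNonAssocRing A] [Module K A]
  [IsScalarTower K A A] [SMulCommClass K A A]

theorem Gq (hA : IsMalcev A) (x y z w : A) :
    Me K x y z * w = q K x z y w - q K y z x w := by
  simp only [q]
  rw [Me_skew K hA x y z, Me_skew K hA y w z, hA.anticomm _ w, Me_skew K hA x w z]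
  simp only [mul_neg]
  module

theorem V3 (hA : IsMalcev A) (x y u b : A) :
    (x * (y * u) + y * (x * u)) * b
      = -(2 : K) • q K x y u b + q K x u y b + q K y u x b := by
  have e1 := Gq K hA x u y b
  have e2 := Gq K hA y u x b
  have e3 : Me K x u y + Me K y u x = -(x * (y * u) + y * (x * u)) := by
    have c : Jac y u x = -Jac x u y := by
      rw [Jac_cyc x y u, Jac_cyc y x u, Jac_swap hA x y u, neg_neg]
    simp only [Me]
    rw [c, hA.anticomm (x * u) y, hA.anticomm (y * u) x]
    module
  have e4 : (Me K x u y + Me K y u x) * b = -((x * (y * u) + y * (x * u)) * b) := by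
    rw [e3, neg_mul]
  rw [add_mul, e1, e2, q_symm K hA u y x b, q_symm K hA u x y b, q_symm K hA y x u b] at e4
  linear_combination (norm := module) (1 : K) • e4

/-- `J(a,b,c)d / 3` is the cyclic sum of `M(bc,a)d`. -/
theorem Jd (hA : IsMalcev A) (a b c d : A) :
    (1 / 3 : K) • (Jac a b c * d) = Me K (b * c) a d + Me K (c * a) b d + Me K (a * b) c d := by
  have e := congrArg (fun T : Module.End K A => T d) (LJ_eq (mrep K hA) a b c)
  simp only [LinearMap.smul_apply, LinearMap.add_apply, Lm_apply, D_apply K hA] at e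
  have e2 : Jac a b c * d = ((a * b) * c) * d + ((b * c) * a) * d + ((c * a) * b) * d := by
    rw [Jac, add_mul, add_mul]
  simp only [Me]
  linear_combination (norm := module) (-(1 / 3) : K) • e + (1 : K) • e2

include K in
/-- The identity of Sagle. -/
theorem sagle (hA : IsMalcev A) (x y z t : A) :
    (x * z) * (y * t) = ((x * y) * z) * t + ((y * z) * t) * x + ((z * t) * x) * y
      + ((t * x) * y) * z := by
  have a := hA.anticomm
  have h1 := hA.lin x y z t
  have h2 := hA.lin x z t y
  have h3 := hA.lin x t y z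
  have e1 : t * x = -(x * t) := a _ _
  have e2 : y * x = -(x * y) := a _ _
  have e3 : z * x = -(x * z) := a _ _
  have e4 : t * y = -(y * t) := a _ _
  have e5 : t * z = -(z * t) := a _ _
  have e6 : z * y = -(y * z) := a _ _
  have g1 : ∀ u v : A, x * (u * v) = -((u * v) * x) := fun _ _ => a _ _
  have g2 : ∀ u v : A, y * (u * v) = -((u * v) * y) := fun _ _ => a _ _
  have g3 : ∀ u v : A, z * (u * v) = -((u * v) * z) := fun _ _ => a _ _
  have g4 : ∀ u v : A, t * (u * v) = -((u * v) * t) := fun _ _ => a _ _
  have p1 : (y * z) * (x * t) = -((x * t) * (y * z)) := a _ _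
  have p2 : (z * t) * (x * y) = -((x * y) * (z * t)) := a _ _
  have p3 : (y * t) * (x * z) = -((x * z) * (y * t)) := a _ _
  simp only [Jac, add_mul, e1, e2, e3, e4, e5, e6, neg_mul, mul_neg, neg_neg, g1, g2, g3, g4, p1,
    p2, p3] at h1 h2 h3 ⊢
  linear_combination (norm := module) (1 / 2 : K) • h1 + (1 / 2 : K) • h2 - (1 / 2 : K) • h3

theorem E5 (hW : IsW K A) (a b c d e : A) :
    (((a * b) * c) * d) * e = q K a c (b * d) e - q K b c (a * d) e + q K (b * c) d a e
      + q K (c * a) d b e + q K (a * b) d c e - q K a d (b * c) e - q K b d (c * a) e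
      - q K c d (a * b) e := by
  have hA := hW.mal
  have e1 := Jd K hA a b c d
  have e2 := Gq K hA a b c d
  have e3 : ((a * b) * c) * d = Me K a b c * d + (1 / 3 : K) • (Jac a b c * d) := by
    rw [Me, sub_mul, smul_mul_assoc]; module
  rw [e3, e1, e2]
  simp only [add_mul, sub_mul]
  rw [hW.w3, hW.w3, Gq K hA (b * c) a d e, Gq K hA (c * a) b d e, Gq K hA (a * b) c d e]
  abel

end alg

end Pool.Agent.Lib.MP_cad252_al.Z
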