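import Pool.Agent.Lib.MP_cad252_al.Z.Jac

/-!
The identities `w3` and `w4` on the Jacobian ideal of a Malcev algebra of characteristic zero.
-/

set_option linter.unusedSimpArgs false
set_option linter.unusedSectionVars false

namespace Pool.Agent.Lib.MP_cad252_al.Z

open Pool.Agent.Lib.MP_cad252_al.H89

section multilin

variable (K : Type*) {A : Type*} [Field K] [NonUnitalNonAssocRing A] [Module K A]
  [IsScalarTower K A A] [SMulCommClass K A A]

theorem Me_add1 (x x' y z : A) : Me K (x + x') y z = Me K x y z + Me K x' y z := by
  simp only [Me, Jac, add_mul, mul_add]; module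

theorem Me_add2 (x y y' z : A) : Me K x (y + y') z = Me K x y z + Me K x y' z := by
  simp only [Me, Jac, add_mul, mul_add]; module

theorem Me_add3 (x y z z' : A) : Me K x y (z + z') = Me K x y z + Me K x y z' := by
  simp only [Me, Jac, add_mul, mul_add]; module

theorem Me_smul1 (c : K) (x y z : A) : Me K (c • x) y z = c • Me K x y z := by
  simp only [Me, Jac, smul_mul_assoc, mul_smul_comm]; module

theorem Me_smul2 (c : K) (x y z : A) : Me K x (c • y) z = c • Me K x y z := by
  simp only [Me, Jac, smul_mul_assoc, mul_smul_comm]; module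

theorem Me_smul3 (c : K) (x y z : A) : Me K x y (c • z) = c • Me K x y z := by
  simp only [Me, Jac, smul_mul_assoc, mul_smul_comm]; module

theorem q_add1 (x x' y a b : A) : q K (x + x') y a b = q K x y a b + q K x' y a b := by
  simp only [q, Me_add1, Me_add2, Me_add3, add_mul, mul_add]; module

theorem q_add2 (x y y' a b : A) : q K x (y + y') a b = q K x y a b + q K x y' a b := by
  simp only [q, Me_add1, Me_add2, Me_add3, add_mul, mul_add]; module

theorem q_add3 (x y a a' b : A) : q K x y (a + a') b = q K x y a b + q K x y a' b := by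
  simp only [q, Me_add1, Me_add2, Me_add3, add_mul, mul_add]; module

theorem q_add4 (x y a b b' : A) : q K x y a (b + b') = q K x y a b + q K x y a b' := by
  simp only [q, Me_add1, Me_add2, Me_add3, add_mul, mul_add]; module

theorem q_smul1 (c : K) (x y a b : A) : q K (c • x) y a b = c • q K x y a b := by
  simp only [q, Me_smul1, Me_smul2, Me_smul3, smul_mul_assoc, mul_smul_comm]; module

theorem q_smul2 (c : K) (x y a b : A) : q K x (c • y) a b = c • q K x y a b := by
  simp only [q, Me_smul1, Me_smul2, Me_smul3, smul_mul_assoc, mul_smul_comm]; module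

theorem q_smul3 (c : K) (x y a b : A) : q K x y (c • a) b = c • q K x y a b := by
  simp only [q, Me_smul1, Me_smul2, Me_smul3, smul_mul_assoc, mul_smul_comm]; module

theorem q_smul4 (c : K) (x y a b : A) : q K x y a (c • b) = c • q K x y a b := by
  simp only [q, Me_smul1, Me_smul2, Me_smul3, smul_mul_assoc, mul_smul_comm]; module

theorem q_neg1 (x y a b : A) : q K (-x) y a b = -q K x y a b := by
  rw [← neg_one_smul K x, q_smul1, neg_one_smul]

theorem q_neg2 (x y a b : A) : q K x (-y) a b = -q K x y a b := by
  rw [← neg_one_smul K y, q_smul2, neg_one_smul]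

theorem q_neg3 (x y a b : A) : q K x y (-a) b = -q K x y a b := by
  rw [← neg_one_smul K a, q_smul3, neg_one_smul]

theorem q_neg4 (x y a b : A) : q K x y a (-b) = -q K x y a b := by
  rw [← neg_one_smul K b, q_smul4, neg_one_smul]

/-- Algebras satisfying the basic identities. -/
structure IsW (B : Type*) [NonUnitalNonAssocRing B] [Module K B] : Prop where
  mal : IsMalcev B
  w3 : ∀ x y a b c : B, q K x y a b * c = q K x y (a * b) c
  w4 : ∀ x y z a b : B, q K (x * y) z a b = q K x (y * z) a b

end multilin

section alg

variable (K : Type*) {A : Type*} [Field K] [CharZero K] [NonUnitalNonAssocRing A] [Module K A]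
  [IsScalarTower K A A] [SMulCommClass K A A]

theorem Me_skew (hA : IsMalcev A) (x y z : A) : Me K y x z = -Me K x y z := by
  simp only [Me]
  rw [Jac_swap hA, hA.anticomm y x, neg_mul]
  module

theorem q_skew (hA : IsMalcev A) (x y a b : A) : q K x y b a = -q K x y a b := by
  simp only [q]
  rw [Me_skew K hA b a y, mul_neg]
  module

theorem k3 (hA : IsMalcev A) (a c d p : A) (hp : p ∈ jacobianSubspace K A) :
    q K c d p a * a = q K c d (p * a) a := by
  have h := mrep K hA
  have e := congrArg (fun T : Module.End K A => T p) (K3_eq h a c d)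
  simp only [LinearMap.sub_apply, LinearMap.add_apply, LinearMap.smul_apply,
    Module.End.mul_apply, Fl_kill K hA _ _ _ p hp, Q3_apply K hA, Lm_apply] at e
  rw [hA.anticomm a p, q_neg3, hA.anticomm a (q K c d p a)] at e
  simp only [smul_zero, add_zero, sub_neg_eq_add] at e
  rw [neg_add_eq_zero] at e
  exact e

theorem k4 (hA : IsMalcev A) (a c d p : A) (hp : p ∈ jacobianSubspace K A) :
    q K a a c d * p - q K a a (c * d) p + (q K a a p c * d - q K a a (p * c) d) = 0 := by
  have h := mrep K hA
  have e := congrArg (fun T : Module.End K A => T p) (K4_eq h a c d)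
  simp only [LinearMap.sub_apply, LinearMap.add_apply, LinearMap.smul_apply,
    Module.End.mul_apply, Fl_kill K hA _ _ _ p hp, F2_kill K hA _ _ _ p hp, Q3_apply K hA,
    Lm_apply] at e
  rw [hA.anticomm c p, q_neg3, hA.anticomm d (q K a a p c), q_skew K hA a a (c * d) p] at e
  simp only [smul_zero, add_zero, sub_neg_eq_add, sub_zero] at e
  rw [← e]
  abel

theorem k5 (hA : IsMalcev A) (a c d p : A) (hp : p ∈ jacobianSubspace K A) :
    q K a (a * p) c d = q K (a * c) a p d := by
  have h := mrep K hA
  have e := congrArg (fun T : Module.End K A => T p) (K5_eq h a c d)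
  simp only [LinearMap.sub_apply, LinearMap.add_apply, LinearMap.smul_apply,
    Module.End.mul_apply, Fl_kill K hA _ _ _ p hp, F2_kill K hA _ _ _ p hp, Q3_apply K hA,
    Q2_apply K hA, Lm_apply, smul_zero, add_zero] at e
  exact sub_eq_zero.1 e

/-- `Delta`. -/
def De (x y a b c : A) : A := q K x y a b * c - q K x y (a * b) c

theorem k3l (hA : IsMalcev A) (a b c d p : A) (hp : p ∈ jacobianSubspace K A) :
    De K c d p a b = - De K c d p b a := by
  have e1 := k3 K hA (a + b) c d p hp
  have e2 := k3 K hA a c d p hp
  have e3 := k3 K hA b c d p hp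
  simp only [q_add3, q_add4, mul_add, add_mul] at e1
  simp only [De]
  linear_combination (norm := abel) e1 - e2 - e3

theorem De_skew12 (hA : IsMalcev A) (x y a b c : A) : De K x y b a c = -De K x y a b c := by
  simp only [De]
  rw [q_skew K hA x y a b, hA.anticomm b a, q_neg3, neg_mul]
  abel

theorem w3J (hA : IsMalcev A) (x y a b c : A) (ha : a ∈ jacobianSubspace K A)
    (hb : b ∈ jacobianSubspace K A) :
    q K x y a b * c = q K x y (a * b) c := by
  have key : ∀ x : A, De K x x a b c = 0 := by
    intro x
    have e := k4 K hA x b c a ha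
    have e1 : De K x x b c a = De K x x a b c := by
      rw [k3l K hA c a x x b hb, De_skew12 K hA, neg_neg]
    have e2 : De K x x b c a + De K x x a b c = 0 := e
    rw [e1] at e2
    have e3 : (2 : K) • De K x x a b c = 0 := by rw [two_smul]; exact e2
    rcases smul_eq_zero.1 e3 with h | h
    · exact absurd h two_ne_zero
    · exact h
  have e1 := key (x + y)
  have e2 := key x
  have e3 := key y
  simp only [De, q_add1, q_add2, add_mul] at e1 e2 e3
  rw [q_symm K hA y x a b, q_symm K hA y x (a * b) c] at e1
  have e4 : (2 : K) • (q K x y a b * c - q K x y (a * b) c) = 0 := by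
    linear_combination (norm := module) e1 - e2 - e3
  rcases smul_eq_zero.1 e4 with h | h
  · exact absurd h two_ne_zero
  · exact sub_eq_zero.1 h

theorem w4J (hA : IsMalcev A) (x y z a b : A) (hy : y ∈ jacobianSubspace K A)
    (ha : a ∈ jacobianSubspace K A) (hb : b ∈ jacobianSubspace K A) :
    q K (x * y) z a b = q K x (y * z) a b := by
  have key : ∀ x : A, q K (x * y) x a b = 0 := by
    intro x
    have s : ∀ u v w : A, u ∈ jacobianSubspace K A →
        q K (x * u) x v w = q K (x * v) x u w := by
      intro u v w hu
      rw [← k5 K hA x v w u hu, q_symm K hA]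
    have e1 := s y a b hy
    have e2 := q_skew K hA (x * a) x b y
    have e3 := s a b y ha
    have e4 := q_skew K hA (x * b) x y a
    have e5 := s b y a hb
    have e6 := q_skew K hA (x * y) x a b
    have e7 : (2 : K) • q K (x * y) x a b = 0 := by
      rw [two_smul]
      nth_rewrite 1 [e1]
      rw [e2, e3]
      rw [← q_skew K hA (x * b) x a y, e5, e6]
      abel
    rcases smul_eq_zero.1 e7 with h | h
    · exact absurd h two_ne_zero
    · exact h
  have e1 := key (x + z)
  have e2 := key x
  have e3 := key z
  simp only [add_mul, q_add1, q_add2] at e1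
  have e4 : q K (x * y) z a b = -q K (z * y) x a b := by
    linear_combination (norm := abel) e1 - e2 - e3
  rw [e4, hA.anticomm z y, q_neg1, neg_neg, q_symm K hA]

theorem isW_jacobianIdeal (hA : IsMalcev A) : IsW K (jacobianIdeal K A) := by
  have hM : IsMalcev (jacobianIdeal K A) := by
    constructor
    · rintro ⟨x, hx⟩; exact Subtype.ext (hA.sq x)
    · rintro ⟨x, hx⟩ ⟨y, hy⟩ ⟨z, hz⟩; exact Subtype.ext (hA.malcev x y z)
  have hMe : ∀ x y z : jacobianIdeal K A, ((Me K x y z : jacobianIdeal K A) : A)
      = Me K (x : A) (y : A) (z : A) := by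
    intro x y z; rfl
  have hq : ∀ x y z t : jacobianIdeal K A, ((q K x y z t : jacobianIdeal K A) : A)
      = q K (x : A) (y : A) (z : A) (t : A) := by
    intro x y z t; rfl
  refine ⟨hM, ?_, ?_⟩
  · intro x y a b c
    apply Subtype.ext
    have := w3J K hA (x : A) y a b c a.2 b.2
    rw [hq]
    exact this
  · intro x y z a b
    apply Subtype.ext
    have := w4J K hA (x : A) y z a b y.2 a.2 b.2
    rw [hq, hq]
    exact this

end alg

end Pool.Agent.Lib.MP_cad252_al.Z
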